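import Pool.Agent.MP_f8bd42_al.Lattice

/-!
The local zeta function of the example.
-/

namespace Pool.Agent.MP_f8bd42_al

variable {O : Type} [CommRing O] [IsDomain O] [IsDiscreteValuationRing O] {ϖ : O} {q : ℕ}

/-- The linear map with rows `(ϖ ^ a, α)` and `(0, ϖ ^ b)`. -/
def latMap (ϖ : O) (a b : ℕ) (α : O) : O × O →ₗ[O] O × O :=
  (LinearMap.toSpanSingleton O (O × O) (ϖ ^ a, α)).coprod
    (LinearMap.toSpanSingleton O (O × O) (0, ϖ ^ b))

/-- The lattice spanned by `(ϖ ^ a, α)` and `(0, ϖ ^ b)`. -/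
def lat (ϖ : O) (a b : ℕ) (α : O) : Submodule O (O × O) := LinearMap.range (latMap ϖ a b α)

omit [IsDomain O] [IsDiscreteValuationRing O] in
theorem latMap_apply (a b : ℕ) (α : O) (p : O × O) :
    latMap ϖ a b α p = (p.1 * ϖ ^ a, p.1 * α + p.2 * ϖ ^ b) := by
  simp [latMap]

omit [IsDomain O] [IsDiscreteValuationRing O] in
theorem mem_lat {a b : ℕ} {α : O} {p : O × O} :
    p ∈ lat ϖ a b α ↔ ∃ r, p.1 = r * ϖ ^ a ∧ ϖ ^ b ∣ p.2 - r * α := by
  constructor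
  · rintro ⟨⟨r, s⟩, rfl⟩
    exact ⟨r, by simp [latMap_apply], by simp [latMap_apply]⟩
  · rintro ⟨r, h1, s, h2⟩
    refine ⟨(r, s), ?_⟩
    rw [latMap_apply]
    exact Prod.ext h1.symm (by simp only; linear_combination -h2)

omit [IsDiscreteValuationRing O] in
theorem latMap_injective (hϖ : Irreducible ϖ) (a b : ℕ) (α : O) :
    Function.Injective (latMap ϖ a b α) := by
  rintro ⟨r, s⟩ ⟨r', s'⟩ h
  simp only [latMap_apply, Prod.mk.injEq] at h
  obtain ⟨h1, h2⟩ := h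
  have hr := mul_right_cancel₀ (pow_ne_zero a hϖ.ne_zero) h1
  subst hr
  have hs := mul_right_cancel₀ (pow_ne_zero b hϖ.ne_zero) (add_left_cancel h2)
  rw [hs]

omit [IsDomain O] [IsDiscreteValuationRing O] in
theorem map_fst_lat (a b : ℕ) (α : O) :
    (lat ϖ a b α).map (LinearMap.fst O O O) = Ideal.span {ϖ ^ a} := by
  ext x
  rw [Ideal.mem_span_singleton']
  constructor
  · rintro ⟨p, hp, rfl⟩
    obtain ⟨r, h, -⟩ := mem_lat.mp hp
    exact ⟨r, h.symm⟩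
  · rintro ⟨r, rfl⟩
    exact ⟨(r * ϖ ^ a, r * α), mem_lat.mpr ⟨r, rfl, by simp⟩, rfl⟩

omit [IsDiscreteValuationRing O] in
theorem inr_mem_lat (hϖ : Irreducible ϖ) {a b : ℕ} {α y : O} :
    ((0 : O), y) ∈ lat ϖ a b α ↔ ϖ ^ b ∣ y := by
  rw [mem_lat]
  constructor
  · rintro ⟨r, h1, h2⟩
    have : r = 0 := (mul_eq_zero.mp h1.symm).resolve_right (pow_ne_zero a hϖ.ne_zero)
    simpa [this] using h2
  · exact fun h => ⟨0, by simp, by simpa using h⟩

omit [IsDiscreteValuationRing O] in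
theorem comap_inr_lat (hϖ : Irreducible ϖ) (a b : ℕ) (α : O) :
    (lat ϖ a b α).comap (LinearMap.inr O O O) = Ideal.span {ϖ ^ b} := by
  ext y
  rw [Ideal.mem_span_singleton, ← inr_mem_lat hϖ (a := a) (α := α)]
  rfl

theorem index_lat (hϖ : Irreducible ϖ) (hq : Nat.card (O ⧸ Ideal.span {ϖ}) = q) (a b : ℕ) (α : O) :
    (lat ϖ a b α).toAddSubgroup.index = q ^ (a + b) := by
  rw [index_eq_mul, map_fst_lat, comap_inr_lat hϖ, index_span_pow hϖ hq, index_span_pow hϖ hq,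
    pow_add]

omit [IsDomain O] [IsDiscreteValuationRing O] in
theorem lat_congr {a b : ℕ} {α β : O} (h : ϖ ^ b ∣ α - β) : lat ϖ a b α = lat ϖ a b β := by
  ext p
  simp only [mem_lat]
  refine exists_congr fun r => and_congr_right fun _ => ?_
  rw [show p.2 - r * β = p.2 - r * α + r * (α - β) by ring]
  exact (dvd_add_left (Dvd.dvd.mul_left h r)).symm

omit [IsDiscreteValuationRing O] in
theorem span_pow_inj (hϖ : Irreducible ϖ) {a b : ℕ}
    (h : Ideal.span {ϖ ^ a} = Ideal.span {ϖ ^ b}) : a = b := by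
  rw [Ideal.span_singleton_eq_span_singleton] at h
  exact le_antisymm ((pow_dvd_pow_iff hϖ.ne_zero hϖ.not_isUnit).mp h.dvd)
    ((pow_dvd_pow_iff hϖ.ne_zero hϖ.not_isUnit).mp h.symm.dvd)

omit [IsDiscreteValuationRing O] in
theorem lat_inj (hϖ : Irreducible ϖ) {a b a' b' : ℕ} {α β : O}
    (h : lat ϖ a b α = lat ϖ a' b' β) : a = a' ∧ b = b' ∧ ϖ ^ b ∣ α - β := by
  have h1 : a = a' := span_pow_inj hϖ (by rw [← map_fst_lat a b α, h, map_fst_lat])
  have h2 : b = b' := span_pow_inj hϖ (by rw [← comap_inr_lat hϖ a b α, h, comap_inr_lat hϖ])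
  subst h1 h2
  refine ⟨rfl, rfl, ?_⟩
  have : (ϖ ^ a, α) ∈ lat ϖ a b β := h ▸ mem_lat.mpr ⟨1, by simp, by simp⟩
  obtain ⟨r, h1, h2⟩ := mem_lat.mp this
  have hr : r = 1 := mul_right_cancel₀ (pow_ne_zero a hϖ.ne_zero) (by simpa using h1.symm)
  simpa [hr] using h2

theorem exists_span_pow (hϖ : Irreducible ϖ) (I : Ideal O) (h : I.toAddSubgroup.index ≠ 0) :
    ∃ n, I = Ideal.span {ϖ ^ n} := by
  refine IsDiscreteValuationRing.ideal_eq_span_pow_irreducible ?_ hϖ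
  rintro rfl
  have : Infinite O := Infinite.of_injective (fun n : ℕ => ϖ ^ n) fun a b hab =>
    span_pow_inj hϖ (by simp only at hab; rw [hab])
  simp at h

theorem exists_lat (hϖ : Irreducible ϖ) (L : FinIdx O (O × O)) :
    ∃ a b α, L.1 = lat ϖ a b α := by
  have hL := L.2
  rw [index_eq_mul] at hL
  obtain ⟨a, ha⟩ := exists_span_pow hϖ _ (left_ne_zero_of_mul hL)
  obtain ⟨b, hb⟩ := exists_span_pow hϖ _ (right_ne_zero_of_mul hL)
  have h1 : ϖ ^ a ∈ L.1.map (LinearMap.fst O O O) := ha ▸ Ideal.mem_span_singleton_self _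
  obtain ⟨⟨x, α⟩, hα, hx⟩ := h1
  have hx' : x = ϖ ^ a := hx
  subst hx'
  have h2 : ∀ y, ((0 : O), y) ∈ L.1 ↔ ϖ ^ b ∣ y := fun y => by
    rw [← Ideal.mem_span_singleton, ← hb]
    rfl
  refine ⟨a, b, α, ?_⟩
  ext ⟨x, y⟩
  rw [mem_lat]
  constructor
  · intro h
    have : x ∈ Ideal.span {ϖ ^ a} := ha ▸ ⟨_, h, rfl⟩
    obtain ⟨r, hr⟩ := Ideal.mem_span_singleton'.mp this
    refine ⟨r, hr.symm, (h2 _).mp ?_⟩
    simpa [hr] using L.1.sub_mem h (L.1.smul_mem r hα)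
  · rintro ⟨r, h1, h3⟩
    have h1' : x = r * ϖ ^ a := h1
    simpa [h1'] using L.1.add_mem ((h2 _).mpr h3) (L.1.smul_mem r hα)

omit [IsDomain O] [IsDiscreteValuationRing O] in
theorem mem_transp_lat {A B : ℕ} {α : O} {L : Submodule O (O × O)} {η : O × O} :
    η ∈ transp (lat ϖ A B α) L ↔ (ϖ ^ A * η.1, α * η.2) ∈ L ∧ ((0 : O), ϖ ^ B * η.2) ∈ L := by
  constructor
  · intro h
    exact ⟨h (ϖ ^ A, α) (mem_lat.mpr ⟨1, by simp, by simp⟩),
      by simpa [Prod.mul_def] using h (0, ϖ ^ B) (mem_lat.mpr ⟨0, by simp, by simp⟩)⟩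
  · rintro ⟨h1, h2⟩ _ ⟨⟨r, s⟩, rfl⟩
    have := L.add_mem (L.smul_mem r h1) (L.smul_mem s h2)
    convert this using 1
    rw [latMap_apply]
    ext <;> simp <;> ring

theorem lat_le_transp_iff (hϖ : Irreducible ϖ) (A B C D : ℕ) (α w : O) :
    lat ϖ C D w ≤ transp (lat ϖ A B α) (lat ϖ C D w) ↔
      D - tv ϖ D w ≤ B ∧ ϖ ^ (D - tv ϖ D w) ∣ α - ϖ ^ A := by
  rw [← pow_dvd_pow_iff hϖ.ne_zero hϖ.not_isUnit, ← pow_dvd_mul_iff_tv hϖ,
    ← pow_dvd_mul_iff_tv hϖ]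
  constructor
  · intro h
    obtain ⟨h1, h2⟩ := mem_transp_lat.mp (h (mem_lat.mpr ⟨1, by simp, by simp⟩ :
      (ϖ ^ C, w) ∈ lat ϖ C D w))
    refine ⟨(inr_mem_lat hϖ).mp h2, ?_⟩
    obtain ⟨r, h3, h4⟩ := mem_lat.mp h1
    have hr : ϖ ^ A = r := mul_right_cancel₀ (pow_ne_zero C hϖ.ne_zero) h3
    rw [sub_mul, hr]
    exact h4
  · rintro ⟨h1, h2⟩ _ ⟨⟨r, s⟩, rfl⟩
    rw [mem_transp_lat, inr_mem_lat hϖ, mem_lat, latMap_apply]
    refine ⟨⟨ϖ ^ A * r, by simp only; ring, ?_⟩, ?_⟩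
    · have := dvd_add (Dvd.dvd.mul_left h2 r) (Dvd.intro_left (α * s) rfl : ϖ ^ D ∣ _)
      convert this using 1
      simp only
      ring
    · have := dvd_add (Dvd.dvd.mul_left h1 r) (Dvd.intro_left (ϖ ^ B * s) rfl : ϖ ^ D ∣ _)
      convert this using 1
      simp only
      ring

omit [IsDiscreteValuationRing O] in
theorem transp_lat_eq (hϖ : Irreducible ϖ) (A B C D : ℕ) (α w : O) :
    transp (lat ϖ A B α) (lat ϖ C D w) =
      (kerForm ϖ D (-(ϖ ^ (A - C) * w)) (ϖ ^ (D - B) * α)).map (latMap ϖ (C - A) (D - B) 0) := by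
  have hpow : ϖ ^ A * ϖ ^ (C - A) = ϖ ^ (A - C) * ϖ ^ C := by
    rw [← pow_add, ← pow_add]
    congr 1
    omega
  ext ⟨x, y⟩
  rw [mem_transp_lat, inr_mem_lat hϖ, pow_dvd_pow_mul_iff hϖ, mem_lat]
  constructor
  · rintro ⟨⟨r, h1, h2⟩, s, rfl⟩
    have : ϖ ^ (C - A) ∣ x := by
      rw [← pow_dvd_pow_mul_iff hϖ]
      exact Dvd.intro_left r h1.symm
    obtain ⟨r', rfl⟩ := this
    have hr : r = ϖ ^ (A - C) * r' := by
      apply mul_right_cancel₀ (pow_ne_zero C hϖ.ne_zero)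
      simp only at h1
      linear_combination -h1 + r' * hpow
    refine ⟨(r', s), mem_kerForm.mpr ?_, by simp [latMap_apply, mul_comm]⟩
    convert h2 using 1
    rw [hr]
    simp only
    ring
  · rintro ⟨⟨r, s⟩, h1, h2⟩
    rw [latMap_apply, Prod.mk.injEq] at h2
    obtain ⟨rfl, rfl⟩ := h2
    have h3 := mem_kerForm.mp h1
    refine ⟨⟨ϖ ^ (A - C) * r, by simp only; linear_combination r * hpow, ?_⟩, by simp⟩
    convert h3 using 1
    simp only
    ring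

theorem card_map_mkQ {R M : Type} [CommRing R] [AddCommGroup M] [Module R M]
    (L S : Submodule R M) (h : L ≤ S) :
    Nat.card (S.map L.mkQ) * S.toAddSubgroup.index = L.toAddSubgroup.index := by
  have h1 := (S.map L.mkQ).toAddSubgroup.card_mul_index
  have h2 : (S.map L.mkQ).toAddSubgroup.index = S.toAddSubgroup.index :=
    AddSubgroup.index_map_eq (f := L.mkQ.toAddMonoidHom) S.toAddSubgroup
      L.mkQ_surjective fun x hx => h ((Submodule.Quotient.mk_eq_zero _).mp hx)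
  rw [h2] at h1
  exact h1

theorem index_map_inj {R M : Type} [CommRing R] [AddCommGroup M] [Module R M]
    (S : Submodule R M) (f : M →ₗ[R] M) (hf : Function.Injective f) :
    (S.map f).toAddSubgroup.index =
      S.toAddSubgroup.index * (LinearMap.range f).toAddSubgroup.index :=
  AddSubgroup.index_map_of_injective (f := f.toAddMonoidHom) S.toAddSubgroup hf

theorem card_transp (hϖ : Irreducible ϖ) (hq : Nat.card (O ⧸ Ideal.span {ϖ}) = q) (hq0 : q ≠ 0)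
    (A B C D : ℕ) (α w : O) (h : lat ϖ C D w ≤ transp (lat ϖ A B α) (lat ϖ C D w)) :
    Nat.card ((transp (lat ϖ A B α) (lat ϖ C D w)).map (lat ϖ C D w).mkQ) =
      q ^ mExp A B C D (tv ϖ D w) (tv ϖ B α) := by
  have h1 := card_map_mkQ _ _ h
  have h3 : (transp (lat ϖ A B α) (lat ϖ C D w)).toAddSubgroup.index =
      (kerForm ϖ D (-(ϖ ^ (A - C) * w)) (ϖ ^ (D - B) * α)).toAddSubgroup.index *
        (lat ϖ (C - A) (D - B) 0).toAddSubgroup.index := by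
    rw [transp_lat_eq hϖ]
    exact index_map_inj _ _ (latMap_injective hϖ _ _ _)
  rw [h3, index_kerForm hϖ hq, index_lat hϖ hq, index_lat hϖ hq, tv_neg,
    tv_pow_mul hϖ (n := D) (by omega), tv_pow_mul hϖ (n := B) (by omega), ← pow_add] at h1
  have h5 := ((lat_le_transp_iff hϖ A B C D α w).mp h).1
  have h6 := tv_le (ϖ := ϖ) D w
  refine Nat.eq_of_mul_eq_mul_right (pow_pos (Nat.pos_of_ne_zero hq0) _) (h1.trans ?_)
  rw [← pow_add]
  congr 1
  unfold mExp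
  omega

/-- The parameter space of pairs of lattices. -/
abbrev Param (ϖ : O) : Type :=
  Σ v : ℕ × ℕ × ℕ × ℕ, (O ⧸ Ideal.span {ϖ ^ v.2.1}) × (O ⧸ Ideal.span {ϖ ^ v.2.2.2})

/-- The pair of lattices with given parameters. -/
noncomputable def paramMap (hϖ : Irreducible ϖ) (hq : Nat.card (O ⧸ Ideal.span {ϖ}) = q)
    (hq0 : q ≠ 0) (x : Param ϖ) : FinIdx O (O × O) × FinIdx O (O × O) :=
  (⟨lat ϖ x.1.1 x.1.2.1 x.2.1.out, by rw [index_lat hϖ hq]; exact pow_ne_zero _ hq0⟩,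
    ⟨lat ϖ x.1.2.2.1 x.1.2.2.2 x.2.2.out, by rw [index_lat hϖ hq]; exact pow_ne_zero _ hq0⟩)

omit [IsDomain O] [IsDiscreteValuationRing O] in
theorem eq_of_dvd_out_sub {n : ℕ} {x y : O ⧸ Ideal.span {ϖ ^ n}} (h : ϖ ^ n ∣ x.out - y.out) :
    x = y := by
  rw [← Ideal.mem_span_singleton, ← Ideal.Quotient.eq] at h
  exact (Quotient.out_eq x).symm.trans (h.trans (Quotient.out_eq y))

theorem paramMap_bijective (hϖ : Irreducible ϖ) (hq : Nat.card (O ⧸ Ideal.span {ϖ}) = q)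
    (hq0 : q ≠ 0) : Function.Bijective (paramMap hϖ hq hq0) := by
  constructor
  · rintro ⟨⟨A, B, C, D⟩, α, w⟩ ⟨⟨A', B', C', D'⟩, α', w'⟩ h
    obtain ⟨h1, h2, h3⟩ := lat_inj hϖ (congrArg (fun x => x.1.1) h)
    obtain ⟨h4, h5, h6⟩ := lat_inj hϖ (congrArg (fun x => x.2.1) h)
    simp only at h1 h2 h4 h5
    subst h1 h2 h4 h5
    have e1 : α = α' := eq_of_dvd_out_sub h3
    have e2 : w = w' := eq_of_dvd_out_sub h6
    rw [e1, e2]
  · rintro ⟨P, L⟩
    obtain ⟨A, B, α, hP⟩ := exists_lat hϖ P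
    obtain ⟨C, D, w, hL⟩ := exists_lat hϖ L
    refine ⟨⟨(A, B, C, D), Ideal.Quotient.mk _ α, Ideal.Quotient.mk _ w⟩,
      Prod.ext (Subtype.ext ?_) (Subtype.ext ?_)⟩
    · exact (lat_congr (dvd_out_sub B α)).trans hP.symm
    · exact (lat_congr (dvd_out_sub D w)).trans hL.symm

open Classical in
theorem sum_count (hϖ : Irreducible ϖ) (hq : Nat.card (O ⧸ Ideal.span {ϖ}) = q) (hq0 : q ≠ 0)
    (A B C D : ℕ) [Fintype (O ⧸ Ideal.span {ϖ ^ B})] [Fintype (O ⧸ Ideal.span {ϖ ^ D})] :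
    ((∑ y : (O ⧸ Ideal.span {ϖ ^ B}) × (O ⧸ Ideal.span {ϖ ^ D}),
      (if lat ϖ C D y.2.out ≤ transp (lat ϖ A B y.1.out) (lat ϖ C D y.2.out) then
        Nat.card ((transp (lat ϖ A B y.1.out) (lat ϖ C D y.2.out)).map
          (lat ϖ C D y.2.out).mkQ) ^ 2 else 0) : ℕ) : ℂ) = countC q A B C D := by
  rw [Nat.cast_sum, Fintype.sum_prod_type_right]
  have h1 : ∀ w : O ⧸ Ideal.span {ϖ ^ D}, (∑ α : O ⧸ Ideal.span {ϖ ^ B},
      (((if lat ϖ C D w.out ≤ transp (lat ϖ A B α.out) (lat ϖ C D w.out) then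
        Nat.card ((transp (lat ϖ A B α.out) (lat ϖ C D w.out)).map
          (lat ϖ C D w.out).mkQ) ^ 2 else 0) : ℕ) : ℂ)) =
      (fun W => if D - W ≤ B then
        (if A < D - W then (q : ℂ) ^ (B - (D - W)) * ((q : ℂ) ^ 2) ^ mExp A B C D W A else 0) +
          ∑ V ∈ Finset.range (B + 1), if D - W ≤ A ∧ D - W ≤ V then
            phiC q (B - V) * ((q : ℂ) ^ 2) ^ mExp A B C D W V else 0 else 0)
        (tv ϖ D w.out) := by
    intro w
    simp only
    by_cases hE : D - tv ϖ D w.out ≤ B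
    · rw [if_pos hE, ← sum_tv_shift hϖ hq hq0 hE
        (fun V => ((q : ℂ) ^ 2) ^ mExp A B C D (tv ϖ D w.out) V)]
      refine Finset.sum_congr rfl fun α _ => ?_
      by_cases hα : ϖ ^ (D - tv ϖ D w.out) ∣ α.out - ϖ ^ A
      · have := (lat_le_transp_iff hϖ A B C D α.out w.out).mpr ⟨hE, hα⟩
        rw [if_pos this, if_pos hα, card_transp hϖ hq hq0 _ _ _ _ _ _ this]
        push_cast
        ring
      · rw [if_neg hα, if_neg fun h => hα ((lat_le_transp_iff hϖ A B C D α.out w.out).mp h).2]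
        simp
    · rw [if_neg hE]
      refine Finset.sum_eq_zero fun α _ => ?_
      rw [if_neg fun h => hE ((lat_le_transp_iff hϖ A B C D α.out w.out).mp h).1]
      simp
  refine (Finset.sum_congr rfl fun w _ => h1 w).trans ((sum_tv hϖ hq hq0 D
    (fun W => if D - W ≤ B then
        (if A < D - W then (q : ℂ) ^ (B - (D - W)) * ((q : ℂ) ^ 2) ^ mExp A B C D W A else 0) +
          ∑ V ∈ Finset.range (B + 1), if D - W ≤ A ∧ D - W ≤ V then
            phiC q (B - V) * ((q : ℂ) ^ 2) ^ mExp A B C D W V else 0 else 0)).trans ?_)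
  refine Finset.sum_congr rfl fun W hW => ?_
  have hW' : W ≤ D := Nat.lt_succ_iff.mp (Finset.mem_range.mp hW)
  unfold term1 term2
  by_cases hE : D - W ≤ B
  · rw [if_pos hE, mul_add, Finset.mul_sum]
    congr 1
    · by_cases hA : A < D - W
      · rw [if_pos hA, if_pos ⟨hW', hE, hA⟩]
      · rw [if_neg hA, if_neg fun h => hA h.2.2, mul_zero]
    · refine Finset.sum_congr rfl fun V hV => ?_
      have hV' : V ≤ B := Nat.lt_succ_iff.mp (Finset.mem_range.mp hV)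
      by_cases hc : D - W ≤ A ∧ D - W ≤ V
      · rw [if_pos hc, if_pos ⟨hW', hc.1, hc.2, hV'⟩]
      · rw [if_neg hc, if_neg fun h => hc ⟨h.2.1, h.2.2.1⟩, mul_zero]
  · rw [if_neg hE, mul_zero, if_neg fun h => hE h.2.1, zero_add, eq_comm]
    exact Finset.sum_eq_zero fun V _ => if_neg (by omega)

theorem hasSum_subAlg (hϖ : Irreducible ϖ) (hq : Nat.card (O ⧸ Ideal.span {ϖ}) = q) (hq0 : q ≠ 0)
    {t : ℂ} (h1 : ‖t‖ < 1) (h2 : ‖(q : ℂ) * t‖ < 1) (τ : ℕ → ℂ) (hτ : ∀ n, τ (q ^ n) = t ^ n) :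
    HasSum (fun U : SubAlg O => τ U.1.toAddSubgroup.index) (localZeta (q : ℂ) t) := by
  classical
  have hfin : ∀ n, Finite (O ⧸ Ideal.span {ϖ ^ n}) := fun n =>
    Nat.finite_of_card_ne_zero (by rw [card_quot_pow hϖ hq]; exact pow_ne_zero _ hq0)
  let _ : ∀ n, Fintype (O ⧸ Ideal.span {ϖ ^ n}) := fun n => Fintype.ofFinite _
  have hfree : ∀ P : FinIdx O (O × O), Nonempty ((O × O) ≃ₗ[O] P.1) := fun P => by
    obtain ⟨a, b, α, h⟩ := exists_lat hϖ P
    rw [h]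
    exact ⟨LinearEquiv.ofInjective _ (latMap_injective hϖ a b α)⟩
  have key := hasSum_fiber (proj (O := O))
    (fun i => τ (i.1.1.toAddSubgroup.index * i.2.1.toAddSubgroup.index))
    (fun i => if i.2.1 ≤ transp i.1.1 i.2.1 then
      Nat.card ((transp i.1.1 i.2.1).map i.2.1.mkQ) ^ 2 else 0)
    (fun i => (card_fiber i.1 i.2 (hfree i.1).some).1)
    (fun i => (card_fiber i.1 i.2 (hfree i.1).some).2) (S := localZeta (q : ℂ) t) (by
      rw [← (Equiv.ofBijective _ (paramMap_bijective hϖ hq hq0)).hasSum_iff]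
      have := hasSum_sigma_nat (I := ℕ × ℕ × ℕ × ℕ)
        (F := fun v => (O ⧸ Ideal.span {ϖ ^ v.2.1}) × (O ⧸ Ideal.span {ϖ ^ v.2.2.2}))
        (fun v y => if lat ϖ v.2.2.1 v.2.2.2 y.2.out ≤
            transp (lat ϖ v.1 v.2.1 y.1.out) (lat ϖ v.2.2.1 v.2.2.2 y.2.out) then
          Nat.card ((transp (lat ϖ v.1 v.2.1 y.1.out) (lat ϖ v.2.2.1 v.2.2.2 y.2.out)).map
            (lat ϖ v.2.2.1 v.2.2.2 y.2.out).mkQ) ^ 2 else 0)
        (fun v => t ^ (v.1 + v.2.1 + v.2.2.1 + v.2.2.2))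
        (hasSum_of_eq (hasSum_countC h1 h2) (fun v => by rw [sum_count hϖ hq hq0]) rfl)
      refine hasSum_of_eq this (fun x => ?_) rfl
      simp only [Function.comp, Equiv.ofBijective_apply, paramMap]
      rw [index_lat hϖ hq, index_lat hϖ hq, ← pow_add, hτ, ← add_assoc]
      rfl)
  refine hasSum_of_eq key (fun U => ?_) rfl
  rw [index_eq_mul]
  rfl

end Pool.Agent.MP_f8bd42_al
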