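import Mathlib

/-!
Definitions for MP_f8bd42_al: subalgebra zeta functions of a non-associative algebra over the
integers given by structure constants, and the topological subalgebra zeta function.
-/

open Filter Topology

namespace Pool.Agent.MP_f8bd42_al

/-- The bilinear product on `O ^ d` with integer structure constants `c`:
`e i * e j = ∑ k, c i j k • e k`. -/
def algMul {d : ℕ} (c : Fin d → Fin d → Fin d → ℤ) (O : Type) [CommRing O]
    (x y : Fin d → O) : Fin d → O :=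
  fun k => ∑ i, ∑ j, (c i j k : O) * x i * y j

/-- Submodules of finite index of `O ^ d` that are closed under the product. -/
def FiniteIndexSubalgebra {d : ℕ} (c : Fin d → Fin d → Fin d → ℤ) (O : Type) [CommRing O] :
    Type :=
  {U : Submodule O (Fin d → O) //
    U.toAddSubgroup.index ≠ 0 ∧ ∀ x ∈ U, ∀ y ∈ U, algMul c O x y ∈ U}

/-- `z` is the value at `s` of the meromorphic continuation of the subalgebra zeta function
`∑ U, (index U) ^ (-w)` over the ring `O`. -/
def IsZetaValue {d : ℕ} (c : Fin d → Fin d → Fin d → ℤ) (O : Type) [CommRing O]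
    (s z : ℂ) : Prop :=
  ∃ F : ℂ → ℂ, Meromorphic F ∧
    (∃ σ : ℝ, ∀ w : ℂ, σ < w.re →
      HasSum (fun U : FiniteIndexSubalgebra c O => (U.1.toAddSubgroup.index : ℂ) ^ (-w)) (F w)) ∧
    AnalyticAt ℂ F s ∧ F s = z

/-- `Z` is the topological subalgebra zeta function. The valuation ring of the unramified extension
of degree `n` of the `p`-adic numbers is the ring of Witt vectors of the field with `p ^ n`
elements. -/
def IsTopZeta {d : ℕ} (c : Fin d → Fin d → Fin d → ℤ) (Z : RatFunc ℚ) : Prop :=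
  ∃ H : Finset ℤ, ∀ (l : ℕ) [Fact l.Prime], ∃ S : Finset ℕ, ∀ (p : ℕ) [Fact p.Prime], p ∉ S →
    ∃ e : ℕ, 1 ≤ e ∧ ∀ s : ℤ, s ∉ H → Z.denom.eval (s : ℚ) ≠ 0 ∧ ∃ z : ℕ → ℚ,
      (∀ f : ℕ, 1 ≤ f → IsZetaValue c (WittVector p (GaloisField p (e * f))) s (z f)) ∧
      Tendsto (fun f : ℕ => (((1 - ((p : ℚ) ^ (e * f))⁻¹) ^ d * z f : ℚ) : ℚ_[l]))
        (comap (fun f : ℕ => (f : ℚ_[l])) (𝓝 0) ⊓ 𝓟 {f | 1 ≤ f})
        (𝓝 ((Z.eval (RingHom.id ℚ) s : ℚ) : ℚ_[l]))

/-- The algebra of rank four with `e 0 * e 2 = e 2`, `e 1 * e 3 = e 3` and all other products of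
basis vectors zero. -/
def exampleConstants : Fin 4 → Fin 4 → Fin 4 → ℤ :=
  fun i j k => if (i = 0 ∧ j = 2 ∧ k = 2) ∨ (i = 1 ∧ j = 3 ∧ k = 3) then 1 else 0

end Pool.Agent.MP_f8bd42_al
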