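import Pool.Agent.MP_f8bd42_al.Val

/-!
Submodules of a product, lattices of rank two, and the count of subalgebras.
-/

namespace Pool.Agent.MP_f8bd42_al

section graph

variable {O Q N : Type} [CommRing O] [AddCommGroup Q] [Module O Q] [AddCommGroup N] [Module O N]

theorem index_eq_mul (U : Submodule O (Q × N)) :
    U.toAddSubgroup.index = (U.map (LinearMap.fst O Q N)).toAddSubgroup.index *
      (U.comap (LinearMap.inr O Q N)).toAddSubgroup.index := by
  let P : AddSubgroup (Q × N) := (U.map (LinearMap.fst O Q N)).toAddSubgroup.prod ⊤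
  let R : AddSubgroup (Q × N) := (AddMonoidHom.inr Q N).range
  have hP : P = U.toAddSubgroup ⊔ R := by
    apply le_antisymm
    · rintro ⟨x, y⟩ ⟨⟨⟨x', y'⟩, hu, rfl⟩, -⟩
      rw [AddSubgroup.mem_sup]
      exact ⟨(x', y'), hu, (0, y - y'), ⟨y - y', rfl⟩, by simp⟩
    · refine sup_le (fun p hp => ⟨⟨p, hp, rfl⟩, trivial⟩) ?_
      rintro _ ⟨y, rfl⟩
      exact ⟨Submodule.zero_mem _, trivial⟩
  have h1 : U.toAddSubgroup ≤ P := hP ▸ le_sup_left
  rw [← AddSubgroup.relIndex_mul_index h1, AddSubgroup.index_prod, AddSubgroup.index_top, mul_one,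
    mul_comm, hP, sup_comm, AddSubgroup.relIndex_sup_right, ← AddSubgroup.index_comap]
  rfl

/-- The submodule of `Q × N` given by a homomorphism `P → N ⧸ L`. -/
def graph (P : Submodule O Q) (L : Submodule O N) (φ : P →ₗ[O] N ⧸ L) : Submodule O (Q × N) where
  carrier := {p | ∃ h : p.1 ∈ P, L.mkQ p.2 = φ ⟨p.1, h⟩}
  add_mem' := by
    rintro ⟨a, b⟩ ⟨c, d⟩ ⟨h1, h2⟩ ⟨h3, h4⟩
    refine ⟨P.add_mem h1 h3, ?_⟩
    simp only [Prod.mk_add_mk, map_add] at h2 h4 ⊢
    rw [h2, h4, ← map_add]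
    rfl
  zero_mem' := ⟨P.zero_mem, by
    simp only [Prod.snd_zero, map_zero, Prod.fst_zero]
    exact (map_zero φ).symm⟩
  smul_mem' := by
    rintro c ⟨a, b⟩ ⟨h1, h2⟩
    refine ⟨P.smul_mem c h1, ?_⟩
    simp only [Prod.smul_mk, map_smul] at h2 ⊢
    rw [h2, ← map_smul]
    rfl

theorem mem_graph {P : Submodule O Q} {L : Submodule O N} {φ : P →ₗ[O] N ⧸ L} {p : Q × N} :
    p ∈ graph P L φ ↔ ∃ h : p.1 ∈ P, L.mkQ p.2 = φ ⟨p.1, h⟩ := Iff.rfl

theorem exists_mem_graph {P : Submodule O Q} {L : Submodule O N} (φ : P →ₗ[O] N ⧸ L) (x : P) :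
    ∃ y, L.mkQ y = φ x ∧ ((x : Q), y) ∈ graph P L φ := by
  obtain ⟨y, hy⟩ := L.mkQ_surjective (φ x)
  exact ⟨y, hy, x.2, hy⟩

theorem map_fst_graph (P : Submodule O Q) (L : Submodule O N) (φ : P →ₗ[O] N ⧸ L) :
    (graph P L φ).map (LinearMap.fst O Q N) = P := by
  apply le_antisymm
  · rintro _ ⟨p, ⟨h, -⟩, rfl⟩
    exact h
  · intro x hx
    obtain ⟨y, -, hy⟩ := exists_mem_graph φ ⟨x, hx⟩
    exact ⟨_, hy, rfl⟩

theorem comap_inr_graph (P : Submodule O Q) (L : Submodule O N) (φ : P →ₗ[O] N ⧸ L) :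
    (graph P L φ).comap (LinearMap.inr O Q N) = L := by
  ext y
  have h0 : φ ⟨0, P.zero_mem⟩ = 0 := map_zero φ
  simp [mem_graph, h0]

theorem graph_injective (P : Submodule O Q) (L : Submodule O N) :
    Function.Injective (graph P L) := by
  intro φ ψ h
  ext x
  obtain ⟨y, hy, hm⟩ := exists_mem_graph φ x
  rw [h] at hm
  obtain ⟨_, h2⟩ := hm
  exact hy.symm.trans h2

theorem exists_graph (U : Submodule O (Q × N)) :
    ∃ φ, graph (U.map (LinearMap.fst O Q N)) (U.comap (LinearMap.inr O Q N)) φ = U := by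
  have h1 : ∀ x : U.map (LinearMap.fst O Q N), ∃ y, ((x : Q), y) ∈ U := by
    rintro ⟨_, ⟨x, y⟩, h, rfl⟩
    exact ⟨y, h⟩
  choose g hg using h1
  have key : ∀ (x : U.map (LinearMap.fst O Q N)) (y : N),
      (U.comap (LinearMap.inr O Q N)).mkQ y = (U.comap (LinearMap.inr O Q N)).mkQ (g x) ↔
        ((x : Q), y) ∈ U := by
    intro x y
    rw [Submodule.mkQ_apply, Submodule.mkQ_apply, Submodule.Quotient.eq, Submodule.mem_comap]
    constructor
    · intro h
      simpa using U.add_mem (hg x) h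
    · intro h
      simpa using U.sub_mem h (hg x)
  refine ⟨⟨⟨fun x => (U.comap (LinearMap.inr O Q N)).mkQ (g x), fun x y => ?_⟩, fun c x => ?_⟩, ?_⟩
  · rw [← map_add, eq_comm, key]
    exact U.add_mem (hg x) (hg y)
  · rw [RingHom.id_apply, ← map_smul, eq_comm, key]
    exact U.smul_mem c (hg x)
  · ext ⟨x, y⟩
    rw [mem_graph]
    constructor
    · rintro ⟨h, h2⟩
      exact (key ⟨x, h⟩ y).mp h2
    · intro h
      exact ⟨⟨_, h, rfl⟩, (key ⟨x, _, h, rfl⟩ y).mpr h⟩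

end graph

section alg

variable {O : Type} [CommRing O]

/-- Closedness under the product `(ξ, η) * (ξ', η') = (0, ξ η')`. -/
def Closed (U : Submodule O ((O × O) × (O × O))) : Prop :=
  ∀ u ∈ U, ∀ v ∈ U, ((0 : O × O), u.1 * v.2) ∈ U

/-- The transporter. -/
def transp (P L : Submodule O (O × O)) : Submodule O (O × O) where
  carrier := {η | ∀ ξ ∈ P, ξ * η ∈ L}
  add_mem' := fun ha hb ξ hξ => by
    rw [mul_add]
    exact L.add_mem (ha ξ hξ) (hb ξ hξ)
  zero_mem' := fun ξ _ => by simp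
  smul_mem' := fun c η h ξ hξ => by
    rw [mul_smul_comm]
    exact L.smul_mem c (h ξ hξ)

theorem closed_graph_iff (P L : Submodule O (O × O)) (φ : P →ₗ[O] (O × O) ⧸ L) :
    Closed (graph P L φ) ↔ L ≤ transp P L ∧ ∀ x, φ x ∈ (transp P L).map L.mkQ := by
  have h0 : ∀ η, ((0 : O × O), η) ∈ graph P L φ ↔ η ∈ L := fun η => by
    conv_rhs => rw [← comap_inr_graph P L φ]
    rfl
  constructor
  · intro h
    constructor
    · intro η hη ξ hξ
      obtain ⟨y, -, hy⟩ := exists_mem_graph φ ⟨ξ, hξ⟩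
      exact (h0 _).mp (h _ hy _ ((h0 η).mpr hη))
    · intro x
      obtain ⟨η, hη, hm⟩ := exists_mem_graph φ x
      refine ⟨η, fun ξ hξ => ?_, hη⟩
      obtain ⟨y, -, hy⟩ := exists_mem_graph φ ⟨ξ, hξ⟩
      exact (h0 _).mp (h _ hy _ hm)
  · rintro ⟨h1, h2⟩ u ⟨hu, -⟩ v ⟨hv, hv2⟩
    rw [h0]
    have : v.2 ∈ ((transp P L).map L.mkQ).comap L.mkQ := by
      rw [Submodule.mem_comap, hv2]
      exact h2 _
    rw [Submodule.comap_map_mkQ, sup_eq_right.mpr h1] at this
    exact this _ hu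

/-- Finite index submodules. -/
def FinIdx (O M : Type) [CommRing O] [AddCommGroup M] [Module O M] : Type :=
  {U : Submodule O M // U.toAddSubgroup.index ≠ 0}

/-- Subalgebras of finite index in the product model. -/
def SubAlg (O : Type) [CommRing O] : Type :=
  {U : Submodule O ((O × O) × (O × O)) // U.toAddSubgroup.index ≠ 0 ∧ Closed U}

/-- Projection and intersection. -/
def proj (U : SubAlg O) : FinIdx O (O × O) × FinIdx O (O × O) :=
  (⟨U.1.map (LinearMap.fst O _ _), left_ne_zero_of_mul (index_eq_mul U.1 ▸ U.2.1)⟩,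
    ⟨U.1.comap (LinearMap.inr O _ _), right_ne_zero_of_mul (index_eq_mul U.1 ▸ U.2.1)⟩)

/-- The fibres of `proj`. -/
noncomputable def fiberEquiv (P L : FinIdx O (O × O)) :
    {φ : P.1 →ₗ[O] (O × O) ⧸ L.1 // Closed (graph P.1 L.1 φ)} ≃ {U : SubAlg O // proj U = (P, L)} :=
  Equiv.ofBijective (fun φ => ⟨⟨graph P.1 L.1 φ.1, by
      rw [index_eq_mul, map_fst_graph, comap_inr_graph]
      exact mul_ne_zero P.2 L.2, φ.2⟩,
      Prod.ext (Subtype.ext (map_fst_graph _ _ _)) (Subtype.ext (comap_inr_graph _ _ _))⟩)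
    ⟨fun φ ψ h => Subtype.ext (graph_injective _ _ (congrArg (fun U => U.1.1) h)), by
      rintro ⟨U, h⟩
      obtain ⟨P, hP⟩ := P
      obtain ⟨L, hL⟩ := L
      have h1 : U.1.map (LinearMap.fst O _ _) = P := congrArg (fun x => x.1.1) h
      have h2 : U.1.comap (LinearMap.inr O _ _) = L := congrArg (fun x => x.2.1) h
      subst h1 h2
      obtain ⟨φ, hφ⟩ := exists_graph U.1
      exact ⟨⟨φ, by rw [hφ]; exact U.2.2⟩, Subtype.ext (Subtype.ext hφ)⟩⟩

/-- Homomorphisms from a free module of rank two with values in a submodule. -/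
noncomputable def homEquiv {P M : Type} [AddCommGroup P] [Module O P] [AddCommGroup M]
    [Module O M] (e : (O × O) ≃ₗ[O] P) (T : Submodule O M) :
    {φ : P →ₗ[O] M // ∀ x, φ x ∈ T} ≃ T × T where
  toFun φ := (⟨φ.1 (e (1, 0)), φ.2 _⟩, ⟨φ.1 (e (0, 1)), φ.2 _⟩)
  invFun t := ⟨T.subtype ∘ₗ ((LinearMap.toSpanSingleton O T t.1).coprod
    (LinearMap.toSpanSingleton O T t.2)) ∘ₗ e.symm.toLinearMap, fun x => Subtype.property _⟩
  left_inv φ := by
    refine Subtype.ext (LinearMap.ext fun x => ?_)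
    obtain ⟨⟨r, s⟩, rfl⟩ := e.surjective x
    have : e (r, s) = r • e (1, 0) + s • e (0, 1) := by
      rw [← map_smul, ← map_smul, ← map_add]
      simp
    conv_rhs => rw [this]
    simp
  right_inv t := by
    ext <;> simp

open Classical in
theorem card_fiber (P L : FinIdx O (O × O)) (e : (O × O) ≃ₗ[O] P.1) :
    Finite {U : SubAlg O // proj U = (P, L)} ∧ Nat.card {U : SubAlg O // proj U = (P, L)} =
      if L.1 ≤ transp P.1 L.1 then Nat.card ((transp P.1 L.1).map L.1.mkQ) ^ 2 else 0 := by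
  have hfin : Finite ((O × O) ⧸ L.1) := Nat.finite_of_card_ne_zero L.2
  by_cases h : L.1 ≤ transp P.1 L.1
  · have e2 := (fiberEquiv P L).symm.trans ((Equiv.subtypeEquivRight fun φ =>
      (closed_graph_iff P.1 L.1 φ).trans (and_iff_right h)).trans (homEquiv e _))
    rw [if_pos h, Nat.card_congr e2, Nat.card_prod, sq]
    exact ⟨Finite.of_equiv _ e2.symm, rfl⟩
  · have : IsEmpty {U : SubAlg O // proj U = (P, L)} :=
      ⟨fun U => h ((closed_graph_iff _ _ _).mp ((fiberEquiv P L).symm U).2).1⟩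
    rw [if_neg h]
    exact ⟨inferInstance, Nat.card_of_isEmpty⟩

end alg

end Pool.Agent.MP_f8bd42_al
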