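import Pool.Agent.MP_f8bd42_al.Sums

/-!
The generating function for the Lie rings `r2 + r2 + Z ^ m`.
-/

namespace Pool.Agent.MP_f8bd42_al

theorem hasSum_tel {X I : Type*} (μ : I → ℕ) (f : I → ℂ) (y : ℂ) (e : X → I × ℕ)
    (he : Function.Injective e) (h1 : ∀ x, (e x).2 < μ (e x).1)
    (h2 : ∀ p : I × ℕ, p.2 < μ p.1 → p ∈ Set.range e) {S S' : ℂ} (hS : HasSum f S)
    (hS' : HasSum (fun x => (y - 1) * y ^ (e x).2 * f (e x).1) S') :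
    HasSum (fun i => y ^ μ i * f i) (S + S') := by
  have h3 := hasSum_push e he (fun p => if p.2 < μ p.1 then (y - 1) * y ^ p.2 * f p.1 else 0)
    (fun p hp => if_neg fun h => hp (h2 p h)) μ (fun i k hk => if_neg (not_lt.mpr hk))
    (hasSum_of_eq hS' (fun x => if_pos (h1 x)) rfl)
  refine hasSum_of_eq (hS.add h3) (fun i => ?_) rfl
  rw [telescope y, add_mul, one_mul, Finset.sum_mul]
  congr 1
  exact Finset.sum_congr rfl fun j hj => (if_pos (Finset.mem_range.mp hj)).symm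

theorem geom {x : ℂ} (h : ‖x‖ < 1) : HasSum (fun n : ℕ => x ^ n) (1 - x)⁻¹ :=
  hasSum_geometric_of_norm_lt_one h

theorem hasSum_m2 {t u z : ℂ} (ht : ‖t‖ < 1) (hu : ‖u‖ < 1) (h : ‖z * t * u‖ < 1) :
    HasSum (fun v : ℕ × ℕ => z ^ min v.1 v.2 * (t ^ v.1 * u ^ v.2))
      ((1 - t)⁻¹ * (1 - u)⁻¹ + (z - 1) * t * u * ((1 - z * t * u)⁻¹ * ((1 - t)⁻¹ * (1 - u)⁻¹))) := by
  have h1 := hasSum_mul' (geom ht) (geom hu)
  refine hasSum_tel (fun v : ℕ × ℕ => min v.1 v.2) _ z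
    (fun x : ℕ × ℕ × ℕ => ((x.1 + 1 + x.2.1, x.1 + 1 + x.2.2), x.1)) ?_ ?_ ?_ h1
    (hasSum_of_eq ((hasSum_mul' (geom h) h1).mul_left ((z - 1) * t * u)) ?_ rfl)
  · rintro ⟨a, b, c⟩ ⟨a', b', c'⟩ h
    simp only [Prod.mk.injEq] at h ⊢
    omega
  · rintro ⟨a, b, c⟩
    simp only
    omega
  · rintro ⟨⟨a, b⟩, j⟩ hlt
    refine ⟨(j, a - (j + 1), b - (j + 1)), ?_⟩
    simp only [Prod.mk.injEq, and_true] at hlt ⊢
    omega
  · rintro ⟨j, a, b⟩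
    simp only
    ring

/-- Value of the triple sum with a minimum. -/
noncomputable def m3 (q a u : ℂ) : ℂ :=
  (1 - a)⁻¹ * ((1 - u)⁻¹ * (1 - u)⁻¹) +
    (q - 1) * a * u ^ 2 * ((1 - q * a * u ^ 2)⁻¹ * ((1 - a)⁻¹ * ((1 - u)⁻¹ * (1 - u)⁻¹)))

theorem hasSum_m3 {q a u : ℂ} (ha : ‖a‖ < 1) (hu : ‖u‖ < 1) (h : ‖q * a * u ^ 2‖ < 1) :
    HasSum (fun v : ℕ × ℕ × ℕ =>
      q ^ min v.1 (min v.2.1 v.2.2) * (a ^ v.1 * (u ^ v.2.1 * u ^ v.2.2))) (m3 q a u) := by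
  have h1 := hasSum_mul' (geom ha) (hasSum_mul' (geom hu) (geom hu))
  refine hasSum_tel (fun v : ℕ × ℕ × ℕ => min v.1 (min v.2.1 v.2.2)) _ q
    (fun x : ℕ × ℕ × ℕ × ℕ => ((x.1 + 1 + x.2.1, x.1 + 1 + x.2.2.1, x.1 + 1 + x.2.2.2), x.1))
    ?_ ?_ ?_ h1 (hasSum_of_eq ((hasSum_mul' (geom h) h1).mul_left ((q - 1) * a * u ^ 2)) ?_ rfl)
  · rintro ⟨a, b, c, d⟩ ⟨a', b', c', d'⟩ h
    simp only [Prod.mk.injEq] at h ⊢
    omega
  · rintro ⟨a, b, c, d⟩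
    simp only
    omega
  · rintro ⟨⟨a, b, c⟩, j⟩ hlt
    refine ⟨(j, a - (j + 1), b - (j + 1), c - (j + 1)), ?_⟩
    simp only [Prod.mk.injEq, and_true] at hlt ⊢
    omega
  · rintro ⟨j, a, b, c⟩
    simp only
    ring

section fam

variable {q y t u e : ℂ} (ht : ‖t‖ < 1) (hu : ‖u‖ < 1) (hr : ‖q * y * t * u‖ < 1)
  (ha : ‖q * e‖ < 1) (hb : ‖q * (q * e) * u ^ 2‖ < 1) (hc : ‖y * q * (q * e) * u ^ 3‖ < 1)

include hu ha hb hc in
/-- Variables: `Y, (A, C, W)`. -/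
theorem hasSum_lie1 :
    HasSum (fun v : ℕ × ℕ × ℕ × ℕ => y ^ min v.1 (min v.2.1 (min v.2.2.1 v.2.2.2)) *
      (u ^ v.1 * (q ^ min v.2.1 (min v.2.2.1 v.2.2.2) *
        ((q * e) ^ v.2.1 * (u ^ v.2.2.1 * u ^ v.2.2.2)))))
      ((1 - u)⁻¹ * m3 q (q * e) u + (y - 1) * q * (q * e) * u ^ 3 *
        ((1 - y * q * (q * e) * u ^ 3)⁻¹ * ((1 - u)⁻¹ * m3 q (q * e) u))) := by
  have h1 := hasSum_mul' (geom hu) (hasSum_m3 ha hu hb)
  refine hasSum_tel (fun v : ℕ × ℕ × ℕ × ℕ => min v.1 (min v.2.1 (min v.2.2.1 v.2.2.2))) _ y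
    (fun x : ℕ × ℕ × ℕ × ℕ × ℕ => ((x.1 + 1 + x.2.1, x.1 + 1 + x.2.2.1, x.1 + 1 + x.2.2.2.1,
      x.1 + 1 + x.2.2.2.2), x.1))
    ?_ ?_ ?_ h1
    (hasSum_of_eq ((hasSum_mul' (geom hc) h1).mul_left ((y - 1) * q * (q * e) * u ^ 3)) ?_ rfl)
  · rintro ⟨a, b, c, d, f⟩ ⟨a', b', c', d', f'⟩ h
    simp only [Prod.mk.injEq] at h ⊢
    omega
  · rintro ⟨a, b, c, d, f⟩
    simp only
    omega
  · rintro ⟨⟨a, b, c, d⟩, j⟩ hlt
    refine ⟨(j, a - (j + 1), b - (j + 1), c - (j + 1), d - (j + 1)), ?_⟩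
    simp only [Prod.mk.injEq, and_true] at hlt ⊢
    omega
  · rintro ⟨j, a, b, c, d⟩
    simp only
    rw [show min (j + 1 + b) (min (j + 1 + c) (j + 1 + d)) = j + 1 + min b (min c d) by omega]
    ring

/-- Value of the double sum with a minimum. -/
noncomputable def m2 (z t u : ℂ) : ℂ :=
  (1 - t)⁻¹ * (1 - u)⁻¹ + (z - 1) * t * u * ((1 - z * t * u)⁻¹ * ((1 - t)⁻¹ * (1 - u)⁻¹))

/-- Value of the first step for the second family. -/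
noncomputable def s2 (q y t u e : ℂ) : ℂ :=
  (1 - e) / (1 - q * e) * (m2 (q * y) t u * m2 (q * y) t u) +
    (q - 1) ^ 2 * e * u ^ 2 * ((1 - q * (q * e) * u ^ 2)⁻¹ * ((1 - q * e)⁻¹ *
      ((1 - q * y * t * u)⁻¹ * ((1 - u)⁻¹ * ((1 - q * y * t * u)⁻¹ * (1 - u)⁻¹)))))

include ht hu hr ha hb in
/-- Variables: `E, (X, C), (Z, W)`. -/
theorem hasSum_lie2a :
    HasSum (fun v : ℕ × (ℕ × ℕ) × (ℕ × ℕ) =>
      q ^ min v.1 (min (v.2.1.2 - v.2.1.1) (v.2.2.2 - v.2.2.1)) * (phiC q v.1 * e ^ v.1 *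
        ((q * y) ^ min v.2.1.1 v.2.1.2 * (t ^ v.2.1.1 * u ^ v.2.1.2) *
          ((q * y) ^ min v.2.2.1 v.2.2.2 * (t ^ v.2.2.1 * u ^ v.2.2.2))))) (s2 q y t u e) := by
  have k := hasSum_m2 ht hu hr
  have h1 := hasSum_mul' (hasSum_phiC ha) (hasSum_mul' k k)
  have h2 := hasSum_mul' (geom hb) (hasSum_mul' (geom ha) (hasSum_mul' (geom hr)
    (hasSum_mul' (geom hu) (hasSum_mul' (geom hr) (geom hu)))))
  refine hasSum_tel (fun v : ℕ × (ℕ × ℕ) × (ℕ × ℕ) =>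
      min v.1 (min (v.2.1.2 - v.2.1.1) (v.2.2.2 - v.2.2.1))) _ q
    (fun x : ℕ × ℕ × ℕ × ℕ × ℕ × ℕ => ((x.1 + x.2.1 + 1, (x.2.2.1, x.2.2.1 + x.1 + 1 + x.2.2.2.1),
      (x.2.2.2.2.1, x.2.2.2.2.1 + x.1 + 1 + x.2.2.2.2.2)), x.1))
    ?_ ?_ ?_ h1 (hasSum_of_eq (h2.mul_left ((q - 1) ^ 2 * e * u ^ 2)) ?_ rfl)
  · rintro ⟨a, b, c, d, f, g⟩ ⟨a', b', c', d', f', g'⟩ h
    simp only [Prod.mk.injEq] at h ⊢
    omega
  · rintro ⟨a, b, c, d, f, g⟩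
    simp only
    omega
  · rintro ⟨⟨E, ⟨X, C⟩, ⟨Z, W⟩⟩, j⟩ hlt
    refine ⟨(j, E - (j + 1), X, C - (X + j + 1), Z, W - (Z + j + 1)), ?_⟩
    simp only [Prod.mk.injEq, and_true, true_and] at hlt ⊢
    omega
  · rintro ⟨j, a, b, c, d, f⟩
    simp only
    rw [show min b (b + j + 1 + c) = b by omega, show min d (d + j + 1 + f) = d by omega]
    simp only [phiC]
    ring

include ht hu hr ha hb hc in
/-- Variables: `U, E, (X, C), (Z, W)`. -/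
theorem hasSum_lie2 (hqt : u = q * t) :
    HasSum (fun v : ℕ × ℕ × (ℕ × ℕ) × (ℕ × ℕ) =>
      y ^ min v.1 (min v.2.1 (min (v.2.2.1.2 - v.2.2.1.1) (v.2.2.2.2 - v.2.2.2.1))) *
      (phiC q v.1 * t ^ v.1 *
      (q ^ min v.2.1 (min (v.2.2.1.2 - v.2.2.1.1) (v.2.2.2.2 - v.2.2.2.1)) *
        (phiC q v.2.1 * e ^ v.2.1 *
        ((q * y) ^ min v.2.2.1.1 v.2.2.1.2 * (t ^ v.2.2.1.1 * u ^ v.2.2.1.2) *
          ((q * y) ^ min v.2.2.2.1 v.2.2.2.2 * (t ^ v.2.2.2.1 * u ^ v.2.2.2.2)))))))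
      ((1 - t) / (1 - q * t) * s2 q y t u e + (y - 1) * (q - 1) ^ 2 * q * e * t * u ^ 2 *
        ((1 - y * q * (q * e) * u ^ 3)⁻¹ * ((1 - u)⁻¹ * ((1 - q * y * t * u)⁻¹ *
          ((1 - q * y * t * u)⁻¹ * m3 q (q * e) u))))) := by
  have h1 := hasSum_mul' (hasSum_phiC (q := q) (x := t) (hqt ▸ hu)) (hasSum_lie2a ht hu hr ha hb)
  have h2 := hasSum_mul' (geom hc) (hasSum_mul' (geom hu) (hasSum_mul' (geom hr)
    (hasSum_mul' (geom hr) (hasSum_m3 ha hu hb))))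
  refine hasSum_tel (fun v : ℕ × ℕ × (ℕ × ℕ) × (ℕ × ℕ) =>
      min v.1 (min v.2.1 (min (v.2.2.1.2 - v.2.2.1.1) (v.2.2.2.2 - v.2.2.2.1)))) _ y
    (fun x : ℕ × ℕ × ℕ × ℕ × ℕ × ℕ × ℕ => ((x.1 + x.2.1 + 1, x.1 + x.2.2.2.2.1 + 1,
      (x.2.2.1, x.2.2.1 + x.1 + 1 + x.2.2.2.2.2.1),
      (x.2.2.2.1, x.2.2.2.1 + x.1 + 1 + x.2.2.2.2.2.2)), x.1))
    ?_ ?_ ?_ h1 (hasSum_of_eq (h2.mul_left ((y - 1) * (q - 1) ^ 2 * q * e * t * u ^ 2)) ?_ rfl)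
  · rintro ⟨a, b, c, d, f, g, i⟩ ⟨a', b', c', d', f', g', i'⟩ h
    simp only [Prod.mk.injEq] at h ⊢
    omega
  · rintro ⟨a, b, c, d, f, g, i⟩
    simp only
    omega
  · rintro ⟨⟨U, E, ⟨X, C⟩, ⟨Z, W⟩⟩, j⟩ hlt
    refine ⟨(j, U - (j + 1), X, Z, E - (j + 1), C - (X + j + 1), W - (Z + j + 1)), ?_⟩
    simp only [Prod.mk.injEq, and_true, true_and] at hlt ⊢
    omega
  · rintro ⟨j, U, X, Z, E, C, W⟩
    simp only
    rw [show min X (X + j + 1 + C) = X by omega, show min Z (Z + j + 1 + W) = Z by omega,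
      show min (j + E + 1) (min (X + j + 1 + C - X) (Z + j + 1 + W - Z)) =
        j + 1 + min E (min C W) by omega]
    simp only [phiC]
    rw [hqt]
    ring

end fam

/-- The exponent of the index of `P N + L`. -/
def cExp (A C D W V : ℕ) : ℕ := min A C + min D (min V (A - C + W))

theorem mExp_two (U E X C Z W : ℕ) : mExp (E + X) (E + Z + U) C (E + W) W (E + Z) =
    E + min X C + min Z W + min U (min E (min (C - X) (W - Z))) := by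
  unfold mExp
  rcases le_total X C with h | h <;> rcases le_total Z W with h' | h' <;>
    obtain ⟨c, rfl⟩ := Nat.exists_eq_add_of_le h <;> obtain ⟨d, rfl⟩ := Nat.exists_eq_add_of_le h'
  · rw [min_eq_left h, min_eq_left h', Nat.add_sub_cancel_left, Nat.add_sub_cancel_left]
    omega
  · rw [min_eq_left h, min_eq_right h', Nat.add_sub_cancel_left, Nat.sub_eq_zero_of_le h']
    omega
  · rw [min_eq_right h, min_eq_left h', Nat.sub_eq_zero_of_le h]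
    omega
  · rw [min_eq_right h, min_eq_right h', Nat.sub_eq_zero_of_le h]
    omega

theorem cExp_two (E X C Z W : ℕ) : cExp (E + X) C (E + W) W (E + Z) =
    E + min X C + min Z W + min E (min (C - X) (W - Z)) := by
  unfold cExp
  rcases le_total X C with h | h <;> omega

/-- Sum of a weight over the pairs of residues, first family. -/
noncomputable def termA (q : ℂ) (g : ℕ → ℕ → ℂ) (A B D W : ℕ) : ℂ :=
  if W ≤ D ∧ D - W ≤ B ∧ A < D - W then phiC q (D - W) * (q ^ (B - (D - W)) * g W A) else 0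

/-- Sum of a weight over the pairs of residues, second family. -/
noncomputable def termB (q : ℂ) (g : ℕ → ℕ → ℂ) (A B D W V : ℕ) : ℂ :=
  if W ≤ D ∧ D - W ≤ A ∧ D - W ≤ V ∧ V ≤ B then phiC q (D - W) * (phiC q (B - V) * g W V) else 0

/-- Sum of a weight over the pairs of residues. -/
noncomputable def countG (q : ℂ) (g : ℕ → ℕ → ℂ) (A B D : ℕ) : ℂ :=
  ∑ W ∈ Finset.range (D + 1),
    (termA q g A B D W + ∑ V ∈ Finset.range (B + 1), termB q g A B D W V)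

/-- The weight of a pair of lattices. -/
noncomputable def wt (q y : ℂ) (A B C D W V : ℕ) : ℂ :=
  y ^ mExp A B C D W V * (q ^ (C + D) * q ^ cExp A C D W V)

/-- The closed form, as a function of the factors `g a b = 1 - q ^ a t ^ b`. -/
noncomputable def core {K : Type*} [Field K] (m : ℕ) (q t : K) (g : ℕ → ℕ → K) : K :=
  -(g 1 0 * q * t ^ 2 * g (m + 5) 5 * g (m + 7) 6 * (g 2 2)⁻¹ * (g 1 1)⁻¹ ^ 3 *
      (g (m + 6) 5)⁻¹ * (g (m + 3) 3)⁻¹ * (g (2 * m + 7) 6)⁻¹) +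
    g (m + 2) 3 * g 1 2 ^ 2 * (g 0 1)⁻¹ * (g 1 1)⁻¹ ^ 3 * (g (m + 3) 3)⁻¹ * (g (m + 2) 2)⁻¹ ^ 2 +
    g 0 1 * g 1 0 ^ 2 * q ^ (m + 4) * t ^ 5 * (g 1 1)⁻¹ ^ 3 * (g (m + 6) 5)⁻¹ * (g (m + 3) 3)⁻¹ *
      (g (m + 2) 2)⁻¹ ^ 2 -
    g m 0 * g 1 0 ^ 2 * q ^ (m + 5) * t ^ 6 * g (m + 5) 5 * (g 1 1)⁻¹ ^ 3 * (g (m + 6) 5)⁻¹ *
      (g (m + 3) 3)⁻¹ * (g (2 * m + 7) 6)⁻¹ * (g (m + 2) 2)⁻¹ ^ 2

/-- The factors of the local zeta function. -/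
def om {K : Type*} [Field K] (q t : K) (a b : ℕ) : K := 1 - q ^ a * t ^ b

theorem one_sub_ne_of_norm {x : ℂ} (h : ‖x‖ < 1) : 1 - x ≠ 0 := by
  intro h0
  rw [← sub_eq_zero.mp h0] at h
  simp at h

theorem hasSum_countG (m : ℕ) {q t : ℂ}
    (hn : ∀ a b : ℕ, a ≤ (m + 2) * b → 0 < b → ‖q ^ a * t ^ b‖ < 1) :
    HasSum (fun v : ℕ × ℕ × ℕ × ℕ =>
      countG q (wt q (q ^ m) v.1 v.2.1 v.2.2.1 v.2.2.2) v.1 v.2.1 v.2.2.2 *
        t ^ (v.1 + v.2.1 + v.2.2.1 + v.2.2.2)) (core m q t (om q t)) := by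
  have n01 := hn 0 1 (by omega) (by omega)
  have n11 := hn 1 1 (by omega) (by omega)
  have n22 := hn 2 2 (by omega) (by omega)
  have nr := hn (m + 2) 2 (by omega) (by omega)
  have na := hn (m + 3) 3 (by omega) (by omega)
  have nb := hn (m + 6) 5 (by omega) (by omega)
  have nc := hn (2 * m + 7) 6 (by omega) (by omega)
  have ht : ‖t‖ < 1 := by simpa using n01
  have hu : ‖q * t‖ < 1 := by simpa only [pow_one] using n11
  have hu2 : ‖(q * t) ^ 2‖ < 1 := by rwa [mul_pow]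
  have er : q * q ^ m * t * (q * t) = q ^ (m + 2) * t ^ 2 := by ring
  have ea : q * (q ^ (m + 2) * t ^ 3) = q ^ (m + 3) * t ^ 3 := by ring
  have eb : q * (q * (q ^ (m + 2) * t ^ 3)) * (q * t) ^ 2 = q ^ (m + 6) * t ^ 5 := by ring
  have ec : q ^ m * q * (q * (q ^ (m + 2) * t ^ 3)) * (q * t) ^ 3 = q ^ (2 * m + 7) * t ^ 6 := by
    ring
  have F1 := (hasSum_mul' (geom hu2) (hasSum_lie1 (y := q ^ m) (e := q ^ (m + 2) * t ^ 3) hu
    (ea ▸ na) (eb ▸ nb) (ec ▸ nc))).mul_left ((q - 1) * q * t ^ 2)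
  have F2 := hasSum_lie2 (y := q ^ m) (e := q ^ (m + 2) * t ^ 3) ht hu (er ▸ nr)
    (ea ▸ na) (eb ▸ nb) (ec ▸ nc) rfl
  have f1 := hasSum_push (I := ℕ × ℕ × ℕ × ℕ)
    (fun x : ℕ × ℕ × ℕ × ℕ × ℕ =>
      ((x.2.2.1, x.2.1 + x.2.2.1 + x.1 + 1, x.2.2.2.1, x.2.2.1 + x.1 + 1 + x.2.2.2.2), x.2.2.2.2))
    (by
      rintro ⟨a, b, c, d, e⟩ ⟨a', b', c', d', e'⟩ h
      simp only [Prod.mk.injEq] at h ⊢
      omega)
    (fun x => termA q (wt q (q ^ m) x.1.1 x.1.2.1 x.1.2.2.1 x.1.2.2.2) x.1.1 x.1.2.1 x.1.2.2.2 x.2 *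
      t ^ (x.1.1 + x.1.2.1 + x.1.2.2.1 + x.1.2.2.2))
    (by
      rintro ⟨⟨A, B, C, D⟩, W⟩ hy
      simp only [termA]
      split_ifs with h
      · refine absurd ⟨(D - W - (A + 1), B - (D - W), A, C, W), ?_⟩ hy
        simp only [Prod.mk.injEq, and_true, true_and]
        omega
      · simp)
    (fun i => i.2.2.2 + 1)
    (fun i k hk => by simp only [termA]; rw [if_neg (by omega), zero_mul])
    (hasSum_of_eq F1 (by
      rintro ⟨X, Y, A, C, W⟩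
      simp only [Function.comp, termA, wt]
      rw [if_pos (by omega), show A + X + 1 + W - W = A + X + 1 by omega,
        show Y + A + X + 1 - (A + X + 1) = Y by omega,
        show mExp A (Y + A + X + 1) C (A + X + 1 + W) W A = A + min Y (min A (min C W)) by
          unfold mExp; omega,
        show cExp A C (A + X + 1 + W) W A = A + min A (min C W) by unfold cExp; omega]
      simp only [phiC]
      ring) rfl)
  have f2 := hasSum_push (I := (ℕ × ℕ × ℕ × ℕ) × ℕ)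
    (fun x : ℕ × ℕ × (ℕ × ℕ) × (ℕ × ℕ) =>
      (((x.2.1 + x.2.2.1.1, x.2.1 + x.2.2.2.1 + x.1, x.2.2.1.2, x.2.1 + x.2.2.2.2), x.2.2.2.2),
        x.2.1 + x.2.2.2.1))
    (by
      rintro ⟨a, b, ⟨c, d⟩, ⟨e, f⟩⟩ ⟨a', b', ⟨c', d'⟩, ⟨e', f'⟩⟩ h
      simp only [Prod.mk.injEq] at h ⊢
      omega)
    (fun x => termB q (wt q (q ^ m) x.1.1.1 x.1.1.2.1 x.1.1.2.2.1 x.1.1.2.2.2) x.1.1.1 x.1.1.2.1
      x.1.1.2.2.2 x.1.2 x.2 * t ^ (x.1.1.1 + x.1.1.2.1 + x.1.1.2.2.1 + x.1.1.2.2.2))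
    (by
      rintro ⟨⟨⟨A, B, C, D⟩, W⟩, V⟩ hy
      simp only [termB]
      split_ifs with h
      · refine absurd ⟨(B - V, D - W, (A - (D - W), C), (V - (D - W), W)), ?_⟩ hy
        simp only [Prod.mk.injEq, and_true, true_and]
        omega
      · simp)
    (fun i => i.1.2.1 + 1)
    (fun i k hk => by simp only [termB]; rw [if_neg (by omega), zero_mul])
    (hasSum_of_eq F2 (by
      rintro ⟨U, E, ⟨X, C⟩, ⟨Z, W⟩⟩
      simp only [Function.comp, termB, wt]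
      rw [if_pos (by omega), show E + W - W = E by omega,
        show E + Z + U - (E + Z) = U by omega,
        mExp_two, cExp_two]
      ring) rfl)
  have f3 := hasSum_push (I := ℕ × ℕ × ℕ × ℕ) id Function.injective_id
    (fun x => ∑ V ∈ Finset.range (x.1.2.1 + 1),
      termB q (wt q (q ^ m) x.1.1 x.1.2.1 x.1.2.2.1 x.1.2.2.2) x.1.1 x.1.2.1 x.1.2.2.2 x.2 V *
        t ^ (x.1.1 + x.1.2.1 + x.1.2.2.1 + x.1.2.2.2)) (by simp)
    (fun i => i.2.2.2 + 1)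
    (fun i k hk => Finset.sum_eq_zero fun V _ => by
      simp only [termB]; rw [if_neg (by omega), zero_mul]) f2
  refine hasSum_of_eq (f1.add f3) ?_ ?_
  · rintro ⟨A, B, C, D⟩
    simp only [countG, Finset.sum_add_distrib, add_mul, Finset.sum_mul]
  · have z1 := one_sub_ne_of_norm ht
    have z2 := one_sub_ne_of_norm hu
    have zr := one_sub_ne_of_norm nr
    have za := one_sub_ne_of_norm na
    have zb := one_sub_ne_of_norm nb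
    have zc := one_sub_ne_of_norm nc
    have e2 : m2 (q * q ^ m) t (q * t) =
        (1 - q * t ^ 2) * ((1 - q ^ (m + 2) * t ^ 2)⁻¹ * ((1 - t)⁻¹ * (1 - q * t)⁻¹)) := by
      rw [m2, er]
      linear_combination (-((1 - t)⁻¹ * (1 - q * t)⁻¹)) * mul_inv_cancel₀ zr
    have e3 : m3 q (q * (q ^ (m + 2) * t ^ 3)) (q * t) = (1 - q ^ (m + 5) * t ^ 5) *
        ((1 - q ^ (m + 6) * t ^ 5)⁻¹ * ((1 - q ^ (m + 3) * t ^ 3)⁻¹ *
          ((1 - q * t)⁻¹ * (1 - q * t)⁻¹))) := by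
      rw [m3, eb, ea]
      linear_combination (-((1 - q ^ (m + 3) * t ^ 3)⁻¹ * ((1 - q * t)⁻¹ * (1 - q * t)⁻¹))) *
        mul_inv_cancel₀ zb
    simp only [core, om, s2, e2, e3, eb, ec, er, pow_zero, pow_one, mul_one, one_mul,
      div_eq_mul_inv]
    rw [ea, mul_pow q t 2]
    have i1 := mul_inv_cancel₀ z1
    have ic := mul_inv_cancel₀ zc
    generalize (1 - t)⁻¹ = g1 at i1 ⊢
    generalize (1 - q ^ (2 * m + 7) * t ^ 6)⁻¹ = gc at ic ⊢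
    generalize (1 - q * t)⁻¹ = g2
    generalize (1 - q ^ 2 * t ^ 2)⁻¹ = g3
    generalize (1 - q ^ (m + 2) * t ^ 2)⁻¹ = gr
    generalize (1 - q ^ (m + 3) * t ^ 3)⁻¹ = ga
    generalize (1 - q ^ (m + 6) * t ^ 5)⁻¹ = gb
    linear_combination
      ((q - 1) * q * t ^ 2 * g3 * g2 ^ 3 * (1 - q ^ (m + 5) * t ^ 5) * gb * ga) * ic -
      ((1 - q ^ (m + 2) * t ^ 3) * (1 - q * t ^ 2) ^ 2 * g1 * g2 ^ 3 * ga * gr ^ 2) * i1

end Pool.Agent.MP_f8bd42_al
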