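import Pool.Agent.MP_f8bd42_al.Count
import Pool.Agent.MP_f8bd42_al.Lie1

/-!
Counting the subalgebras of the Lie rings `r2 + r2 + Z ^ m` over a discrete valuation ring.
-/

namespace Pool.Agent.MP_f8bd42_al

section goursat

variable {O Q N : Type} [CommRing O] [AddCommGroup Q] [Module O Q] [AddCommGroup N] [Module O N]

/-- Projection to the first factor. -/
def pr1 (U : FinIdx O (Q × N)) : FinIdx O Q :=
  ⟨U.1.map (LinearMap.fst O _ _), left_ne_zero_of_mul (index_eq_mul U.1 ▸ U.2)⟩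

/-- Intersection with the second factor. -/
def pr2 (U : FinIdx O (Q × N)) : FinIdx O N :=
  ⟨U.1.comap (LinearMap.inr O _ _), right_ne_zero_of_mul (index_eq_mul U.1 ▸ U.2)⟩

theorem hasSum_goursat {ι : Type} (C : ι → Submodule O (Q × N) → Prop)
    (g : ι × FinIdx O Q × FinIdx O N → ℂ) (n : ι × FinIdx O Q × FinIdx O N → ℕ)
    (hfin : ∀ (P : FinIdx O Q) (L : FinIdx O N), Finite (P.1 →ₗ[O] N ⧸ L.1))
    (hn : ∀ i P L, Nat.card {φ : P.1 →ₗ[O] N ⧸ L.1 // C i (graph P.1 L.1 φ)} = n (i, P, L))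
    {S : ℂ} (hS : HasSum (fun x => (n x : ℂ) * g x) S) :
    HasSum (fun x : {x : ι × FinIdx O (Q × N) // C x.1 x.2.1} =>
      g (x.1.1, pr1 x.1.2, pr2 x.1.2)) S := by
  have e : ∀ i (P : FinIdx O Q) (L : FinIdx O N),
      Nonempty ({φ : P.1 →ₗ[O] N ⧸ L.1 // C i (graph P.1 L.1 φ)} ≃
        {x : {x : ι × FinIdx O (Q × N) // C x.1 x.2.1} //
          (x.1.1, pr1 x.1.2, pr2 x.1.2) = (i, P, L)}) := by
    intro i P L
    refine ⟨Equiv.ofBijective (fun φ => ⟨⟨(i, ⟨graph P.1 L.1 φ.1, by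
      rw [index_eq_mul, map_fst_graph, comap_inr_graph]
      exact mul_ne_zero P.2 L.2⟩), φ.2⟩, Prod.ext rfl
      (Prod.ext (Subtype.ext (map_fst_graph _ _ _)) (Subtype.ext (comap_inr_graph _ _ _)))⟩)
      ⟨fun φ ψ h => Subtype.ext (graph_injective _ _ (congrArg (fun U => U.1.1.2.1) h)), ?_⟩⟩
    rintro ⟨⟨⟨j, U⟩, hU⟩, h⟩
    obtain ⟨P, hP⟩ := P
    obtain ⟨L, hL⟩ := L
    have h0 : j = i := congrArg (fun x => x.1) h
    have h1 : U.1.map (LinearMap.fst O _ _) = P := congrArg (fun x => x.2.1.1) h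
    have h2 : U.1.comap (LinearMap.inr O _ _) = L := congrArg (fun x => x.2.2.1) h
    subst h0 h1 h2
    obtain ⟨φ, hφ⟩ := exists_graph U.1
    exact ⟨⟨φ, by rw [hφ]; exact hU⟩,
      Subtype.ext (Subtype.ext (Prod.ext rfl (Subtype.ext hφ)))⟩
  refine hasSum_fiber (fun x : {x : ι × FinIdx O (Q × N) // C x.1 x.2.1} =>
    (x.1.1, pr1 x.1.2, pr2 x.1.2)) g n ?_ ?_ hS
  · rintro ⟨i, P, L⟩
    have := hfin P L
    exact Finite.of_equiv _ (e i P L).some
  · rintro ⟨i, P, L⟩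
    rw [← hn, Nat.card_congr (e i P L).some]

theorem hasSum_goursat0 (C : Submodule O (Q × N) → Prop) (τ : ℕ →* ℂ)
    (n : FinIdx O Q × FinIdx O N → ℕ)
    (hfin : ∀ (P : FinIdx O Q) (L : FinIdx O N), Finite (P.1 →ₗ[O] N ⧸ L.1))
    (hn : ∀ P L, Nat.card {φ : P.1 →ₗ[O] N ⧸ L.1 // C (graph P.1 L.1 φ)} = n (P, L))
    {S : ℂ} (hS : HasSum (fun x => (n x : ℂ) *
      (τ x.1.1.toAddSubgroup.index * τ x.2.1.toAddSubgroup.index)) S) :
    HasSum (fun U : {U : Submodule O (Q × N) // U.toAddSubgroup.index ≠ 0 ∧ C U} =>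
      τ U.1.toAddSubgroup.index) S := by
  have h := hasSum_goursat (ι := Unit) (fun _ => C)
    (fun x => τ x.2.1.1.toAddSubgroup.index * τ x.2.2.1.toAddSubgroup.index) (fun x => n x.2) hfin
    (fun _ => hn) ((Equiv.punitProd _).hasSum_iff.mpr hS)
  let e : {U : Submodule O (Q × N) // U.toAddSubgroup.index ≠ 0 ∧ C U} ≃
      {x : Unit × FinIdx O (Q × N) // C x.2.1} :=
    ⟨fun U => ⟨((), ⟨U.1, U.2.1⟩), U.2.2⟩, fun x => ⟨x.1.2.1, x.1.2.2, x.2⟩, fun _ => rfl,
      fun _ => rfl⟩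
  refine hasSum_of_eq (e.hasSum_iff.mpr h) (fun U => ?_) rfl
  rw [index_eq_mul, map_mul]
  rfl

theorem index_comap_equiv (e : Q ≃ₗ[O] N) (U : Submodule O N) :
    (U.comap e.toLinearMap).toAddSubgroup.index = U.toAddSubgroup.index :=
  AddSubgroup.index_comap_of_surjective U.toAddSubgroup
    (f := e.toLinearMap.toAddMonoidHom) e.surjective

theorem hasSum_transfer (e : Q ≃ₗ[O] N) (p : Submodule O Q → Prop) (p' : Submodule O N → Prop)
    (h : ∀ U, p' U ↔ p (U.comap e.toLinearMap)) (τ : ℕ → ℂ) {S : ℂ}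
    (hS : HasSum (fun U : {U // p' U} => τ U.1.toAddSubgroup.index) S) :
    HasSum (fun U : {U // p U} => τ U.1.toAddSubgroup.index) S := by
  rw [← (Equiv.subtypeEquiv (Submodule.orderIsoMapComap e).symm.toEquiv h).hasSum_iff]
  exact hasSum_of_eq hS (fun U => congrArg τ (index_comap_equiv e U.1)) rfl

theorem card_hom_into {k : ℕ} (b : Module.Basis (Fin k) O Q) (T : Submodule O N) :
    Nat.card {φ : Q →ₗ[O] N // ∀ x, φ x ∈ T} = Nat.card T ^ k := by
  let e : {φ : Q →ₗ[O] N // ∀ x, φ x ∈ T} ≃ (Q →ₗ[O] T) :=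
    ⟨fun φ => φ.1.codRestrict T φ.2, fun ψ => ⟨T.subtype ∘ₗ ψ, fun x => (ψ x).2⟩, fun _ => rfl,
      fun _ => rfl⟩
  rw [Nat.card_congr (e.trans (b.constr O).symm.toEquiv), Nat.card_fun]
  simp

/-- Homomorphisms from a free module of rank two. -/
noncomputable def hom2 (e : (O × O) ≃ₗ[O] Q) : (Q →ₗ[O] N) ≃ N × N where
  toFun φ := (φ (e (1, 0)), φ (e (0, 1)))
  invFun t := ((LinearMap.toSpanSingleton O N t.1).coprod
    (LinearMap.toSpanSingleton O N t.2)) ∘ₗ e.symm.toLinearMap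
  left_inv φ := by
    refine LinearMap.ext fun x => ?_
    obtain ⟨⟨r, s⟩, rfl⟩ := e.surjective x
    have : e (r, s) = r • e (1, 0) + s • e (0, 1) := by
      rw [← map_smul, ← map_smul, ← map_add]
      simp
    conv_rhs => rw [this]
    simp
  right_inv t := by
    ext <;> simp

end goursat

section lie

variable {O A : Type} [CommRing O] [AddCommGroup A] [Module O A]

/-- Closedness under the bracket. -/
def LieClosed (U : Submodule O ((O × O) × (A × (O × O)))) : Prop :=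
  ∀ u ∈ U, ∀ v ∈ U, ((0 : O × O), ((0 : A), u.1 * v.2.2 - v.1 * u.2.2)) ∈ U

/-- Stability of `M` under `P`. -/
def Cond (P : Submodule O (O × O)) (M : Submodule O (A × (O × O))) : Prop :=
  ∀ x ∈ P, ∀ b ∈ M, ((0 : A), x * b.2) ∈ M

theorem inr_mem_graph {Q N : Type} [AddCommGroup Q] [Module O Q] [AddCommGroup N] [Module O N]
    {P : Submodule O Q} {L : Submodule O N} (φ : P →ₗ[O] N ⧸ L) (η : N) :
    ((0 : Q), η) ∈ graph P L φ ↔ η ∈ L := by
  conv_rhs => rw [← comap_inr_graph P L φ]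
  rfl

theorem cond_graph_iff (P L : Submodule O (O × O)) (P0 : Submodule O A)
    (ψ : P0 →ₗ[O] (O × O) ⧸ L) :
    Cond P (graph P0 L ψ) ↔ L ≤ transp P L ∧ ∀ x, ψ x ∈ (transp P L).map L.mkQ := by
  constructor
  · intro h
    constructor
    · intro η hη ξ hξ
      exact (inr_mem_graph ψ _).mp (h _ hξ _ ((inr_mem_graph ψ η).mpr hη))
    · intro x
      obtain ⟨η, hη, hm⟩ := exists_mem_graph ψ x
      exact ⟨η, fun ξ hξ => (inr_mem_graph ψ _).mp (h _ hξ _ hm), hη⟩
  · rintro ⟨h1, h2⟩ u hu v ⟨hv, hv2⟩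
    rw [inr_mem_graph]
    have : v.2 ∈ ((transp P L).map L.mkQ).comap L.mkQ := by
      rw [Submodule.mem_comap, hv2]
      exact h2 _
    rw [Submodule.comap_map_mkQ, sup_eq_right.mpr h1] at this
    exact this _ hu

/-- The bracket of two generators. -/
def gam (A : Type) [AddCommGroup A] [Module O A] (x y : O × O) :
    (A × (O × O)) × (A × (O × O)) →ₗ[O] O × O :=
  LinearMap.mulLeft O x ∘ₗ LinearMap.snd O _ _ ∘ₗ LinearMap.snd O _ _ -
    LinearMap.mulLeft O y ∘ₗ LinearMap.snd O _ _ ∘ₗ LinearMap.fst O _ _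

theorem gam_apply (x y : O × O) (p : (A × (O × O)) × (A × (O × O))) :
    gam A x y p = x * p.2.2 - y * p.1.2 := rfl

theorem lieClosed_graph_iff {P : Submodule O (O × O)} (M : Submodule O (A × (O × O)))
    (e : (O × O) ≃ₗ[O] P) (φ : P →ₗ[O] (A × (O × O)) ⧸ M) :
    LieClosed (graph P M φ) ↔ Cond P M ∧ hom2 e φ ∈
      ((M.comap (LinearMap.inr O _ _)).comap (gam A (e (1, 0)) (e (0, 1)))).map
        (M.mkQ.prodMap M.mkQ) := by
  constructor
  · intro h
    constructor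
    · intro x hx b hb
      obtain ⟨y, -, hy⟩ := exists_mem_graph φ ⟨x, hx⟩
      simpa using (inr_mem_graph φ _).mp (h _ hy _ ((inr_mem_graph φ b).mpr hb))
    · obtain ⟨a, ha, ha'⟩ := exists_mem_graph φ (e (1, 0))
      obtain ⟨b, hb, hb'⟩ := exists_mem_graph φ (e (0, 1))
      exact ⟨(a, b), (inr_mem_graph φ _).mp (h _ ha' _ hb'), Prod.ext ha hb⟩
  · rintro ⟨hc, ⟨a, b⟩, hab, h2⟩
    have ha : M.mkQ a = φ (e (1, 0)) := congrArg Prod.fst h2
    have hb : M.mkQ b = φ (e (0, 1)) := congrArg Prod.snd h2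
    have key : ∀ u ∈ graph P M φ, ∃ r s : O, u.1 = r • (e (1, 0) : O × O) + s • (e (0, 1) : O × O) ∧
        u.2 - (r • a + s • b) ∈ M := by
      rintro u ⟨hu, hu2⟩
      obtain ⟨⟨r, s⟩, h⟩ := e.surjective ⟨u.1, hu⟩
      have h3 : e (r, s) = r • e (1, 0) + s • e (0, 1) := by
        rw [← map_smul, ← map_smul, ← map_add]
        simp
      refine ⟨r, s, (congrArg Subtype.val (h.symm.trans h3) :), ?_⟩
      rw [← Submodule.Quotient.eq, ← Submodule.mkQ_apply, ← Submodule.mkQ_apply, hu2, ← h, h3]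
      simp only [map_add, map_smul, ha, hb]
    intro u hu v hv
    obtain ⟨r, s, h1, h2⟩ := key u hu
    obtain ⟨r', s', h3, h4⟩ := key v hv
    rw [inr_mem_graph]
    have hab' : ((0 : A), (e (1, 0) : O × O) * b.2 - (e (0, 1) : O × O) * a.2) ∈ M := hab
    have := M.add_mem (M.sub_mem (hc _ hu.1 _ h4) (hc _ hv.1 _ h2))
      (M.smul_mem (r * s' - r' * s) hab')
    convert this using 1
    rw [h1, h3]
    ext <;> simp <;> ring

theorem range_gam {P : Submodule O (O × O)} (e : (O × O) ≃ₗ[O] P) :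
    LinearMap.range (gam A (e (1, 0) : O × O) (e (0, 1))) = P * ⊤ := by
  apply le_antisymm
  · rintro _ ⟨p, rfl⟩
    exact Submodule.sub_mem _ (Submodule.mul_mem_mul (e _).2 trivial)
      (Submodule.mul_mem_mul (e _).2 trivial)
  · refine Submodule.mul_le.mpr fun x hx η _ => ?_
    obtain ⟨⟨r, s⟩, h⟩ := e.surjective ⟨x, hx⟩
    have h3 : e (r, s) = r • e (1, 0) + s • e (0, 1) := by
      rw [← map_smul, ← map_smul, ← map_add]
      simp
    have h4 : x = r • (e (1, 0) : O × O) + s • (e (0, 1) : O × O) :=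
      congrArg Subtype.val (h.symm.trans h3)
    refine ⟨((0, -(s • η)), (0, r • η)), ?_⟩
    rw [gam_apply, h4]
    ext <;> simp <;> ring

open Classical in
theorem card_lieClosed {P : Submodule O (O × O)} (M : FinIdx O (A × (O × O)))
    (e : (O × O) ≃ₗ[O] P) :
    Nat.card {φ : P →ₗ[O] (A × (O × O)) ⧸ M.1 // LieClosed (graph P M.1 φ)} =
      if Cond P M.1 then (pr1 M).1.toAddSubgroup.index ^ 2 *
        ((pr2 M).1.toAddSubgroup.index * (P * ⊤ ⊔ (pr2 M).1).toAddSubgroup.index) else 0 := by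
  by_cases h : Cond P M.1
  · rw [if_pos h, Nat.card_congr (Equiv.subtypeEquiv (hom2 e) fun φ =>
      (lieClosed_graph_iff M.1 e φ).trans (and_iff_right h))]
    set S := ((pr2 M).1.comap (gam A (e (1, 0) : O × O) (e (0, 1)))) with hS
    have h1 := (S.map (M.1.mkQ.prodMap M.1.mkQ)).toAddSubgroup.card_mul_index
    have h2 : (S.map (M.1.mkQ.prodMap M.1.mkQ)).toAddSubgroup.index = S.toAddSubgroup.index :=
      AddSubgroup.index_map_eq (f := (M.1.mkQ.prodMap M.1.mkQ).toAddMonoidHom) S.toAddSubgroup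
        (M.1.mkQ_surjective.prodMap M.1.mkQ_surjective) fun x hx => by
          have h3 : x.1 ∈ M.1 := (Submodule.Quotient.mk_eq_zero _).mp (congrArg Prod.fst hx)
          have h4 : x.2 ∈ M.1 := (Submodule.Quotient.mk_eq_zero _).mp (congrArg Prod.snd hx)
          have := M.1.sub_mem (h _ (e (1, 0)).2 _ h4) (h _ (e (0, 1)).2 _ h3)
          rw [Prod.mk_sub_mk, sub_zero] at this
          exact this
    have h3 : S.toAddSubgroup.index * (P * ⊤ ⊔ (pr2 M).1).toAddSubgroup.index =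
        (pr2 M).1.toAddSubgroup.index := by
      rw [← AddSubgroup.relIndex_mul_index (H := (pr2 M).1.toAddSubgroup)
        (K := (P * ⊤ ⊔ (pr2 M).1).toAddSubgroup) (Submodule.toAddSubgroup_le _ _ |>.mpr le_sup_right),
        Submodule.sup_toAddSubgroup, AddSubgroup.relIndex_sup_right, ← range_gam (A := A) e]
      congr 1
      exact AddSubgroup.index_comap (pr2 M).1.toAddSubgroup
        (gam A (e (1, 0) : O × O) (e (0, 1))).toAddMonoidHom
    have h4 : Nat.card ((A × (O × O)) ⧸ M.1) =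
        (pr1 M).1.toAddSubgroup.index * (pr2 M).1.toAddSubgroup.index := index_eq_mul M.1
    rw [h2, Nat.card_prod, h4] at h1
    refine Nat.eq_of_mul_eq_mul_right (Nat.pos_of_ne_zero (pr2 M).2) ?_
    have h5 : Nat.card (S.map (M.1.mkQ.prodMap M.1.mkQ)) * S.toAddSubgroup.index = _ := h1
    change Nat.card (S.map (M.1.mkQ.prodMap M.1.mkQ)) * _ = _
    conv_lhs => rw [← h3, ← mul_assoc, h5]
    ring
  · have : IsEmpty {φ : P →ₗ[O] (A × (O × O)) ⧸ M.1 // LieClosed (graph P M.1 φ)} :=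
      ⟨fun φ => h ((lieClosed_graph_iff M.1 e φ.1).mp φ.2).1⟩
    rw [if_neg h]
    exact Nat.card_of_isEmpty

end lie

variable {O : Type} [CommRing O] [IsDomain O] [IsDiscreteValuationRing O] {ϖ : O} {q : ℕ}

theorem exists_basis (hϖ : Irreducible ϖ) {M : Type} [AddCommGroup M] [Module O M]
    [Module.Free O M] [Module.Finite O M] (P : FinIdx O M) :
    Nonempty (Module.Basis (Fin (Module.finrank O M)) O P.1) := by
  have : Infinite O := Infinite.of_injective (fun n : ℕ => ϖ ^ n) fun a b hab =>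
    span_pow_inj hϖ (by simp only at hab; rw [hab])
  have hfin : Finite (M ⧸ P.1) := Nat.finite_of_card_ne_zero P.2
  have h1 : Module.finrank O (M ⧸ P.1) = 0 := by
    refine Module.IsTorsion.finrank_eq_zero fun x => ?_
    obtain ⟨a, b, hab, h⟩ := Finite.exists_ne_map_eq_of_infinite fun a : O => a • x
    refine ⟨⟨a - b, mem_nonZeroDivisors_of_ne_zero (sub_ne_zero.mpr hab)⟩, ?_⟩
    change (a - b) • x = 0
    rw [sub_smul, h, sub_self]
  have h2 := P.1.finrank_quotient_add_finrank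
  rw [h1, zero_add] at h2
  exact ⟨Module.finBasisOfFinrankEq O P.1 h2⟩

theorem finite_hom (hϖ : Irreducible ϖ) {M N : Type} [AddCommGroup M] [Module O M]
    [Module.Free O M] [Module.Finite O M] [AddCommGroup N] [Module O N] (P : FinIdx O M)
    (L : FinIdx O N) : Finite (P.1 →ₗ[O] N ⧸ L.1) := by
  have hfin : Finite (N ⧸ L.1) := Nat.finite_of_card_ne_zero L.2
  exact Finite.of_equiv _ ((exists_basis hϖ P).some.constr O).toEquiv

theorem hasSum_ab (hϖ : Irreducible ϖ) (hq : Nat.card (O ⧸ Ideal.span {ϖ}) = q) (hq0 : q ≠ 0)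
    (m : ℕ) : ∀ τ : ℕ →* ℂ, (∀ i < m, ‖(q : ℂ) ^ i * τ q‖ < 1) →
    HasSum (fun U : FinIdx O (Fin m → O) => τ U.1.toAddSubgroup.index)
      (∏ i ∈ Finset.range m, (1 - (q : ℂ) ^ i * τ q)⁻¹) := by
  induction m with
  | zero =>
    intro τ _
    have := hasSum_single (f := fun U : FinIdx O (Fin 0 → O) => τ U.1.toAddSubgroup.index)
      ⟨⊤, by simp⟩ fun b hb => absurd (Subtype.ext (Subsingleton.elim _ _)) hb
    simpa using this
  | succ m ih =>
    intro τ hτ
    have h1 : HasSum (fun U : FinIdx O O => τ U.1.toAddSubgroup.index) (1 - τ q)⁻¹ := by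
      refine (Equiv.ofBijective (β := FinIdx O O) (fun n : ℕ => ⟨Ideal.span {ϖ ^ n}, by
        rw [index_span_pow hϖ hq]; exact pow_ne_zero _ hq0⟩)
        ⟨fun a b h => span_pow_inj hϖ (congrArg Subtype.val h), fun U =>
          (exists_span_pow hϖ U.1 U.2).imp fun n h => Subtype.ext h.symm⟩).hasSum_iff.mp ?_
      refine hasSum_of_eq (geom (by simpa using hτ 0 (by omega))) (fun n => ?_) rfl
      simp only [Function.comp, Equiv.ofBijective_apply]
      rw [index_span_pow hϖ hq, map_pow]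
    have h2 := ih ((Nat.castRingHom ℂ).toMonoidHom * τ) fun i hi => by
      have := hτ (i + 1) (by omega)
      rwa [pow_succ, mul_assoc] at this
    refine hasSum_transfer (Fin.consLinearEquiv O fun _ : Fin (m + 1) => O).symm _
      (fun U => U.toAddSubgroup.index ≠ 0 ∧ True)
      (fun U => by rw [index_comap_equiv, and_true]) τ ?_
    refine hasSum_goursat0 (fun _ => True) τ (fun x => x.2.1.toAddSubgroup.index)
      (finite_hom hϖ) (fun P L => ?_) (hasSum_of_eq (hasSum_mul' h1 h2) (fun x => ?_) ?_)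
    · have b := (exists_basis hϖ P).some
      rw [Nat.card_congr ((Equiv.subtypeUnivEquiv fun _ => trivial).trans
        (b.constr O).symm.toEquiv), Nat.card_fun]
      simp
      rfl
    · simp
      ring
    · rw [Finset.prod_range_succ', mul_comm]
      simp [pow_succ, mul_assoc]

theorem mul_top_sup_lat (hϖ : Irreducible ϖ) (A B C D : ℕ) (α w : O) :
    lat ϖ A B α * ⊤ ⊔ lat ϖ C D w =
      lat ϖ (min A C) (min D (min (tv ϖ B α) (A - C + tv ϖ D w))) w := by
  set G := min D (min (tv ϖ B α) (A - C + tv ϖ D w)) with hG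
  have gD : ϖ ^ G ∣ ϖ ^ D := pow_dvd_pow _ (by omega)
  have gα : ϖ ^ G ∣ α := (pow_dvd_pow _ (by omega)).trans (pow_tv_dvd B α)
  have gB : ϖ ^ G ∣ ϖ ^ B := pow_dvd_pow _ (by have := tv_le (ϖ := ϖ) B α; omega)
  have gw : ϖ ^ G ∣ ϖ ^ (A - C) * w :=
    (pow_dvd_pow _ (by omega)).trans (pow_add ϖ _ _ ▸ mul_dvd_mul_left _ (pow_tv_dvd D w))
  have m1 : (ϖ ^ A, α) ∈ lat ϖ A B α := mem_lat.mpr ⟨1, by simp, by simp⟩
  have m2 : ((0 : O), ϖ ^ B) ∈ lat ϖ A B α := mem_lat.mpr ⟨0, by simp, by simp⟩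
  have m3 : (ϖ ^ C, w) ∈ lat ϖ C D w := mem_lat.mpr ⟨1, by simp, by simp⟩
  have m4 : ∀ n, A ≤ n → (ϖ ^ n, (0 : O)) ∈ lat ϖ A B α * ⊤ := fun n hn => by
    have := Submodule.mul_mem_mul m1 (Submodule.mem_top (R := O) (x := (ϖ ^ (n - A), (0 : O))))
    rwa [Prod.mk_mul_mk, mul_zero, ← pow_add, Nat.add_sub_cancel' hn] at this
  apply le_antisymm
  · refine sup_le (Submodule.mul_le.mpr ?_) ?_
    · rintro _ ⟨⟨r, s⟩, rfl⟩ ⟨a, b⟩ -
      rw [mem_lat, latMap_apply]
      refine ⟨r * a * ϖ ^ (A - C), ?_, ?_⟩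
      · rw [mul_assoc, ← pow_add, show A - C + min A C = A by omega]
        simp only [Prod.mk_mul_mk]
        ring
      · have := dvd_sub (dvd_add (gα.mul_left (r * b)) (gB.mul_left (s * b))) (gw.mul_left (r * a))
        convert this using 1
        simp only [Prod.mk_mul_mk]
        ring
    · rintro _ ⟨⟨r, s⟩, rfl⟩
      rw [mem_lat, latMap_apply]
      refine ⟨r * ϖ ^ (C - A), ?_, ?_⟩
      · rw [mul_assoc, ← pow_add, show C - A + min A C = C by omega]
      · rcases le_total C A with h | h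
        · simpa [Nat.sub_eq_zero_of_le h] using gD.mul_left s
        · rw [Nat.sub_eq_zero_of_le h, pow_zero, one_mul] at gw
          exact dvd_sub (dvd_add (gw.mul_left r) (gD.mul_left s)) (gw.mul_left _)
  · have k1 : (ϖ ^ min A C, w) ∈ lat ϖ A B α * ⊤ ⊔ lat ϖ C D w := by
      rcases le_total C A with h | h
      · rw [min_eq_right h]
        exact Submodule.mem_sup_right m3
      · rw [min_eq_left h]
        simpa using Submodule.add_mem_sup (Submodule.sub_mem _ (m4 A le_rfl) (m4 C h)) m3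
    have k2 : ((0 : O), ϖ ^ G) ∈ lat ϖ A B α * ⊤ ⊔ lat ϖ C D w := by
      by_cases h1 : G = D
      · exact Submodule.mem_sup_right ((inr_mem_lat hϖ).mpr (by rw [h1]))
      by_cases h2 : G = tv ϖ B α
      · refine Submodule.mem_sup_left ?_
        rcases (tv_le (ϖ := ϖ) B α).lt_or_eq with h | h
        · obtain ⟨u, hu, h3⟩ := exists_unit_of_tv_lt hϖ h
          obtain ⟨v, hv⟩ := hu.exists_right_inv
          have := Submodule.mul_mem_mul m1 (Submodule.mem_top (R := O) (x := ((0 : O), v)))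
          rw [Prod.mk_mul_mk, mul_zero] at this
          convert this using 2
          rw [h2]
          linear_combination (-v) * h3 - ϖ ^ tv ϖ B α * hv
        · simpa [h2, h] using Submodule.mul_mem_mul m2 (Submodule.mem_top (R := O) (x := 1))
      · obtain ⟨u, hu, h3⟩ := exists_unit_of_tv_lt hϖ (show tv ϖ D w < D by omega)
        obtain ⟨v, hv⟩ := hu.exists_right_inv
        have := Submodule.add_mem_sup (Submodule.smul_mem _ (-v) (m4 (A - C + C) (by omega)))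
          (Submodule.smul_mem _ (v * ϖ ^ (A - C)) m3)
        convert this using 1
        rw [show G = A - C + tv ϖ D w by omega]
        ext
        · simp
          ring
        · simp only [Prod.smul_mk, Prod.mk_add_mk, smul_eq_mul]
          linear_combination (-v * ϖ ^ (A - C)) * h3 - ϖ ^ (A - C + tv ϖ D w) * hv
    rintro _ ⟨⟨r, s⟩, rfl⟩
    simpa [latMap_apply] using
      Submodule.add_mem _ (Submodule.smul_mem _ r k1) (Submodule.smul_mem _ s k2)

open Classical in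
theorem sum_countG (hϖ : Irreducible ϖ) (hq : Nat.card (O ⧸ Ideal.span {ϖ}) = q) (hq0 : q ≠ 0)
    (A B C D : ℕ) [Fintype (O ⧸ Ideal.span {ϖ ^ B})] [Fintype (O ⧸ Ideal.span {ϖ ^ D})]
    (g : ℕ → ℕ → ℂ) :
    (∑ y : (O ⧸ Ideal.span {ϖ ^ B}) × (O ⧸ Ideal.span {ϖ ^ D}),
      if lat ϖ C D y.2.out ≤ transp (lat ϖ A B y.1.out) (lat ϖ C D y.2.out) then
        g (tv ϖ D y.2.out) (tv ϖ B y.1.out) else 0) = countG q g A B D := by
  rw [Fintype.sum_prod_type_right]
  have h1 : ∀ w : O ⧸ Ideal.span {ϖ ^ D}, (∑ α : O ⧸ Ideal.span {ϖ ^ B},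
      if lat ϖ C D w.out ≤ transp (lat ϖ A B α.out) (lat ϖ C D w.out) then
        g (tv ϖ D w.out) (tv ϖ B α.out) else 0) =
      (fun W => if D - W ≤ B then
        (if A < D - W then (q : ℂ) ^ (B - (D - W)) * g W A else 0) +
          ∑ V ∈ Finset.range (B + 1), if D - W ≤ A ∧ D - W ≤ V then
            phiC q (B - V) * g W V else 0 else 0) (tv ϖ D w.out) := by
    intro w
    simp only
    by_cases hE : D - tv ϖ D w.out ≤ B
    · rw [if_pos hE, ← sum_tv_shift hϖ hq hq0 hE (g (tv ϖ D w.out))]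
      refine Finset.sum_congr rfl fun α _ => ?_
      simp only [lat_le_transp_iff hϖ, hE, true_and]
    · rw [if_neg hE]
      exact Finset.sum_eq_zero fun α _ =>
        if_neg fun h => hE ((lat_le_transp_iff hϖ A B C D α.out w.out).mp h).1
  refine (Finset.sum_congr rfl fun w _ => h1 w).trans ((sum_tv hϖ hq hq0 D
    (fun W => if D - W ≤ B then
        (if A < D - W then (q : ℂ) ^ (B - (D - W)) * g W A else 0) +
          ∑ V ∈ Finset.range (B + 1), if D - W ≤ A ∧ D - W ≤ V then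
            phiC q (B - V) * g W V else 0 else 0)).trans ?_)
  refine Finset.sum_congr rfl fun W hW => ?_
  have hW' : W ≤ D := Nat.lt_succ_iff.mp (Finset.mem_range.mp hW)
  unfold termA termB
  by_cases hE : D - W ≤ B
  · rw [if_pos hE, mul_add, Finset.mul_sum]
    congr 1
    · by_cases hA : A < D - W
      · rw [if_pos hA, if_pos ⟨hW', hE, hA⟩]
      · rw [if_neg hA, if_neg fun h => hA h.2.2, mul_zero]
    · refine Finset.sum_congr rfl fun V hV => ?_
      have hV' : V ≤ B := Nat.lt_succ_iff.mp (Finset.mem_range.mp hV)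
      by_cases hc : D - W ≤ A ∧ D - W ≤ V
      · rw [if_pos hc, if_pos ⟨hW', hc.1, hc.2, hV'⟩]
      · rw [if_neg hc, if_neg fun h => hc ⟨h.2.1, h.2.2.1⟩, mul_zero]
  · rw [if_neg hE, mul_zero, if_neg fun h => hE h.2.1, zero_add, eq_comm]
    exact Finset.sum_eq_zero fun V _ => if_neg (by omega)

open Classical in
theorem hasSum_pairs (hϖ : Irreducible ϖ) (hq : Nat.card (O ⧸ Ideal.span {ϖ}) = q) (hq0 : q ≠ 0)
    (m : ℕ) (τ : ℕ →* ℂ)
    (hn : ∀ a b : ℕ, a ≤ (m + 2) * b → 0 < b → ‖(q : ℂ) ^ a * τ q ^ b‖ < 1) :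
    HasSum (fun i : FinIdx O (O × O) × FinIdx O (O × O) =>
      ((if i.2.1 ≤ transp i.1.1 i.2.1 then Nat.card ((transp i.1.1 i.2.1).map i.2.1.mkQ) ^ m *
        (i.2.1.toAddSubgroup.index * (i.1.1 * ⊤ ⊔ i.2.1).toAddSubgroup.index) else 0 : ℕ) : ℂ) *
        (τ i.1.1.toAddSubgroup.index * τ i.2.1.toAddSubgroup.index))
      (core m (q : ℂ) (τ q) (om (q : ℂ) (τ q))) := by
  have hfin : ∀ n, Finite (O ⧸ Ideal.span {ϖ ^ n}) := fun n =>
    Nat.finite_of_card_ne_zero (by rw [card_quot_pow hϖ hq]; exact pow_ne_zero _ hq0)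
  let _ : ∀ n, Fintype (O ⧸ Ideal.span {ϖ ^ n}) := fun n => Fintype.ofFinite _
  refine (Equiv.ofBijective _ (paramMap_bijective hϖ hq hq0)).hasSum_iff.mp ?_
  have := hasSum_sigma_nat (I := ℕ × ℕ × ℕ × ℕ)
    (F := fun v => (O ⧸ Ideal.span {ϖ ^ v.2.1}) × (O ⧸ Ideal.span {ϖ ^ v.2.2.2}))
    (fun v y => if lat ϖ v.2.2.1 v.2.2.2 y.2.out ≤
        transp (lat ϖ v.1 v.2.1 y.1.out) (lat ϖ v.2.2.1 v.2.2.2 y.2.out) then
      Nat.card ((transp (lat ϖ v.1 v.2.1 y.1.out) (lat ϖ v.2.2.1 v.2.2.2 y.2.out)).map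
        (lat ϖ v.2.2.1 v.2.2.2 y.2.out).mkQ) ^ m *
        ((lat ϖ v.2.2.1 v.2.2.2 y.2.out).toAddSubgroup.index *
          (lat ϖ v.1 v.2.1 y.1.out * ⊤ ⊔ lat ϖ v.2.2.1 v.2.2.2 y.2.out).toAddSubgroup.index) else 0)
    (fun v => τ q ^ (v.1 + v.2.1 + v.2.2.1 + v.2.2.2))
    (hasSum_of_eq (hasSum_countG m hn) (fun v => by
      rw [← sum_countG hϖ hq hq0 v.1 v.2.1 v.2.2.1, Nat.cast_sum]
      congr 1
      refine Finset.sum_congr rfl fun y _ => ?_
      split_ifs with h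
      · rw [card_transp hϖ hq hq0 _ _ _ _ _ _ h, mul_top_sup_lat hϖ, index_lat hϖ hq,
          index_lat hϖ hq, wt, cExp]
        push_cast
        ring
      · simp) rfl)
  refine hasSum_of_eq this (fun x => ?_) rfl
  simp only [Function.comp, Equiv.ofBijective_apply, paramMap]
  congr 1
  rw [index_lat hϖ hq, index_lat hϖ hq, map_pow, map_pow, ← pow_add, ← add_assoc]

theorem hasSum_lieAlg (hϖ : Irreducible ϖ) (hq : Nat.card (O ⧸ Ideal.span {ϖ}) = q) (hq0 : q ≠ 0)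
    (m : ℕ) (τ : ℕ →* ℂ)
    (hn : ∀ a b : ℕ, a ≤ (m + 2) * b → 0 < b → ‖(q : ℂ) ^ a * τ q ^ b‖ < 1) :
    HasSum (fun U : {U : Submodule O ((O × O) × ((Fin m → O) × (O × O))) //
      U.toAddSubgroup.index ≠ 0 ∧ LieClosed U} => τ U.1.toAddSubgroup.index)
      (core m (q : ℂ) (τ q) (om (q : ℂ) (τ q)) *
        ∏ i ∈ Finset.range m, (om (q : ℂ) (τ q) (i + 2) 1)⁻¹) := by
  classical
  have hA := hasSum_pairs hϖ hq hq0 m τ hn
  have hB := hasSum_ab hϖ hq hq0 m ((Nat.castRingHom ℂ).toMonoidHom ^ 2 * τ) fun i hi => by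
    have := hn (i + 2) 1 (by omega) (by omega)
    simpa [pow_add, mul_assoc] using this
  let e : FinIdx O (O × O) × FinIdx O (Fin m → O) × FinIdx O (O × O) ≃
      (FinIdx O (O × O) × FinIdx O (O × O)) × FinIdx O (Fin m → O) :=
    ⟨fun x => ((x.1, x.2.2), x.2.1), fun x => (x.1.1, x.2, x.1.2), fun _ => rfl, fun _ => rfl⟩
  have hD := hasSum_goursat (ι := FinIdx O (O × O)) (Q := Fin m → O) (N := O × O)
    (fun P M => Cond P.1 M)
    (fun x => ((x.2.1.1.toAddSubgroup.index ^ 2 * (x.2.2.1.toAddSubgroup.index *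
      (x.1.1 * ⊤ ⊔ x.2.2.1).toAddSubgroup.index) : ℕ) : ℂ) * (τ x.1.1.toAddSubgroup.index *
        τ (x.2.1.1.toAddSubgroup.index * x.2.2.1.toAddSubgroup.index)))
    (fun x => if x.2.2.1 ≤ transp x.1.1 x.2.2.1 then
      Nat.card ((transp x.1.1 x.2.2.1).map x.2.2.1.mkQ) ^ m else 0)
    (finite_hom hϖ) (fun (P : FinIdx O (O × O)) (P0 : FinIdx O (Fin m → O))
        (L : FinIdx O (O × O)) => by
      by_cases h : L.1 ≤ transp P.1 L.1
      · rw [if_pos h, Nat.card_congr (Equiv.subtypeEquivRight fun ψ =>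
          (cond_graph_iff P.1 L.1 P0.1 ψ).trans (and_iff_right h)),
          card_hom_into (exists_basis hϖ P0).some]
        simp
      · have : IsEmpty {ψ : P0.1 →ₗ[O] (O × O) ⧸ L.1 // Cond P.1 (graph P0.1 L.1 ψ)} :=
          ⟨fun ψ => h ((cond_graph_iff _ _ _ ψ.1).mp ψ.2).1⟩
        rw [if_neg h]
        exact Nat.card_of_isEmpty)
    (hasSum_of_eq (e.hasSum_iff.mpr (hasSum_mul' hA hB))
      (fun x : FinIdx O (O × O) × FinIdx O (Fin m → O) × FinIdx O (O × O) => by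
      simp only [Function.comp, e, Equiv.coe_fn_mk, MonoidHom.mul_apply, MonoidHom.pow_apply,
        map_mul]
      split_ifs
      · simp
        ring
      · simp) rfl)
  refine hasSum_goursat0 LieClosed τ
    (fun x : FinIdx O (O × O) × FinIdx O ((Fin m → O) × (O × O)) => if Cond x.1.1 x.2.1 then
    (pr1 x.2).1.toAddSubgroup.index ^ 2 * ((pr2 x.2).1.toAddSubgroup.index *
      (x.1.1 * ⊤ ⊔ (pr2 x.2).1).toAddSubgroup.index) else 0) (finite_hom hϖ) (fun P M => ?_) ?_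
  · obtain ⟨a, b, α, h⟩ := exists_lat hϖ P
    exact card_lieClosed M (h ▸ LinearEquiv.ofInjective _ (latMap_injective hϖ a b α))
  · refine (Subtype.val_injective (p := fun x : FinIdx O (O × O) ×
      FinIdx O ((Fin m → O) × (O × O)) => Cond x.1.1 x.2.1)).hasSum_iff (fun x hx => ?_) |>.mp
      (hasSum_of_eq hD (fun x => ?_) ?_)
    · rw [if_neg fun h => hx ⟨⟨x, h⟩, rfl⟩]
      simp
    · simp only [Function.comp]
      rw [if_pos x.2, index_eq_mul x.1.2.1]
      rfl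
    · simp [om, pow_add, mul_assoc]

end Pool.Agent.MP_f8bd42_al
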