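import Pool.Agent.MP_f8bd42_al.Main
import Pool.Agent.MP_f8bd42_al.Lie2

/-!
The topological zeta function of the Lie rings `r2 + r2 + Z ^ m`.
-/

open Filter Topology

namespace Pool.Agent.MP_f8bd42_al

/-- Indicator of equality. -/
def dl {d : ℕ} (i j : Fin d) : ℤ := if i = j then 1 else 0

/-- Structure constants of `r2 + r2 + Z ^ m`: `[e 0, e 2] = e 2`, `[e 1, e 3] = e 3`. -/
def lieC (m : ℕ) : Fin (m + 4) → Fin (m + 4) → Fin (m + 4) → ℤ := fun i j k =>
  dl k (Fin.succ (Fin.succ 0)) *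
      (dl i 0 * dl j (Fin.succ (Fin.succ 0)) - dl i (Fin.succ (Fin.succ 0)) * dl j 0) +
    dl k (Fin.succ (Fin.succ (Fin.succ 0))) *
      (dl i (Fin.succ 0) * dl j (Fin.succ (Fin.succ (Fin.succ 0))) -
        dl i (Fin.succ (Fin.succ (Fin.succ 0))) * dl j (Fin.succ 0))

section transfer

variable (m : ℕ) (O : Type) [CommRing O]

theorem sum_dl {d : ℕ} (a b : Fin d) (x y : Fin d → O) :
    ∑ i, ∑ j, (dl i a : O) * dl j b * x i * y j = x a * y b := by
  simp [dl]

theorem algMul_lieC (x y : Fin (m + 4) → O) (k : Fin (m + 4)) :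
    algMul (lieC m) O x y k =
      dl k (Fin.succ (Fin.succ 0)) *
        (x 0 * y (Fin.succ (Fin.succ 0)) - x (Fin.succ (Fin.succ 0)) * y 0) +
      dl k (Fin.succ (Fin.succ (Fin.succ 0))) *
        (x (Fin.succ 0) * y (Fin.succ (Fin.succ (Fin.succ 0))) -
          x (Fin.succ (Fin.succ (Fin.succ 0))) * y (Fin.succ 0)) := by
  rw [← sum_dl O 0, ← sum_dl O (Fin.succ (Fin.succ 0)), ← sum_dl O (Fin.succ 0),
    ← sum_dl O (Fin.succ (Fin.succ (Fin.succ 0)))]
  simp only [algMul, lieC, Finset.mul_sum, ← Finset.sum_sub_distrib, ← Finset.sum_add_distrib]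
  refine Finset.sum_congr rfl fun i _ => Finset.sum_congr rfl fun j _ => ?_
  push_cast
  ring

/-- Coordinates. -/
def lieCoord : (Fin (m + 4) → O) ≃ₗ[O] (O × O) × ((Fin m → O) × (O × O)) where
  toFun x := ((x 0, x (Fin.succ 0)), fun i => x i.succ.succ.succ.succ,
    (x (Fin.succ (Fin.succ 0)), x (Fin.succ (Fin.succ (Fin.succ 0)))))
  invFun p := Fin.cons p.1.1 (Fin.cons p.1.2 (Fin.cons p.2.2.1 (Fin.cons p.2.2.2 p.2.1)))
  map_add' _ _ := rfl
  map_smul' _ _ := rfl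
  left_inv x := by
    funext i
    refine Fin.cases rfl (fun i => Fin.cases rfl (fun i => Fin.cases rfl
      (fun i => Fin.cases rfl (fun i => rfl) i) i) i) i
  right_inv _ := rfl

theorem dl_self {d : ℕ} (i : Fin d) : dl i i = 1 := if_pos rfl

theorem dl_succ {d : ℕ} (i j : Fin d) : dl i.succ j.succ = dl i j := by
  simp only [dl, Fin.succ_inj]

theorem dl_zero {d : ℕ} (i : Fin d) : dl 0 i.succ = 0 := if_neg (Fin.succ_ne_zero i).symm

theorem dl_zero' {d : ℕ} (i : Fin d) : dl i.succ 0 = 0 := if_neg (Fin.succ_ne_zero i)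

theorem lieCoord_algMul (x y : Fin (m + 4) → O) :
    lieCoord m O (algMul (lieC m) O x y) = ((0 : O × O), ((0 : Fin m → O),
      (lieCoord m O x).1 * (lieCoord m O y).2.2 - (lieCoord m O y).1 * (lieCoord m O x).2.2)) := by
  simp only [lieCoord, LinearEquiv.coe_mk, LinearMap.coe_mk, AddHom.coe_mk, algMul_lieC, dl_self,
    dl_succ, dl_zero, dl_zero', Int.cast_zero, Int.cast_one, zero_mul, one_mul, add_zero, zero_add,
    Prod.mk_mul_mk, Prod.mk_sub_mk]
  refine Prod.ext rfl (Prod.ext rfl (Prod.ext ?_ ?_)) <;> simp only [mul_comm]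

theorem lieC_alt (x : Fin (m + 4) → O) : algMul (lieC m) O x x = 0 := by
  apply (lieCoord m O).injective
  rw [lieCoord_algMul, sub_self, map_zero]
  rfl

theorem lieC_jacobi (x y z : Fin (m + 4) → O) :
    algMul (lieC m) O x (algMul (lieC m) O y z) + algMul (lieC m) O y (algMul (lieC m) O z x) +
      algMul (lieC m) O z (algMul (lieC m) O x y) = 0 := by
  apply (lieCoord m O).injective
  simp only [map_add, lieCoord_algMul, map_zero, Prod.mk_add_mk, add_zero, zero_mul, sub_zero]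
  refine Prod.ext rfl (Prod.ext rfl ?_)
  simp only [Prod.snd_zero]
  ring

end transfer

/-- The closed form including the central factor. -/
noncomputable def full {K : Type*} [Field K] (m : ℕ) (q t : K) (g : ℕ → ℕ → K) : K :=
  core m q t g * ∏ i ∈ Finset.range m, (g (i + 2) 1)⁻¹

theorem hasSum_lieC (m : ℕ) {O : Type} [CommRing O] [IsDomain O] [IsDiscreteValuationRing O]
    {ϖ : O} {q : ℕ} (hϖ : Irreducible ϖ) (hq : Nat.card (O ⧸ Ideal.span {ϖ}) = q) (hq1 : 1 < q)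
    {w : ℂ} (hw : (m : ℝ) + 2 < w.re) :
    HasSum (fun U : FiniteIndexSubalgebra (lieC m) O => (U.1.toAddSubgroup.index : ℂ) ^ (-w))
      (full m (q : ℂ) ((q : ℂ) ^ (-w)) (om (q : ℂ) ((q : ℂ) ^ (-w)))) := by
  have hq1' : (1 : ℝ) < q := by exact_mod_cast hq1
  let τ : ℕ →* ℂ := ⟨⟨fun n => (n : ℂ) ^ (-w), by simp⟩, fun a b => by
    simp only [Nat.cast_mul, Complex.natCast_mul_natCast_cpow]⟩
  have h := hasSum_lieAlg hϖ hq (by omega) m τ fun a b hab hb => by
    change ‖(q : ℂ) ^ a * ((q : ℂ) ^ (-w)) ^ b‖ < 1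
    rw [norm_mul, norm_pow, norm_pow, Complex.norm_natCast_cpow_of_pos (by omega),
      Complex.norm_natCast, ← Real.rpow_natCast, ← Real.rpow_natCast,
      ← Real.rpow_mul (by linarith), ← Real.rpow_add (by linarith)]
    refine Real.rpow_lt_one_of_one_lt_of_neg hq1' ?_
    have h1 : (a : ℝ) ≤ (m + 2) * b := by exact_mod_cast hab
    have h2 : (0 : ℝ) < b := by exact_mod_cast hb
    rw [Complex.neg_re]
    nlinarith
  refine hasSum_transfer (lieCoord m O) _ _ (fun U => ?_) (fun n => (n : ℂ) ^ (-w)) h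
  rw [index_comap_equiv]
  refine and_congr_right fun _ => ⟨fun h x hx y hy => ?_, fun h u hu v hv => ?_⟩
  · rw [Submodule.mem_comap, LinearEquiv.coe_coe, lieCoord_algMul]
    exact h _ hx _ hy
  · obtain ⟨x, rfl⟩ := (lieCoord m O).surjective u
    obtain ⟨y, rfl⟩ := (lieCoord m O).surjective v
    rw [← lieCoord_algMul]
    exact h x hu y hv

theorem cast_full {K : Type*} [Field K] [CharZero K] (m : ℕ) (q t : ℚ) (g : ℕ → ℕ → ℚ) :
    ((full m q t g : ℚ) : K) = full m (q : K) (t : K) fun a b => (g a b : K) := by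
  simp only [full, core]
  push_cast
  rfl

theorem analyticAt_full (m : ℕ) (q : ℂ) {t : ℂ → ℂ} {s : ℂ} (ht : AnalyticAt ℂ t s)
    (hz : ∀ a b : ℕ, a ≤ (m + 2) * b → 0 < b → om q (t s) a b ≠ 0) :
    AnalyticAt ℂ (fun w => full m q (t w) (om q (t w))) s := by
  have hg : ∀ a b, AnalyticAt ℂ (fun w => om q (t w) a b) s := fun a b => by
    unfold om
    fun_prop
  have hi : ∀ a b : ℕ, a ≤ (m + 2) * b → 0 < b →
      AnalyticAt ℂ (fun w => (om q (t w) a b)⁻¹) s := fun a b h1 h2 => (hg a b).inv (hz a b h1 h2)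
  refine AnalyticAt.mul ?_ (Finset.analyticAt_fun_prod _ fun i h =>
    hi _ _ (by have := Finset.mem_range.mp h; omega) (by omega))
  have i1 := hi 0 1 (by omega) (by omega)
  have i2 := (hi 1 1 (by omega) (by omega)).pow 3
  have i3 := hi 2 2 (by omega) (by omega)
  have i4 := (hi (m + 2) 2 (by omega) (by omega)).pow 2
  have i5 := hi (m + 3) 3 (by omega) (by omega)
  have i6 := hi (m + 6) 5 (by omega) (by omega)
  have i7 := hi (2 * m + 7) 6 (by omega) (by omega)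
  have c : ∀ z : ℂ, AnalyticAt ℂ (fun _ : ℂ => z) s := fun _ => analyticAt_const
  exact (((((((((((((hg _ _).mul (c _)).mul (ht.pow 2)).mul (hg _ _)).mul (hg _ _)).mul i3).mul
    i2).mul i6).mul i5).mul i7).neg.add
    ((((((hg _ _).mul ((hg _ _).pow 2)).mul i1).mul i2).mul i5).mul i4)).add
    ((((((((hg _ _).mul ((hg _ _).pow 2)).mul (c _)).mul (ht.pow 5)).mul i2).mul i6).mul i5).mul
      i4)).sub
    ((((((((((hg _ _).mul ((hg _ _).pow 2)).mul (c _)).mul (ht.pow 6)).mul (hg _ _)).mul i2).mul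
      i6).mul i5).mul i7).mul i4))

theorem isZetaValue_lie (m p : ℕ) [Fact p.Prime] {n : ℕ} (hn : n ≠ 0) {s : ℤ}
    (hs : s < 0 ∨ (m : ℤ) + 2 < s) :
    IsZetaValue (lieC m) (WittVector p (GaloisField p n)) s
      ((full m ((p : ℚ) ^ n) (((p : ℚ) ^ n) ^ (-s))
        (om ((p : ℚ) ^ n) (((p : ℚ) ^ n) ^ (-s))) : ℚ) : ℂ) := by
  have hq1 : 1 < p ^ n := Nat.one_lt_pow hn (Fact.out : p.Prime).one_lt
  have hq : Nat.card (WittVector p (GaloisField p n) ⧸
      Ideal.span {(p : WittVector p (GaloisField p n))}) = p ^ n := by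
    rw [Nat.card_congr WittVector.quotientPEquiv.toEquiv, GaloisField.card p n hn]
  refine ⟨_, fun w => ?_, ⟨m + 2, fun w hw =>
    hasSum_lieC m (WittVector.irreducible p) hq hq1 hw⟩,
    analyticAt_full m _ (analyticAt_cpow_neg hq1 s) fun a b hab hb => ?_, ?_⟩
  · have := (analyticAt_cpow_neg hq1 w).meromorphicAt
    refine MeromorphicAt.mul ?_ (MeromorphicAt.fun_prod fun i _ => ?_)
    · unfold core om
      fun_prop
    · unfold om
      fun_prop
  · rw [om, cpow_neg_int]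
    have h1 : (a : ℤ) ≤ (m + 2) * b := by exact_mod_cast hab
    have h2 : (0 : ℤ) < b := by exact_mod_cast hb
    exact_mod_cast one_sub_ne hq1 a b s (by rcases hs with h | h <;> nlinarith)
  · simp only [cpow_neg_int, cast_full, om]
    push_cast
    rfl

section limit

variable {K : Type} [NontriviallyNormedField K] [CharZero K]

omit [CharZero K] in
theorem full_mul (m : ℕ) (q t : K) (g : ℕ → ℕ → K) {ε : K} (he : ε ≠ 0) :
    ε ^ (m + 4) * full m q t (fun a b => g a b * ε) = full m q t g := by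
  have h1 : ε ^ 4 * core m q t (fun a b => g a b * ε) = core m q t g := by
    simp only [core, mul_inv, mul_pow]
    generalize (g 0 1)⁻¹ = g1
    generalize (g 1 1)⁻¹ = g2
    generalize (g 2 2)⁻¹ = g3
    generalize (g (m + 2) 2)⁻¹ = g4
    generalize (g (m + 3) 3)⁻¹ = g5
    generalize (g (m + 6) 5)⁻¹ = g6
    generalize (g (2 * m + 7) 6)⁻¹ = g7
    field_simp
  have h2 : ε ^ m * ε⁻¹ ^ m = 1 := by rw [← mul_pow, mul_inv_cancel₀ he, one_pow]
  simp only [full, mul_inv, Finset.prod_mul_distrib, Finset.prod_const, Finset.card_range]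
  rw [← h1]
  linear_combination (ε ^ 4 * (core m q t fun a b => g a b * ε) *
    ∏ i ∈ Finset.range m, (g (i + 2) 1)⁻¹) * h2

omit [CharZero K] in
theorem tendsto_full_of (m : ℕ) {F : Filter K} {q t : K → K} {g : ℕ → ℕ → K → K} {q0 t0 : K}
    {g0 : ℕ → ℕ → K} (hq : Tendsto q F (𝓝 q0)) (ht : Tendsto t F (𝓝 t0))
    (hg : ∀ a b, Tendsto (g a b) F (𝓝 (g0 a b)))
    (hz : ∀ a b : ℕ, a ≤ (m + 2) * b → 0 < b → g0 a b ≠ 0) :
    Tendsto (fun x => full m (q x) (t x) fun a b => g a b x) F (𝓝 (full m q0 t0 g0)) := by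
  have hi : ∀ a b : ℕ, a ≤ (m + 2) * b → 0 < b →
      Tendsto (fun x => (g a b x)⁻¹) F (𝓝 (g0 a b)⁻¹) :=
    fun a b h1 h2 => (hg a b).inv₀ (hz a b h1 h2)
  refine Tendsto.mul ?_ (tendsto_finsetProd _ fun i h =>
    hi _ _ (by have := Finset.mem_range.mp h; omega) (by omega))
  have i1 := hi 0 1 (by omega) (by omega)
  have i2 := (hi 1 1 (by omega) (by omega)).pow 3
  have i3 := hi 2 2 (by omega) (by omega)
  have i4 := (hi (m + 2) 2 (by omega) (by omega)).pow 2
  have i5 := hi (m + 3) 3 (by omega) (by omega)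
  have i6 := hi (m + 6) 5 (by omega) (by omega)
  have i7 := hi (2 * m + 7) 6 (by omega) (by omega)
  exact (((((((((((((hg _ _).mul hq).mul (ht.pow 2)).mul (hg _ _)).mul (hg _ _)).mul i3).mul
    i2).mul i6).mul i5).mul i7).neg.add
    ((((((hg _ _).mul ((hg _ _).pow 2)).mul i1).mul i2).mul i5).mul i4)).add
    ((((((((hg _ _).mul ((hg _ _).pow 2)).mul (hq.pow _)).mul (ht.pow 5)).mul i2).mul i6).mul
      i5).mul i4)).sub
    ((((((((((hg _ _).mul ((hg _ _).pow 2)).mul (hq.pow _)).mul (ht.pow 6)).mul (hg _ _)).mul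
      i2).mul i6).mul i5).mul i7).mul i4))

theorem top_ne {m : ℕ} {s : ℤ} (hs : s < 0 ∨ (m : ℤ) + 2 < s) (a b : ℕ) (hab : a ≤ (m + 2) * b)
    (hb : 0 < b) : (b : K) * s - a ≠ 0 := by
  have h1 : (a : ℤ) ≤ (m + 2) * b := by exact_mod_cast hab
  have h2 : (0 : ℤ) < b := by exact_mod_cast hb
  have : (b : ℤ) * s - a ≠ 0 := by rcases hs with h | h <;> nlinarith
  exact_mod_cast this

theorem tendsto_full (m : ℕ) {s : ℤ} (hs : s < 0 ∨ (m : ℤ) + 2 < s) :
    Tendsto (fun x : K => (1 - x⁻¹) ^ (m + 4) * full m x (x ^ (-s)) (om x (x ^ (-s)))) (𝓝[≠] 1)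
      (𝓝 (full m 1 1 fun a b => (b : K) * s - a)) := by
  have hx : Tendsto (fun x : K => x) (𝓝[≠] 1) (𝓝 1) := tendsto_id.mono_left nhdsWithin_le_nhds
  have ht : Tendsto (fun x : K => x ^ (-s)) (𝓝[≠] 1) (𝓝 1) := by
    simpa using hx.zpow₀ (-s) (Or.inl one_ne_zero)
  have T := tendsto_full_of m hx ht (g := fun a b => quo ((a : ℤ) - b * s))
    (g0 := fun a b => (b : K) * s - a)
    (fun a b => by simpa using tendsto_quo (K := K) ((a : ℤ) - b * s)) (top_ne hs)
  have h4 : ∀ᶠ x : K in 𝓝[≠] 1, x ≠ 0 :=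
    (eventually_ne_nhds one_ne_zero).filter_mono nhdsWithin_le_nhds
  refine T.congr' ?_
  filter_upwards [h4, self_mem_nhdsWithin] with x hx0 hx1
  have he : 1 - x⁻¹ ≠ 0 := by
    rw [sub_ne_zero, ne_comm, Ne, inv_eq_one]
    exact hx1
  rw [← full_mul m _ _ _ he]
  congr 2
  funext a b
  rw [om, quo, div_mul_cancel₀ _ he, ← zpow_natCast, ← zpow_natCast, ← zpow_mul, ← zpow_add₀ hx0]
  congr 2
  ring

end limit

theorem tendsto_lie (m l : ℕ) [Fact l.Prime] {p e : ℕ} (hp : 1 < p) (he : 1 ≤ e)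
    (ha : (l : ℤ) ∣ (p : ℤ) ^ e - 1) {s : ℤ} (hs : s < 0 ∨ (m : ℤ) + 2 < s) :
    Tendsto (fun f : ℕ => (((1 - ((p : ℚ) ^ (e * f))⁻¹) ^ (m + 4) *
        full m ((p : ℚ) ^ (e * f)) (((p : ℚ) ^ (e * f)) ^ (-s))
          (om ((p : ℚ) ^ (e * f)) (((p : ℚ) ^ (e * f)) ^ (-s))) : ℚ) : ℚ_[l]))
      (comap (fun f : ℕ => (f : ℚ_[l])) (𝓝 0) ⊓ 𝓟 {f | 1 ≤ f})
      (𝓝 ((full m 1 1 fun a b => (b : ℚ) * s - a : ℚ) : ℚ_[l])) := by
  have hx : Tendsto (fun f : ℕ => (p : ℚ_[l]) ^ (e * f))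
      (comap (fun f : ℕ => (f : ℚ_[l])) (𝓝 0) ⊓ 𝓟 {f | 1 ≤ f}) (𝓝[≠] 1) := by
    rw [tendsto_nhdsWithin_iff]
    constructor
    · have := (tendsto_pow_padic l ha).mono_left
        (inf_le_left (b := 𝓟 {f | 1 ≤ f}))
      simpa [pow_mul] using this
    · filter_upwards [mem_inf_of_right (mem_principal_self _)] with f hf
      have : 1 < p ^ (e * f) := Nat.one_lt_pow (mul_ne_zero (by omega) (by
        have : 1 ≤ f := hf
        omega)) hp
      have h2 : ((p ^ (e * f) : ℕ) : ℚ_[l]) ≠ ((1 : ℕ) : ℚ_[l]) := by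
        exact_mod_cast this.ne'
      simpa using h2
  have := (tendsto_full (K := ℚ_[l]) m hs).comp hx
  convert this using 2
  · simp only [Function.comp, Rat.cast_mul, cast_full, om]
    push_cast
    rfl
  · rw [cast_full]
    push_cast
    rfl

/-- Numerator. -/
def nF {K : Type*} [CommRing K] (m s : K) : K :=
  s * (5 * s - (m + 5)) * (6 * s - (m + 7)) * (2 * s - (m + 2)) ^ 2 +
    2 * (s - 1) * (3 * s - (m + 2)) * (2 * s - 1) ^ 2 * (5 * s - (m + 6)) * (6 * s - (2 * m + 7)) +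
    2 * s ^ 2 * (s - 1) * (6 * s - (2 * m + 7)) + 2 * m * s * (s - 1) * (5 * s - (m + 5))

/-- Denominator. -/
def dF {K : Type*} [CommRing K] (m : ℕ) (s : K) : K :=
  2 * s * (s - 1) ^ 4 * (5 * s - (m + 6)) * (3 * s - (m + 3)) * (6 * s - (2 * m + 7)) *
    (2 * s - (m + 2)) ^ 2 * ∏ i ∈ Finset.range m, (s - (i + 2))

theorem aeval_nF {K : Type} [Field K] [Algebra ℚ K] (m : ℕ) (x : K) :
    Polynomial.aeval x (nF (m : Polynomial ℚ) Polynomial.X) = nF (m : K) x := by
  simp [nF, map_ofNat]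

theorem aeval_dF {K : Type} [Field K] [Algebra ℚ K] (m : ℕ) (x : K) :
    Polynomial.aeval x (dF m (Polynomial.X : Polynomial ℚ)) = dF m x := by
  simp [dF, map_ofNat]

theorem dF_ne {K : Type} [Field K] [CharZero K] {m : ℕ} {s : K}
    (hz : ∀ a b : ℕ, a ≤ (m + 2) * b → 0 < b → (b : K) * s - a ≠ 0) :
    dF m s ≠ 0 ∧ (full m 1 1 fun a b => (b : K) * s - a) = nF (m : K) s / dF m s := by
  have z1 : s ≠ 0 := by simpa using hz 0 1 (by omega) (by omega)
  have z2 : s - 1 ≠ 0 := by simpa using hz 1 1 (by omega) (by omega)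
  have z4 := hz (m + 2) 2 (by omega) (by omega)
  have z5 := hz (m + 3) 3 (by omega) (by omega)
  have z6 := hz (m + 6) 5 (by omega) (by omega)
  have z7 := hz (2 * m + 7) 6 (by omega) (by omega)
  have z8 : ∏ i ∈ Finset.range m, (s - (i + 2)) ≠ 0 := Finset.prod_ne_zero_iff.mpr fun i h => by
    simpa using hz (i + 2) 1 (by have := Finset.mem_range.mp h; omega) (by omega)
  push_cast at z4 z5 z6 z7
  constructor
  · simp only [dF, ne_eq, mul_eq_zero, pow_eq_zero_iff two_ne_zero, pow_eq_zero_iff four_ne_zero,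
      z1, z2, z4, z5, z6, z7, z8, two_ne_zero, or_self, not_false_eq_true]
  · simp only [full, core, nF, dF, Finset.prod_inv_distrib]
    push_cast
    rw [show 2 * s - 2 = 2 * (s - 1) by ring]
    simp only [one_mul, sub_zero, zero_mul, one_pow, mul_one]
    generalize ∏ i ∈ Finset.range m, (s - (i + 2)) = P at z8
    generalize 2 * s - (m + 2) = a at z4
    generalize 3 * s - (m + 3) = b at z5
    generalize 5 * s - (m + 6) = c at z6
    generalize 6 * s - (2 * m + 7) = d at z7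
    generalize s - 1 = e at z2
    field_simp
    ring

/-- The topological zeta function of the Lie ring. -/
noncomputable def topL (m : ℕ) : RatFunc ℚ :=
  algebraMap _ _ (nF (m : Polynomial ℚ) Polynomial.X) /
    algebraMap _ _ (dF m (Polynomial.X : Polynomial ℚ))

theorem eval_dF_ne {m : ℕ} {s : ℤ} (hs : s < 0 ∨ (m : ℤ) + 2 < s) :
    (dF m (Polynomial.X : Polynomial ℚ)).eval (s : ℚ) ≠ 0 := by
  rw [← Polynomial.coe_aeval_eq_eval, aeval_dF]
  exact (dF_ne (top_ne hs)).1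

theorem num_mul_dF (m : ℕ) :
    (topL m).num * dF m Polynomial.X = nF (m : Polynomial ℚ) Polynomial.X * (topL m).denom :=
  (RatFunc.num_mul_eq_mul_denom_iff fun h => eval_dF_ne (m := m) (s := -1) (Or.inl (by omega))
    (by rw [h, Polynomial.eval_zero])).mpr rfl

theorem denom_dvd_dF (m : ℕ) : (topL m).denom ∣ dF m Polynomial.X := RatFunc.denom_div_dvd _ _

theorem eval_denomL_ne {m : ℕ} {s : ℤ} (hs : s < 0 ∨ (m : ℤ) + 2 < s) :
    (topL m).denom.eval (s : ℚ) ≠ 0 :=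
  fun h => eval_dF_ne hs (Polynomial.eval_eq_zero_of_dvd_of_eval_eq_zero (denom_dvd_dF m) h)

theorem eval_topL {m : ℕ} {s : ℤ} (hs : s < 0 ∨ (m : ℤ) + 2 < s) :
    (topL m).eval (RingHom.id ℚ) s = full m 1 1 fun a b => (b : ℚ) * s - a := by
  rw [(dF_ne (top_ne hs)).2, ← aeval_dF, ← aeval_nF, Polynomial.coe_aeval_eq_eval, RatFunc.eval]
  simp only [Polynomial.eval₂_id]
  rw [div_eq_div_iff (eval_denomL_ne hs) (eval_dF_ne hs), ← Polynomial.eval_mul,
    ← Polynomial.eval_mul, num_mul_dF]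

theorem isTopZeta_topL (m : ℕ) : IsTopZeta (lieC m) (topL m) := by
  refine ⟨Finset.Icc 0 (m + 2), fun l _ => ⟨{l}, fun p _ hp => ?_⟩⟩
  have hl : l.Prime := Fact.out
  have hpp : p.Prime := Fact.out
  have hne : p ≠ l := by simpa using hp
  have he : 1 ≤ l - 1 := by have := hl.two_le; omega
  refine ⟨l - 1, he, fun s hs => ?_⟩
  have h0 : s < 0 ∨ (m : ℤ) + 2 < s := by
    rw [Finset.mem_Icc] at hs
    omega
  refine ⟨eval_denomL_ne h0, _,
    fun f hf => isZetaValue_lie m p (mul_ne_zero (by omega) (by omega)) h0, ?_⟩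
  rw [eval_topL h0]
  refine tendsto_lie m l hpp.one_lt he ?_ h0
  have := Int.ModEq.pow_card_sub_one_eq_one hl (n := p)
    (Nat.isCoprime_iff_coprime.mpr ((Nat.coprime_primes hpp hl).mpr hne))
  exact this.symm.dvd

theorem eq_topL {m : ℕ} {Z : RatFunc ℚ} (h : IsTopZeta (lieC m) Z) : Z = topL m := by
  obtain ⟨H, h⟩ := h
  obtain ⟨S, h⟩ := h 2
  obtain ⟨p, hp1, hp⟩ := Nat.exists_infinite_primes (S.sup id + 3)
  have : Fact p.Prime := ⟨hp⟩
  obtain ⟨e, he, h⟩ := h p fun hS => by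
    have : p ≤ S.sup id := Finset.le_sup (f := id) hS
    omega
  have hodd : ((2 : ℕ) : ℤ) ∣ (p : ℤ) ^ e - 1 := by
    have h1 : Odd (p : ℤ) := by exact_mod_cast hp.odd_of_ne_two (by omega)
    exact (h1.pow.sub_odd odd_one).two_dvd
  have key : ∀ s : ℤ, s ∉ H → s < 0 ∨ (m : ℤ) + 2 < s →
      (Z.num * (topL m).denom - (topL m).num * Z.denom).eval (s : ℚ) = 0 := by
    intro s hs h0
    obtain ⟨hden, z, hz, hlim⟩ := h s hs
    have := neBot_filter 2
    have hlim2 := (tendsto_lie m 2 hp.one_lt he hodd h0).congr' (f₂ := fun f : ℕ =>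
        (((1 - ((p : ℚ) ^ (e * f))⁻¹) ^ (m + 4) * z f : ℚ) : ℚ_[2])) (by
      filter_upwards [mem_inf_of_right (mem_principal_self _)] with f hf
      have hf' : 1 ≤ f := hf
      have := (hz f hf').unique (isZetaValue_lie m p (mul_ne_zero (by omega) (by omega)) h0)
      rw [Rat.cast_injective this])
    have h2 := Rat.cast_injective (tendsto_nhds_unique hlim hlim2)
    rw [← eval_topL h0, RatFunc.eval, RatFunc.eval] at h2
    simp only [Polynomial.eval₂_id] at h2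
    rw [div_eq_div_iff hden (eval_denomL_ne h0)] at h2
    simp only [Polynomial.eval_sub, Polynomial.eval_mul, h2, sub_self]
  have h3 : Z.num * (topL m).denom - (topL m).num * Z.denom = 0 := by
    apply Polynomial.eq_zero_of_infinite_isRoot
    have hinf : ((↑(Finset.Icc 0 ((m : ℤ) + 2) ∪ H) : Set ℤ)ᶜ).Infinite :=
      (Finset.finite_toSet _).infinite_compl
    refine (hinf.image (Int.cast_injective (α := ℚ)).injOn).mono ?_
    rintro _ ⟨s, hs, rfl⟩
    simp only [Set.mem_compl_iff, Finset.mem_coe, Finset.mem_union, Finset.mem_Icc, not_or] at hs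
    exact key s hs.2 (by omega)
  rw [← RatFunc.num_div_denom (topL m), ← RatFunc.num_mul_eq_mul_denom_iff (topL m).denom_ne_zero]
  exact sub_eq_zero.mp h3

theorem zero_topL {m : ℕ} {s : ℂ} (hs : s.re < 0) (h : nF (m : ℂ) s = 0) :
    Polynomial.aeval s (topL m).num = 0 ∧ Polynomial.aeval s (topL m).denom ≠ 0 := by
  have hd : Polynomial.aeval s (dF m (Polynomial.X : Polynomial ℚ)) ≠ 0 := by
    rw [aeval_dF]
    refine (dF_ne fun a b _ hb h0 => ?_).1
    have h1 := congrArg Complex.re h0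
    have h2 : (0 : ℝ) < b := by exact_mod_cast hb
    have h3 : (0 : ℝ) ≤ a := a.cast_nonneg
    simp at h1
    nlinarith
  refine ⟨?_, fun h => hd ?_⟩
  · have := congrArg (Polynomial.aeval s) (num_mul_dF m)
    rw [map_mul, map_mul, aeval_nF, h, zero_mul] at this
    exact (mul_eq_zero.mp this).resolve_right hd
  · obtain ⟨c, hc⟩ := denom_dvd_dF m
    rw [hc, map_mul, h, zero_mul]

theorem exists_root_of_normSq_lt (p : Polynomial ℂ) {c x y : ℝ} (hx : 0 ≤ x)
    (h : Complex.normSq (p.eval ((c - x : ℝ) + y * Complex.I)) <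
      Complex.normSq (p.eval (c + y * Complex.I))) : ∃ s : ℂ, s.re < c ∧ p.eval s = 0 := by
  by_contra hn
  have hr : ∀ s ∈ p.roots, c ≤ s.re := fun s hs => by
    by_contra hlt
    exact hn ⟨s, not_le.mp hlt, Polynomial.isRoot_of_mem_roots hs⟩
  refine absurd h (not_lt.mpr ?_)
  rw [(IsAlgClosed.splits p).eval_eq_prod_roots, (IsAlgClosed.splits p).eval_eq_prod_roots,
    map_mul, map_mul, map_multiset_prod, map_multiset_prod, Multiset.map_map, Multiset.map_map]
  refine mul_le_mul_of_nonneg_left (Multiset.prod_map_le_prod_map₀ _ _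
    (fun s _ => Complex.normSq_nonneg _) fun s hs => ?_) (Complex.normSq_nonneg _)
  have := hr s hs
  simp only [Function.comp, Complex.normSq_apply, Complex.sub_re, Complex.add_re,
    Complex.ofReal_re, Complex.mul_re, Complex.I_re, Complex.ofReal_im, Complex.I_im,
    Complex.sub_im, Complex.add_im, Complex.mul_im]
  nlinarith

theorem exists_root_nF (m : ℕ) {c x y : ℝ} (hx : 0 ≤ x)
    (h : Complex.normSq (nF (m : ℂ) ((c - x : ℝ) + y * Complex.I)) <
      Complex.normSq (nF (m : ℂ) (c + y * Complex.I))) : ∃ s : ℂ, s.re < c ∧ nF (m : ℂ) s = 0 := by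
  have e : ∀ s : ℂ, (nF (m : Polynomial ℂ) Polynomial.X).eval s = nF (m : ℂ) s := fun s => by
    simp [nF]
  simpa only [e] using exists_root_of_normSq_lt (nF (m : Polynomial ℂ) Polynomial.X) hx
    (by simpa only [e] using h)

theorem exists_root_large {m : ℕ} (hm : 45 ≤ m) :
    ∃ r : ℝ, r < 5 / 4 - √((m : ℝ) + 4) / 4 ∧ r < 0 ∧ nF (m : ℝ) r = 0 := by
  have h0 : (45 : ℝ) ≤ m := by exact_mod_cast hm
  have h1 : 7 ≤ √((m : ℝ) + 4) := Real.le_sqrt_of_sq_le (by linarith)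
  have h2 : √((m : ℝ) + 4) ^ 2 = m + 4 := Real.sq_sqrt (by linarith)
  obtain ⟨j, hj⟩ : ∃ j, √((m : ℝ) + 4) = 7 + j := ⟨_, (add_sub_cancel _ _).symm⟩
  rw [hj] at h1 h2 ⊢
  have hj0 : 0 ≤ j := by linarith
  have h3 : (m : ℝ) = (7 + j) ^ 2 - 4 := by linarith
  have ha : nF (m : ℝ) (5 / 4 - (7 + j) / 4) < 0 := by
    have : nF (m : ℝ) (5 / 4 - (7 + j) / 4) = -(864675 / 4 + 3008493 / 4 * j +
        10592451 / 16 * j ^ 2 + 278207 * j ^ 3 + 4245675 / 64 * j ^ 4 + 607527 / 64 * j ^ 5 +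
        207047 / 256 * j ^ 6 + 2423 / 64 * j ^ 7 + 3 / 4 * j ^ 8) := by
      rw [h3, nF]
      ring
    rw [this, neg_lt_zero]
    positivity
  have hb : 0 < nF (m : ℝ) (-(7 + j)) := by
    have : nF (m : ℝ) (-(7 + j)) = 2717904246 + 3010067952 * j + 1475566905 * j ^ 2 +
        420167814 * j ^ 3 + 76578180 * j ^ 4 + 9262709 * j ^ 5 + 743463 * j ^ 6 + 38178 * j ^ 7 +
        1138 * j ^ 8 + 15 * j ^ 9 := by
      rw [h3, nF]
      ring
    rw [this]
    positivity
  have hc : ContinuousOn (nF (m : ℝ)) (Set.Icc (-(7 + j)) (5 / 4 - (7 + j) / 4)) := by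
    unfold nF
    fun_prop
  obtain ⟨r, hr, h⟩ := intermediate_value_Ioo' (by linarith) hc
    (show (0 : ℝ) ∈ Set.Ioo _ _ from ⟨ha, hb⟩)
  exact ⟨r, hr.2, by linarith [hr.2], h⟩

theorem exists_root {m : ℕ} (hm : 14 ≤ m) :
    ∃ s : ℂ, s.re < min 0 (3 / 2 - √((m : ℝ) + 4) / 4) ∧ nF (m : ℂ) s = 0 := by
  rcases le_or_gt m 32 with h | h
  · obtain ⟨s, h1, h2⟩ := exists_root_nF m (c := 0) (x := 1 / 100) (y := 1 / 3) (by norm_num) (by
      interval_cases m <;> norm_num [nF, Complex.normSq_apply, pow_two])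
    have h3 : (m : ℝ) ≤ 32 := by exact_mod_cast h
    have h4 : √((m : ℝ) + 4) ≤ 6 := Real.sqrt_le_iff.mpr ⟨by norm_num, by linarith⟩
    exact ⟨s, lt_min h1 (by linarith), h2⟩
  rcases le_or_gt m 44 with h' | h'
  · obtain ⟨s, h1, h2⟩ := exists_root_nF m (c := -1 / 4) (x := 1 / 100) (y := 1 / 4)
      (by norm_num) (by interval_cases m <;> norm_num [nF, Complex.normSq_apply, pow_two])
    have h3 : (m : ℝ) ≤ 44 := by exact_mod_cast h'
    have h4 : √((m : ℝ) + 4) ≤ 7 := Real.sqrt_le_iff.mpr ⟨by norm_num, by linarith⟩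
    exact ⟨s, lt_min (by linarith) (by linarith), h2⟩
  · obtain ⟨r, h1, h2, h3⟩ := exists_root_large h'
    refine ⟨r, lt_min h2 (by rw [Complex.ofReal_re]; linarith), ?_⟩
    have : ((nF (m : ℝ) r : ℝ) : ℂ) = nF (m : ℂ) r := by simp [nF]
    rw [← this, h3, Complex.ofReal_zero]

end Pool.Agent.MP_f8bd42_al
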