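import Pool.Agent.MP_f8bd42_al.Defs
import Pool.Agent.MP_f8bd42_al.Count

/-!
The topological zeta function of the example and its negative zero.
-/

open Filter Topology

namespace Pool.Agent.MP_f8bd42_al

section transfer

variable (O : Type) [CommRing O]

/-- Coordinates. -/
def coordEquiv : (Fin 4 → O) ≃ₗ[O] (O × O) × (O × O) where
  toFun x := ((x 0, x 1), (x 2, x 3))
  invFun p := ![p.1.1, p.1.2, p.2.1, p.2.2]
  map_add' _ _ := rfl
  map_smul' _ _ := rfl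
  left_inv x := by
    funext i
    fin_cases i <;> rfl
  right_inv _ := rfl

theorem coordEquiv_algMul (x y : Fin 4 → O) :
    coordEquiv O (algMul exampleConstants O x y) =
      ((0 : O × O), (coordEquiv O x).1 * (coordEquiv O y).2) := by
  simp [coordEquiv, algMul, exampleConstants, Fin.sum_univ_four, Prod.mul_def]

theorem index_comap_coord (U : Submodule O ((O × O) × (O × O))) :
    (U.comap (coordEquiv O).toLinearMap).toAddSubgroup.index = U.toAddSubgroup.index :=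
  AddSubgroup.index_comap_of_surjective U.toAddSubgroup
    (f := (coordEquiv O).toLinearMap.toAddMonoidHom) (coordEquiv O).surjective

/-- The two models of the set of subalgebras. -/
def subAlgEquiv : SubAlg O ≃ FiniteIndexSubalgebra exampleConstants O :=
  Equiv.subtypeEquiv (Submodule.orderIsoMapComap (coordEquiv O)).symm.toEquiv fun U => by
    change _ ↔ (U.comap (coordEquiv O).toLinearMap).toAddSubgroup.index ≠ 0 ∧
      ∀ x ∈ U.comap (coordEquiv O).toLinearMap, ∀ y ∈ U.comap (coordEquiv O).toLinearMap,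
        algMul exampleConstants O x y ∈ U.comap (coordEquiv O).toLinearMap
    rw [index_comap_coord]
    refine and_congr_right fun _ => ⟨fun h x hx y hy => ?_, fun h u hu v hv => ?_⟩
    · rw [Submodule.mem_comap, LinearEquiv.coe_coe, coordEquiv_algMul]
      exact h _ hx _ hy
    · obtain ⟨x, rfl⟩ := (coordEquiv O).surjective u
      obtain ⟨y, rfl⟩ := (coordEquiv O).surjective v
      rw [← coordEquiv_algMul]
      exact h x hu y hv

theorem index_subAlgEquiv (U : SubAlg O) :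
    (subAlgEquiv O U).1.toAddSubgroup.index = U.1.toAddSubgroup.index :=
  index_comap_coord O U.1

end transfer

theorem hasSum_example {O : Type} [CommRing O] [IsDomain O] [IsDiscreteValuationRing O] {ϖ : O}
    {q : ℕ} (hϖ : Irreducible ϖ) (hq : Nat.card (O ⧸ Ideal.span {ϖ}) = q) (hq1 : 1 < q)
    {w : ℂ} (hw : 1 < w.re) :
    HasSum (fun U : FiniteIndexSubalgebra exampleConstants O =>
      (U.1.toAddSubgroup.index : ℂ) ^ (-w)) (localZeta (q : ℂ) ((q : ℂ) ^ (-w))) := by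
  have hq1' : (1 : ℝ) < q := by exact_mod_cast hq1
  have hn : ‖(q : ℂ) ^ (-w)‖ = (q : ℝ) ^ (-w.re) := by
    rw [Complex.norm_natCast_cpow_of_pos (by omega)]
    simp
  have h1 : ‖(q : ℂ) ^ (-w)‖ < 1 := by
    rw [hn]
    exact Real.rpow_lt_one_of_one_lt_of_neg hq1' (by linarith)
  have h2 : ‖(q : ℂ) * (q : ℂ) ^ (-w)‖ < 1 := by
    rw [norm_mul, hn, Complex.norm_natCast, mul_comm, ← Real.rpow_add_one (by linarith)]
    exact Real.rpow_lt_one_of_one_lt_of_neg hq1' (by linarith)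
  rw [← (subAlgEquiv O).hasSum_iff]
  refine hasSum_of_eq (hasSum_subAlg hϖ hq (by omega) h1 h2 (fun n => (n : ℂ) ^ (-w)) fun n => ?_)
    (fun U => ?_) rfl
  · rw [Nat.cast_pow, ← Complex.natCast_cpow_natCast_mul, Complex.cpow_nat_mul]
  · simp only [Function.comp, index_subAlgEquiv]

theorem one_sub_ne {q : ℕ} (hq1 : 1 < q) (a b : ℕ) (s : ℤ) (h : (a : ℤ) ≠ s * b) :
    1 - (q : ℚ) ^ a * ((q : ℚ) ^ (-s)) ^ b ≠ 0 := by
  have hq : (1 : ℚ) < q := by exact_mod_cast hq1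
  rw [← zpow_natCast, ← zpow_natCast, ← zpow_mul, ← zpow_add₀ (by linarith), sub_ne_zero, ne_comm,
    Ne, zpow_eq_one_iff_right₀ (by linarith) hq.ne']
  intro h0
  apply h
  linarith

theorem analyticAt_cpow_neg {q : ℕ} (hq1 : 1 < q) (w : ℂ) :
    AnalyticAt ℂ (fun w : ℂ => (q : ℂ) ^ (-w)) w := by
  refine AnalyticAt.cpow analyticAt_const analyticAt_id.neg ?_
  exact Complex.natCast_mem_slitPlane.mpr (by omega)

theorem meromorphic_localZeta {q : ℕ} (hq1 : 1 < q) :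
    Meromorphic fun w : ℂ => localZeta (q : ℂ) ((q : ℂ) ^ (-w)) := by
  intro w
  have := (analyticAt_cpow_neg hq1 w).meromorphicAt
  unfold localZeta
  fun_prop

theorem cpow_neg_int (q : ℕ) (s : ℤ) :
    (q : ℂ) ^ (-(s : ℂ)) = (((q : ℚ) ^ (-s) : ℚ) : ℂ) := by
  rw [← Int.cast_neg, Complex.cpow_intCast]
  push_cast
  rfl

theorem analyticAt_localZeta {q : ℕ} (hq1 : 1 < q) {s : ℤ} (h0 : s ≠ 0) (h1 : s ≠ 1) :
    AnalyticAt ℂ (fun w : ℂ => localZeta (q : ℂ) ((q : ℂ) ^ (-w))) s := by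
  have ne : ∀ a b : ℕ, (a : ℤ) ≠ s * b → 1 - (q : ℂ) ^ a * ((q : ℂ) ^ (-(s : ℂ))) ^ b ≠ 0 := by
    intro a b h
    rw [cpow_neg_int]
    exact_mod_cast one_sub_ne hq1 a b s h
  have n01 : 1 - (q : ℂ) ^ (-(s : ℂ)) ≠ 0 := by simpa using ne 0 1 (by omega)
  have n11 : 1 - (q : ℂ) * (q : ℂ) ^ (-(s : ℂ)) ≠ 0 := by simpa using ne 1 1 (by omega)
  have n12 : 1 - (q : ℂ) * ((q : ℂ) ^ (-(s : ℂ))) ^ 2 ≠ 0 := by simpa using ne 1 2 (by omega)
  have n22 := ne 2 2 (by omega)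
  have n33 := ne 3 3 (by omega)
  have n66 := ne 6 6 (by omega)
  have := analyticAt_cpow_neg hq1 s
  unfold localZeta
  refine ((AnalyticAt.div ?_ ?_ ?_).add (AnalyticAt.div ?_ ?_ ?_)).add (AnalyticAt.div ?_ ?_ ?_)
  all_goals first
    | fun_prop
    | simp only [ne_eq, mul_eq_zero, pow_eq_zero_iff two_ne_zero, n01, n11, n12, n22, n33, n66,
        or_self, not_false_eq_true]

theorem IsZetaValue.unique {d : ℕ} {c : Fin d → Fin d → Fin d → ℤ} {O : Type} [CommRing O]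
    {s z z' : ℂ} (h : IsZetaValue c O s z) (h' : IsZetaValue c O s z') : z = z' := by
  obtain ⟨F, hF, ⟨σ, hσ⟩, hs, rfl⟩ := h
  obtain ⟨G, hG, ⟨τ, hτ⟩, hs', rfl⟩ := h'
  have hm : Meromorphic (F - G) := hF.sub hG
  have htop : meromorphicOrderAt (F - G) s = ⊤ := by
    by_contra hne
    have := hm.exists_meromorphicOrderAt_ne_top_iff_forall.mp ⟨s, hne⟩
      ((max σ τ + 1 : ℝ) : ℂ)
    apply this
    rw [meromorphicOrderAt_eq_top_iff]
    apply Filter.Eventually.filter_mono nhdsWithin_le_nhds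
    have ho : IsOpen {w : ℂ | max σ τ < w.re} := isOpen_lt continuous_const Complex.continuous_re
    filter_upwards [ho.mem_nhds (show max σ τ < ((max σ τ + 1 : ℝ) : ℂ).re by
      rw [Complex.ofReal_re]; linarith)] with w hw
    exact sub_eq_zero.mpr ((hσ w (lt_of_le_of_lt (le_max_left _ _) hw)).unique
      (hτ w (lt_of_le_of_lt (le_max_right _ _) hw)))
  rw [meromorphicOrderAt_eq_top_iff] at htop
  have h1 : Tendsto (F - G) (𝓝[≠] s) (𝓝 ((F - G) s)) :=
    (hs.sub hs').continuousAt.tendsto.mono_left nhdsWithin_le_nhds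
  have h2 : Tendsto (F - G) (𝓝[≠] s) (𝓝 0) := tendsto_const_nhds.congr' (by
    filter_upwards [htop] with w hw using hw.symm)
  exact sub_eq_zero.mp (tendsto_nhds_unique h1 h2)

theorem isZetaValue_witt (p : ℕ) [Fact p.Prime] {n : ℕ} (hn : n ≠ 0) {s : ℤ} (h0 : s ≠ 0)
    (h1 : s ≠ 1) :
    IsZetaValue exampleConstants (WittVector p (GaloisField p n)) s
      ((localZeta ((p : ℚ) ^ n) (((p : ℚ) ^ n) ^ (-s)) : ℚ) : ℂ) := by
  have hq1 : 1 < p ^ n := Nat.one_lt_pow hn (Fact.out : p.Prime).one_lt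
  have hq : Nat.card (WittVector p (GaloisField p n) ⧸
      Ideal.span {(p : WittVector p (GaloisField p n))}) = p ^ n := by
    rw [Nat.card_congr WittVector.quotientPEquiv.toEquiv, GaloisField.card p n hn]
  refine ⟨_, meromorphic_localZeta hq1, ⟨1, fun w hw =>
    hasSum_example (WittVector.irreducible p) hq hq1 hw⟩, analyticAt_localZeta hq1 h0 h1, ?_⟩
  simp only [cpow_neg_int, localZeta]
  push_cast
  rfl

section limit

variable {K : Type} [NontriviallyNormedField K] [CharZero K]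

/-- The quotient `(1 - x ^ m) / (1 - x⁻¹)`. -/
noncomputable def quo (m : ℤ) (x : K) : K := (1 - x ^ m) / (1 - x⁻¹)

omit [CharZero K] in
theorem tendsto_quo (m : ℤ) : Tendsto (quo (K := K) m) (𝓝[≠] 1) (𝓝 (-m)) := by
  have h1 := hasDerivAt_iff_tendsto_slope.mp (hasDerivAt_zpow m (1 : K) (Or.inl one_ne_zero))
  have h2 : Tendsto (fun x : K => x) (𝓝[≠] 1) (𝓝 1) := tendsto_id.mono_left nhdsWithin_le_nhds
  have h3 := (h2.mul h1).neg
  simp only [one_zpow, mul_one, one_mul] at h3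
  refine h3.congr' ?_
  have h4 : ∀ᶠ x : K in 𝓝[≠] 1, x ≠ 0 :=
    (eventually_ne_nhds one_ne_zero).filter_mono nhdsWithin_le_nhds
  filter_upwards [h4, self_mem_nhdsWithin] with x hx0 hx1
  have hx1' : x - 1 ≠ 0 := sub_ne_zero.mpr hx1
  rw [slope_def_field, quo, one_zpow]
  field_simp
  ring

omit [CharZero K] in
theorem normalized_eq {x : K} (hx0 : x ≠ 0) (hx1 : x ≠ 1) (s : ℤ) :
    (1 - x⁻¹) ^ 4 * localZeta x (x ^ (-s)) =
      x * (x ^ (-s)) ^ 2 * quo (4 - 6 * s) x /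
          (quo (1 - 2 * s) x * quo (6 - 6 * s) x * quo (3 - 3 * s) x * quo (1 - s) x *
            quo (-s) x ^ 2) +
        (1 + x ^ (-s)) ^ 2 * quo (2 - 3 * s) x /
          (quo (-s) x * quo (2 - 2 * s) x ^ 2 * quo (3 - 3 * s) x * quo (1 - s) x) +
        x ^ 2 * (-quo 2 x) * x ^ 2 * (x ^ (-s)) ^ 6 /
          (quo (-s) x ^ 2 * quo (2 - 2 * s) x ^ 2 * quo (3 - 3 * s) x * quo (1 - s) x *
            quo (6 - 6 * s) x) := by
  have he : 1 - x⁻¹ ≠ 0 := by
    rw [sub_ne_zero, ne_comm, Ne, inv_eq_one]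
    exact hx1
  have key : ∀ (a b : ℕ) (m : ℤ), m = a - b * s →
      1 - x ^ a * (x ^ (-s)) ^ b = quo m x * (1 - x⁻¹) := by
    intro a b m hm
    rw [quo, div_mul_cancel₀ _ he, ← zpow_natCast, ← zpow_natCast, ← zpow_mul, ← zpow_add₀ hx0, hm]
    congr 2
    ring
  have k01 : 1 - x ^ (-s) = quo (-s) x * (1 - x⁻¹) := by simpa using key 0 1 (-s) (by simp)
  have k11 : 1 - x * x ^ (-s) = quo (1 - s) x * (1 - x⁻¹) := by
    simpa using key 1 1 (1 - s) (by simp)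
  have k12 : 1 - x * (x ^ (-s)) ^ 2 = quo (1 - 2 * s) x * (1 - x⁻¹) := by
    simpa using key 1 2 (1 - 2 * s) (by simp)
  have k22 := key 2 2 (2 - 2 * s) (by simp)
  have k23 := key 2 3 (2 - 3 * s) (by simp)
  have k33 := key 3 3 (3 - 3 * s) (by simp)
  have k46 := key 4 6 (4 - 6 * s) (by simp)
  have k66 := key 6 6 (6 - 6 * s) (by simp)
  have k20 : x ^ 2 - 1 = -quo 2 x * (1 - x⁻¹) := by
    have := key 2 0 2 (by simp)
    simp only [pow_zero, mul_one] at this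
    linear_combination -this
  have k10 : x - 1 = x * (1 - x⁻¹) := by field_simp
  unfold localZeta
  rw [k01, k11, k12, k22, k23, k33, k46, k66, k20, k10]
  generalize 1 - x⁻¹ = ε at he
  simp only [div_eq_mul_inv, mul_inv, mul_pow, ← inv_pow]
  generalize (quo (-s) x)⁻¹ = g1
  generalize (quo (1 - s) x)⁻¹ = g2
  generalize (quo (1 - 2 * s) x)⁻¹ = g3
  generalize (quo (2 - 2 * s) x)⁻¹ = g4
  generalize (quo (3 - 3 * s) x)⁻¹ = g5
  generalize (quo (6 - 6 * s) x)⁻¹ = g6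
  field_simp

theorem tendsto_normalized {s : ℤ} (h0 : s ≠ 0) (h1 : s ≠ 1) :
    Tendsto (fun x : K => (1 - x⁻¹) ^ 4 * localZeta x (x ^ (-s))) (𝓝[≠] 1)
      (𝓝 ((72 * s ^ 4 - 144 * s ^ 3 + 76 * s ^ 2 + 6 * s - 9) /
        (36 * s ^ 2 * (s - 1) ^ 5 * (2 * s - 1)) : K)) := by
  have hx : Tendsto (fun x : K => x) (𝓝[≠] 1) (𝓝 1) := tendsto_id.mono_left nhdsWithin_le_nhds
  have ht : Tendsto (fun x : K => x ^ (-s)) (𝓝[≠] 1) (𝓝 1) := by
    simpa using hx.zpow₀ (-s) (Or.inl one_ne_zero)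
  have nz : ∀ m : ℤ, m ≠ 0 → -((m : ℤ) : K) ≠ 0 := fun m hm => by simpa using hm
  have z1 := nz (-s) (by omega)
  have z2 := nz (1 - s) (by omega)
  have z3 := nz (1 - 2 * s) (by omega)
  have z4 := nz (2 - 2 * s) (by omega)
  have z5 := nz (3 - 3 * s) (by omega)
  have z6 := nz (6 - 6 * s) (by omega)
  have q := fun m => tendsto_quo (K := K) m
  have T := ((((hx.mul (ht.pow 2)).mul (q (4 - 6 * s))).div
    (((((q (1 - 2 * s)).mul (q (6 - 6 * s))).mul (q (3 - 3 * s))).mul (q (1 - s))).mul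
      ((q (-s)).pow 2)) (by simp only [ne_eq, mul_eq_zero, pow_eq_zero_iff two_ne_zero, z1, z2,
        z3, z5, z6, or_self, not_false_eq_true])).add
    ((((ht.const_add 1).pow 2).mul (q (2 - 3 * s))).div
      ((((q (-s)).mul ((q (2 - 2 * s)).pow 2)).mul (q (3 - 3 * s))).mul (q (1 - s)))
      (by simp only [ne_eq, mul_eq_zero, pow_eq_zero_iff two_ne_zero, z1, z2,
        z4, z5, or_self, not_false_eq_true]))).add
    (((((hx.pow 2).mul (q 2).neg).mul (hx.pow 2)).mul (ht.pow 6)).div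
      ((((((q (-s)).pow 2).mul ((q (2 - 2 * s)).pow 2)).mul (q (3 - 3 * s))).mul
        (q (1 - s))).mul (q (6 - 6 * s)))
      (by simp only [ne_eq, mul_eq_zero, pow_eq_zero_iff two_ne_zero, z1, z2,
        z4, z5, z6, or_self, not_false_eq_true]))
  have h4 : ∀ᶠ x : K in 𝓝[≠] 1, x ≠ 0 :=
    (eventually_ne_nhds one_ne_zero).filter_mono nhdsWithin_le_nhds
  have hs0 : (s : K) ≠ 0 := by exact_mod_cast h0
  have hs1 : (s : K) - 1 ≠ 0 := by exact_mod_cast sub_ne_zero.mpr h1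
  have hs2 : 2 * (s : K) - 1 ≠ 0 := by
    have : 2 * s - 1 ≠ 0 := by omega
    exact_mod_cast this
  convert T.congr' (f₂ := fun x : K => (1 - x⁻¹) ^ 4 * localZeta x (x ^ (-s))) ?_ using 2
  · push_cast
    rw [show -(1 - 2 * (s : K)) = 2 * s - 1 by ring, show -(6 - 6 * (s : K)) = 6 * (s - 1) by ring,
      show -(3 - 3 * (s : K)) = 3 * (s - 1) by ring, show -(1 - (s : K)) = s - 1 by ring,
      show -(2 - 2 * (s : K)) = 2 * (s - 1) by ring, neg_neg]
    have e1 : -(4 - 6 * (s : K)) = 3 * (2 * s - 1) - 1 := by ring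
    have e2 : -(2 - 3 * (s : K)) = 3 * (s - 1) + 1 := by ring
    have e3 : (72 * s ^ 4 - 144 * s ^ 3 + 76 * s ^ 2 + 6 * s - 9 : K) =
        2 * (3 * (2 * s - 1) - 1) * (s - 1) ^ 2 +
          12 * s * (3 * (s - 1) + 1) * (s - 1) * (2 * s - 1) + (2 * s - 1) := by ring
    rw [e1, e2, e3]
    generalize 2 * (s : K) - 1 = u at hs2
    generalize (s : K) - 1 = v at hs1
    field_simp
    ring
  · filter_upwards [h4, self_mem_nhdsWithin] with x hx0 hx1
    exact (normalized_eq hx0 hx1 s).symm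

end limit

theorem tendsto_pow_padic (l : ℕ) [Fact l.Prime] {a : ℤ} (ha : (l : ℤ) ∣ a - 1) :
    Tendsto (fun f : ℕ => (a : ℚ_[l]) ^ f) (comap (fun f : ℕ => (f : ℚ_[l])) (𝓝 0)) (𝓝 1) := by
  rw [Metric.tendsto_nhds]
  intro ε hε
  obtain ⟨k, hk⟩ := PadicInt.exists_pow_neg_lt l hε
  have hl : (0 : ℝ) < l := by exact_mod_cast (Fact.out : l.Prime).pos
  have hmem : Metric.closedBall (0 : ℚ_[l]) ((l : ℝ) ^ (-(k : ℤ))) ∈ 𝓝 (0 : ℚ_[l]) :=
    Metric.closedBall_mem_nhds _ (zpow_pos hl _)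
  filter_upwards [preimage_mem_comap hmem] with f hf
  have h1 : ((l : ℤ) ^ k) ∣ (f : ℤ) := by
    rw [← Padic.norm_int_le_pow_iff_dvd]
    simpa using hf
  have h2 : l ^ k ∣ f := by exact_mod_cast h1
  obtain ⟨m, rfl⟩ := h2
  have h3 : (l : ℤ) ∣ a ^ m - 1 ^ m := ha.trans (sub_dvd_pow_sub_pow a 1 m)
  have h4 := dvd_sub_pow_of_dvd_sub h3 k
  have h5 : ((l : ℤ) ^ k) ∣ a ^ (l ^ k * m) - 1 := by
    rw [← pow_mul, mul_comm m, one_pow, one_pow] at h4
    exact (pow_dvd_pow _ (Nat.le_succ k)).trans h4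
  rw [← Padic.norm_int_le_pow_iff_dvd] at h5
  rw [dist_eq_norm]
  refine lt_of_le_of_lt ?_ hk
  simpa using h5

theorem tendsto_example (l : ℕ) [Fact l.Prime] {p e : ℕ} (hp : 1 < p) (he : 1 ≤ e)
    (ha : (l : ℤ) ∣ (p : ℤ) ^ e - 1) {s : ℤ} (h0 : s ≠ 0) (h1 : s ≠ 1) :
    Tendsto (fun f : ℕ => (((1 - ((p : ℚ) ^ (e * f))⁻¹) ^ 4 *
        localZeta ((p : ℚ) ^ (e * f)) (((p : ℚ) ^ (e * f)) ^ (-s)) : ℚ) : ℚ_[l]))
      (comap (fun f : ℕ => (f : ℚ_[l])) (𝓝 0) ⊓ 𝓟 {f | 1 ≤ f})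
      (𝓝 (((72 * s ^ 4 - 144 * s ^ 3 + 76 * s ^ 2 + 6 * s - 9) /
        (36 * s ^ 2 * (s - 1) ^ 5 * (2 * s - 1)) : ℚ) : ℚ_[l])) := by
  have hx : Tendsto (fun f : ℕ => (p : ℚ_[l]) ^ (e * f))
      (comap (fun f : ℕ => (f : ℚ_[l])) (𝓝 0) ⊓ 𝓟 {f | 1 ≤ f}) (𝓝[≠] 1) := by
    rw [tendsto_nhdsWithin_iff]
    constructor
    · have := (tendsto_pow_padic l ha).mono_left
        (inf_le_left (b := 𝓟 {f | 1 ≤ f}))
      simpa [pow_mul] using this
    · filter_upwards [mem_inf_of_right (mem_principal_self _)] with f hf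
      have : 1 < p ^ (e * f) := Nat.one_lt_pow (mul_ne_zero (by omega) (by
        have : 1 ≤ f := hf
        omega)) hp
      have h2 : ((p ^ (e * f) : ℕ) : ℚ_[l]) ≠ ((1 : ℕ) : ℚ_[l]) := by
        exact_mod_cast this.ne'
      simpa using h2
  have := (tendsto_normalized (K := ℚ_[l]) h0 h1).comp hx
  convert this using 2
  · simp only [Function.comp, localZeta]
    push_cast
    rfl
  · push_cast
    rfl

theorem neBot_filter (l : ℕ) [Fact l.Prime] :
    (comap (fun f : ℕ => (f : ℚ_[l])) (𝓝 0) ⊓ 𝓟 {f | 1 ≤ f}).NeBot := by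
  have h : Tendsto (fun k : ℕ => l ^ k) atTop
      (comap (fun f : ℕ => (f : ℚ_[l])) (𝓝 0) ⊓ 𝓟 {f | 1 ≤ f}) := by
    refine tendsto_inf.mpr ⟨tendsto_comap_iff.mpr ?_, tendsto_principal.mpr ?_⟩
    · have := tendsto_pow_atTop_nhds_zero_of_norm_lt_one (Padic.norm_p_lt_one (p := l))
      refine this.congr fun k => ?_
      simp
    · exact Eventually.of_forall fun k => Nat.one_le_pow _ _ (Fact.out : l.Prime).pos
  exact h.neBot

open Polynomial in
/-- Numerator. -/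
noncomputable def numP : ℚ[X] := 72 * X ^ 4 - 144 * X ^ 3 + 76 * X ^ 2 + 6 * X - 9

open Polynomial in
/-- Denominator. -/
noncomputable def denP : ℚ[X] := 36 * X ^ 2 * (X - 1) ^ 5 * (2 * X - 1)

/-- The topological zeta function of the example. -/
noncomputable def topZ : RatFunc ℚ :=
  (72 * RatFunc.X ^ 4 - 144 * RatFunc.X ^ 3 + 76 * RatFunc.X ^ 2 + 6 * RatFunc.X - 9) /
    (36 * RatFunc.X ^ 2 * (RatFunc.X - 1) ^ 5 * (2 * RatFunc.X - 1))

theorem topZ_eq : topZ = algebraMap _ _ numP / algebraMap _ _ denP := by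
  simp [topZ, numP, denP, map_ofNat]

theorem aeval_denP {K : Type} [Field K] [Algebra ℚ K] (x : K) :
    Polynomial.aeval x denP = 36 * x ^ 2 * (x - 1) ^ 5 * (2 * x - 1) := by
  simp [denP, map_ofNat]

theorem aeval_numP {K : Type} [Field K] [Algebra ℚ K] (x : K) :
    Polynomial.aeval x numP = 72 * x ^ 4 - 144 * x ^ 3 + 76 * x ^ 2 + 6 * x - 9 := by
  simp [numP, map_ofNat]

theorem denP_ne_zero : denP ≠ 0 := by
  intro h
  have := aeval_denP (2 : ℚ)
  rw [h] at this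
  norm_num at this

theorem num_mul_denP : topZ.num * denP = numP * topZ.denom :=
  (RatFunc.num_mul_eq_mul_denom_iff denP_ne_zero).mpr topZ_eq

theorem denom_dvd_denP : topZ.denom ∣ denP := topZ_eq ▸ RatFunc.denom_div_dvd _ _

theorem eval_denP_ne {s : ℤ} (h0 : s ≠ 0) (h1 : s ≠ 1) : denP.eval (s : ℚ) ≠ 0 := by
  have hs0 : (s : ℚ) ≠ 0 := by exact_mod_cast h0
  have hs1 : (s : ℚ) - 1 ≠ 0 := by exact_mod_cast sub_ne_zero.mpr h1
  have hs2 : 2 * (s : ℚ) - 1 ≠ 0 := by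
    have : 2 * s - 1 ≠ 0 := by omega
    exact_mod_cast this
  rw [← Polynomial.coe_aeval_eq_eval, aeval_denP]
  positivity

theorem eval_denom_ne {s : ℤ} (h0 : s ≠ 0) (h1 : s ≠ 1) : topZ.denom.eval (s : ℚ) ≠ 0 :=
  fun h => eval_denP_ne h0 h1 (Polynomial.eval_eq_zero_of_dvd_of_eval_eq_zero denom_dvd_denP h)

theorem eval_topZ {s : ℤ} (h0 : s ≠ 0) (h1 : s ≠ 1) :
    topZ.eval (RingHom.id ℚ) s = (72 * s ^ 4 - 144 * s ^ 3 + 76 * s ^ 2 + 6 * s - 9) /
        (36 * s ^ 2 * (s - 1) ^ 5 * (2 * s - 1)) := by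
  rw [← aeval_denP, ← aeval_numP, Polynomial.coe_aeval_eq_eval, RatFunc.eval]
  simp only [Polynomial.eval₂_id]
  rw [div_eq_div_iff (eval_denom_ne h0 h1) (eval_denP_ne h0 h1), ← Polynomial.eval_mul,
    ← Polynomial.eval_mul, num_mul_denP]

theorem isTopZeta_topZ : IsTopZeta exampleConstants topZ := by
  refine ⟨{0, 1}, fun l _ => ⟨{l}, fun p _ hp => ?_⟩⟩
  have hl : l.Prime := Fact.out
  have hpp : p.Prime := Fact.out
  have hne : p ≠ l := by simpa using hp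
  have he : 1 ≤ l - 1 := by have := hl.two_le; omega
  refine ⟨l - 1, he, fun s hs => ?_⟩
  have h0 : s ≠ 0 := fun h => hs (by simp [h])
  have h1 : s ≠ 1 := fun h => hs (by simp [h])
  refine ⟨eval_denom_ne h0 h1,
    fun f => localZeta ((p : ℚ) ^ ((l - 1) * f)) (((p : ℚ) ^ ((l - 1) * f)) ^ (-s)),
    fun f hf => isZetaValue_witt p (mul_ne_zero (by omega) (by omega)) h0 h1, ?_⟩
  rw [eval_topZ h0 h1]
  refine tendsto_example l hpp.one_lt he ?_ h0 h1
  have := Int.ModEq.pow_card_sub_one_eq_one hl (n := p)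
    (Nat.isCoprime_iff_coprime.mpr ((Nat.coprime_primes hpp hl).mpr hne))
  exact this.symm.dvd

theorem eq_topZ {Z : RatFunc ℚ} (h : IsTopZeta exampleConstants Z) : Z = topZ := by
  obtain ⟨H, h⟩ := h
  obtain ⟨S, h⟩ := h 2
  obtain ⟨p, hp1, hp⟩ := Nat.exists_infinite_primes (S.sup id + 3)
  have : Fact p.Prime := ⟨hp⟩
  obtain ⟨e, he, h⟩ := h p fun hS => by
    have : p ≤ S.sup id := Finset.le_sup (f := id) hS
    omega
  have hodd : ((2 : ℕ) : ℤ) ∣ (p : ℤ) ^ e - 1 := by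
    have h1 : Odd (p : ℤ) := by exact_mod_cast hp.odd_of_ne_two (by omega)
    exact (h1.pow.sub_odd odd_one).two_dvd
  have key : ∀ s : ℤ, s ∉ H → s ≠ 0 → s ≠ 1 →
      (Z.num * topZ.denom - topZ.num * Z.denom).eval (s : ℚ) = 0 := by
    intro s hs h0 h1
    obtain ⟨hden, z, hz, hlim⟩ := h s hs
    have := neBot_filter 2
    have hlim2 := (tendsto_example 2 hp.one_lt he hodd h0 h1).congr' (f₂ := fun f : ℕ =>
        (((1 - ((p : ℚ) ^ (e * f))⁻¹) ^ 4 * z f : ℚ) : ℚ_[2])) (by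
      filter_upwards [mem_inf_of_right (mem_principal_self _)] with f hf
      have hf' : 1 ≤ f := hf
      have := (hz f hf').unique (isZetaValue_witt p (mul_ne_zero (by omega) (by omega)) h0 h1)
      rw [Rat.cast_injective this])
    have h2 := Rat.cast_injective (tendsto_nhds_unique hlim hlim2)
    rw [← eval_topZ h0 h1, RatFunc.eval, RatFunc.eval] at h2
    simp only [Polynomial.eval₂_id] at h2
    rw [div_eq_div_iff hden (eval_denom_ne h0 h1)] at h2
    simp only [Polynomial.eval_sub, Polynomial.eval_mul, h2, sub_self]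
  have h3 : Z.num * topZ.denom - topZ.num * Z.denom = 0 := by
    apply Polynomial.eq_zero_of_infinite_isRoot
    have hinf : ((↑(insert 0 (insert 1 H)) : Set ℤ)ᶜ).Infinite := (Finset.finite_toSet _).infinite_compl
    refine (hinf.image (Int.cast_injective (α := ℚ)).injOn).mono ?_
    rintro _ ⟨s, hs, rfl⟩
    simp only [Finset.coe_insert, Set.mem_compl_iff, Set.mem_insert_iff, Finset.mem_coe,
      not_or] at hs
    exact key s hs.2.2 hs.1 hs.2.1
  rw [← RatFunc.num_div_denom topZ, ← RatFunc.num_mul_eq_mul_denom_iff topZ.denom_ne_zero]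
  exact sub_eq_zero.mp h3

theorem exists_zero : ∃ s : ℂ, s.re < 0 ∧ Polynomial.aeval s topZ.num = 0 ∧
    Polynomial.aeval s topZ.denom ≠ 0 := by
  have hc : ContinuousOn (fun x : ℝ => 72 * x ^ 4 - 144 * x ^ 3 + 76 * x ^ 2 + 6 * x - 9)
      (Set.Icc (-1) 0) := by fun_prop
  obtain ⟨r, hr, h0⟩ := intermediate_value_Ioo' (show (-1 : ℝ) ≤ 0 by norm_num) hc
    (show (0 : ℝ) ∈ Set.Ioo _ _ by norm_num)
  have hd : Polynomial.aeval (r : ℂ) denP ≠ 0 := by
    rw [aeval_denP]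
    have h1 : r ≠ 0 := hr.2.ne
    have h2 : r - 1 ≠ 0 := by linarith [hr.2]
    have h3 : 2 * r - 1 ≠ 0 := by linarith [hr.2]
    have : (36 * r ^ 2 * (r - 1) ^ 5 * (2 * r - 1) : ℝ) ≠ 0 := by positivity
    exact_mod_cast this
  have hn : Polynomial.aeval (r : ℂ) numP = 0 := by
    rw [aeval_numP]
    exact_mod_cast h0
  refine ⟨r, hr.2, ?_, fun h => hd ?_⟩
  · have := congrArg (Polynomial.aeval (r : ℂ)) num_mul_denP
    rw [map_mul, map_mul, hn, zero_mul] at this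
    exact (mul_eq_zero.mp this).resolve_right hd
  · obtain ⟨c, hc⟩ := denom_dvd_denP
    rw [hc, map_mul, h, zero_mul]

end Pool.Agent.MP_f8bd42_al
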