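import Mathlib

/-!
General lemmas on unconditional sums of complex numbers, and the generating function.
-/

namespace Pool.Agent.MP_f8bd42_al

theorem hasSum_of_eq {α : Type*} {f g : α → ℂ} {a b : ℂ} (h : HasSum f a) (h1 : ∀ x, g x = f x)
    (h2 : b = a) : HasSum g b := by
  rw [funext h1, h2]
  exact h

theorem hasSum_mul' {α β : Type*} {f : α → ℂ} {g : β → ℂ} {a b : ℂ} (hf : HasSum f a)
    (hg : HasSum g b) : HasSum (fun x : α × β => f x.1 * g x.2) (a * b) :=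
  hf.mul hg (summable_mul_of_summable_norm hf.summable.norm hg.summable.norm)

theorem hasSum_sigma_nat {I : Type*} {F : I → Type*} [∀ i, Fintype (F i)]
    (n : ∀ i, F i → ℕ) (h : I → ℂ) {S : ℂ}
    (hS : HasSum (fun i => ((∑ y, n i y : ℕ) : ℂ) * h i) S) :
    HasSum (fun x : Σ i, F i => (n x.1 x.2 : ℂ) * h x.1) S := by
  have h1 : ∀ i, HasSum (fun y : F i => (n i y : ℂ) * h i) (((∑ y, n i y : ℕ) : ℂ) * h i) := by
    intro i
    have := hasSum_fintype (fun y : F i => (n i y : ℂ) * h i)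
    rwa [← Finset.sum_mul, ← Nat.cast_sum] at this
  refine HasSum.sigma_of_hasSum hS h1 ?_
  rw [← summable_norm_iff, summable_sigma_of_nonneg (fun _ => norm_nonneg _)]
  refine ⟨fun i => (hasSum_fintype _).summable, ?_⟩
  refine hS.summable.norm.congr fun i => ?_
  rw [tsum_fintype, norm_mul, Complex.norm_natCast, Nat.cast_sum, Finset.sum_mul]
  simp

theorem hasSum_fiber {X I : Type*} (π : X → I) (h : I → ℂ) (N : I → ℕ)
    (hfin : ∀ i, Finite {x // π x = i}) (hN : ∀ i, Nat.card {x // π x = i} = N i) {S : ℂ}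
    (hS : HasSum (fun i => (N i : ℂ) * h i) S) : HasSum (fun x => h (π x)) S := by
  let _ : ∀ i, Fintype {x // π x = i} := fun i => Fintype.ofFinite _
  have := hasSum_sigma_nat (F := fun i => {x // π x = i}) (fun _ _ => 1) h (S := S)
    (hasSum_of_eq hS (fun i => by simp [← hN i]) rfl)
  rw [← (Equiv.sigmaFiberEquiv π).hasSum_iff]
  refine hasSum_of_eq this ?_ rfl
  rintro ⟨i, x, rfl⟩
  simp

/-- From a sum over an injective parametrisation of part of `I × ℕ` to the sum of the finite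
inner sums. -/
theorem hasSum_push {X I : Type*} (e : X → I × ℕ) (he : Function.Injective e) (f : I × ℕ → ℂ)
    (hz : ∀ y, y ∉ Set.range e → f y = 0) (b : I → ℕ) (hb : ∀ i k, b i ≤ k → f (i, k) = 0)
    {S : ℂ} (hS : HasSum (f ∘ e) S) :
    HasSum (fun i => ∑ k ∈ Finset.range (b i), f (i, k)) S := by
  rw [he.hasSum_iff hz] at hS
  refine hS.prod_fiberwise fun i => hasSum_sum_of_ne_finset_zero fun k hk => ?_
  exact hb i k (by simpa using hk)

theorem telescope (y : ℂ) (n : ℕ) : y ^ n = 1 + ∑ j ∈ Finset.range n, (y - 1) * y ^ j := by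
  rw [← Finset.mul_sum, mul_geom_sum]
  ring

/-- The number of residues modulo `q ^ E` that are units, as a complex number. -/
noncomputable def phiC (q : ℂ) : ℕ → ℂ
  | 0 => 1
  | E + 1 => (q - 1) * q ^ E

theorem hasSum_phiC {q x : ℂ} (h : ‖q * x‖ < 1) :
    HasSum (fun E => phiC q E * x ^ E) ((1 - x) / (1 - q * x)) := by
  have h1 : 1 - q * x ≠ 0 := by
    intro h0
    rw [← sub_eq_zero.mp h0] at h
    simp at h
  rw [← hasSum_nat_add_iff' 1]
  have := (hasSum_geometric_of_norm_lt_one h).mul_left ((q - 1) * x)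
  refine hasSum_of_eq this (fun E => ?_) ?_
  · simp only [phiC]
    ring
  · simp only [Finset.sum_range_one, phiC]
    rw [div_eq_mul_inv]
    have := mul_inv_cancel₀ h1
    linear_combination this

theorem hasSum_min2 {t y : ℂ} (ht : ‖t‖ < 1) (h : ‖y * t ^ 2‖ < 1) :
    HasSum (fun v : ℕ × ℕ => y ^ min v.1 v.2 * t ^ (v.1 + v.2))
      ((1 - t)⁻¹ * (1 - t)⁻¹ + (y - 1) * t ^ 2 * ((1 - y * t ^ 2)⁻¹ * ((1 - t)⁻¹ * (1 - t)⁻¹))) := by
  have g := hasSum_geometric_of_norm_lt_one ht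
  have g2 := hasSum_geometric_of_norm_lt_one h
  have h1 := hasSum_mul' g g
  have h2 := (hasSum_mul' g2 h1).mul_left ((y - 1) * t ^ 2)
  have h3 := hasSum_push (I := ℕ × ℕ)
    (fun x : ℕ × ℕ × ℕ => ((x.1 + 1 + x.2.1, x.1 + 1 + x.2.2), x.1))
    (by
      rintro ⟨a, b, c⟩ ⟨a', b', c'⟩ h
      simp only [Prod.mk.injEq] at h ⊢
      omega)
    (fun x => if x.2 < min x.1.1 x.1.2 then (y - 1) * y ^ x.2 * t ^ (x.1.1 + x.1.2) else 0)
    (by
      rintro ⟨⟨a, b⟩, j⟩ hy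
      refine if_neg fun hlt => hy ⟨(j, a - (j + 1), b - (j + 1)), ?_⟩
      simp only [Prod.mk.injEq, and_true] at hlt ⊢
      omega)
    (fun i => min i.1 i.2) (fun i k hk => if_neg (not_lt.mpr hk))
    (hasSum_of_eq h2 (by
      rintro ⟨j, a, b⟩
      simp only [Function.comp]
      rw [if_pos (by omega)]
      ring) rfl)
  refine hasSum_of_eq (h1.add h3) ?_ rfl
  rintro ⟨a, b⟩
  rw [telescope y, add_mul, Finset.sum_mul]
  congr 1
  · ring
  · exact Finset.sum_congr rfl fun j hj => (if_pos (by simpa using hj)).symm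

/-- The exponent of the number of admissible lifts of one generator. -/
def mExp (A B C D W V : ℕ) : ℕ :=
  C + D - ((C - A) + (D - B) + (D - min (min D (D - B + V)) (min D (A - C + W))))

/-- First family of terms. -/
noncomputable def term1 (q : ℂ) (A B C D W : ℕ) : ℂ :=
  if W ≤ D ∧ D - W ≤ B ∧ A < D - W then
    phiC q (D - W) * (q ^ (B - (D - W)) * (q ^ 2) ^ mExp A B C D W A) else 0

/-- Second family of terms. -/
noncomputable def term2 (q : ℂ) (A B C D W V : ℕ) : ℂ :=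
  if W ≤ D ∧ D - W ≤ A ∧ D - W ≤ V ∧ V ≤ B then
    phiC q (D - W) * (phiC q (B - V) * (q ^ 2) ^ mExp A B C D W V) else 0

/-- The number of subalgebras with given diagonal exponents. -/
noncomputable def countC (q : ℂ) (A B C D : ℕ) : ℂ :=
  ∑ W ∈ Finset.range (D + 1),
    (term1 q A B C D W + ∑ V ∈ Finset.range (B + 1), term2 q A B C D W V)

section main

variable {q t : ℂ} (h1 : ‖t‖ < 1) (h2 : ‖q * t‖ < 1)
include h1 h2

theorem norm_aux (a b : ℕ) (hab : a ≤ b) (hb : 0 < b) : ‖q ^ a * t ^ b‖ < 1 := by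
  obtain ⟨c, rfl⟩ := Nat.exists_eq_add_of_le hab
  have : q ^ a * t ^ (a + c) = (q * t) ^ a * t ^ c := by ring
  rw [this, norm_mul, norm_pow, norm_pow]
  rcases Nat.eq_zero_or_pos a with rfl | ha
  · simpa using pow_lt_one₀ (norm_nonneg _) h1 (by omega)
  · exact mul_lt_one_of_nonneg_of_lt_one_left (by positivity)
      (pow_lt_one₀ (norm_nonneg _) h2 ha.ne') (pow_le_one₀ (norm_nonneg _) h1.le)

theorem geo (a b : ℕ) (hab : a ≤ b) (hb : 0 < b) :
    HasSum (fun n : ℕ => (q ^ a * t ^ b) ^ n) (1 - q ^ a * t ^ b)⁻¹ :=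
  hasSum_geometric_of_norm_lt_one (norm_aux h1 h2 a b hab hb)

theorem hasSum_family1 :
    HasSum (fun v : ℕ × ℕ × ℕ × ℕ × ℕ =>
      (q - 1) * q ^ (v.1 + v.2.1) * q ^ v.2.2.1 *
        (q ^ 2) ^ (v.1 + min (min v.1 v.2.2.1) (min v.2.2.2.1 v.2.2.2.2)) *
        t ^ (3 * v.1 + 2 + 2 * v.2.1 + v.2.2.1 + v.2.2.2.1 + v.2.2.2.2))
      ((q - 1) * t ^ 2 * ((1 - q ^ 3 * t ^ 3)⁻¹ * ((1 - q * t ^ 2)⁻¹ * ((1 - q * t)⁻¹ *
        ((1 - t)⁻¹ * (1 - t)⁻¹)))) * (1 + (q ^ 2 - 1) * q ^ 4 * t ^ 6 * (1 - q ^ 6 * t ^ 6)⁻¹)) := by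
  have g01 := geo h1 h2 0 1 (by omega) (by omega)
  have g11 := geo h1 h2 1 1 (by omega) (by omega)
  have g12 := geo h1 h2 1 2 (by omega) (by omega)
  have g33 := geo h1 h2 3 3 (by omega) (by omega)
  have g66 := geo h1 h2 6 6 (by omega) (by omega)
  have ha := hasSum_mul' g33 (hasSum_mul' g12 (hasSum_mul' g11 (hasSum_mul' g01 g01)))
  have hb := (hasSum_mul' g66 ha).mul_left ((q - 1) * t ^ 2 * ((q ^ 2 - 1) * q ^ 4 * t ^ 6))
  have h3 := hasSum_push (I := ℕ × ℕ × ℕ × ℕ × ℕ)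
    (fun x : ℕ × ℕ × ℕ × ℕ × ℕ × ℕ =>
      ((x.1 + 1 + x.2.1, x.2.2.1, x.1 + 1 + x.2.2.2.1, x.1 + 1 + x.2.2.2.2.1,
        x.1 + 1 + x.2.2.2.2.2), x.1))
    (by
      rintro ⟨a, b, c, d, e, f⟩ ⟨a', b', c', d', e', f'⟩ h
      simp only [Prod.mk.injEq] at h ⊢
      omega)
    (fun x => if x.2 < min (min x.1.1 x.1.2.2.1) (min x.1.2.2.2.1 x.1.2.2.2.2) then
      (q - 1) * q ^ (x.1.1 + x.1.2.1) * q ^ x.1.2.2.1 * ((q ^ 2) ^ x.1.1 *
        ((q ^ 2 - 1) * (q ^ 2) ^ x.2)) *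
        t ^ (3 * x.1.1 + 2 + 2 * x.1.2.1 + x.1.2.2.1 + x.1.2.2.2.1 + x.1.2.2.2.2) else 0)
    (by
      rintro ⟨⟨a, b, c, d, e⟩, j⟩ hy
      refine if_neg fun hlt =>
        hy ⟨(j, a - (j + 1), b, c - (j + 1), d - (j + 1), e - (j + 1)), ?_⟩
      simp only [Prod.mk.injEq, and_true, true_and] at hlt ⊢
      omega)
    (fun i => min (min i.1 i.2.2.1) (min i.2.2.2.1 i.2.2.2.2))
    (fun i k hk => if_neg (not_lt.mpr hk))
    (hasSum_of_eq hb (by
      rintro ⟨j, a, b, c, d, e⟩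
      simp only [Function.comp]
      rw [if_pos (by omega)]
      ring) rfl)
  refine hasSum_of_eq ((ha.mul_left ((q - 1) * t ^ 2)).add h3) ?_ (by ring)
  rintro ⟨a, b, c, d, e⟩
  simp only
  rw [pow_add (q ^ 2), telescope (q ^ 2) (min _ _), mul_add, mul_add, add_mul, Finset.mul_sum,
    Finset.mul_sum, Finset.sum_mul]
  congr 1
  · ring
  · exact Finset.sum_congr rfl fun j hj => (if_pos (by simpa using hj)).symm

end main

theorem telescope2 (y : ℂ) (W V Z : ℕ) : y ^ min W (V + Z) =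
    y ^ min W V + ∑ j ∈ Finset.range Z, if V + j < W then (y - 1) * y ^ (V + j) else 0 := by
  induction Z with
  | zero => simp
  | succ Z ih =>
    rw [Finset.sum_range_succ, ← add_assoc (y ^ min W V), ← ih]
    split_ifs with h
    · rw [show min W (V + (Z + 1)) = V + Z + 1 by omega, show min W (V + Z) = V + Z by omega]
      ring
    · rw [show min W (V + (Z + 1)) = W by omega, show min W (V + Z) = W by omega]
      ring

section main2

variable {q t : ℂ} (h1 : ‖t‖ < 1) (h2 : ‖q * t‖ < 1)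
include h1 h2

/-- Variables: `E, X, (A1, C), (W, V')`. -/
theorem hasSum_family2 :
    HasSum (fun v : ℕ × ℕ × (ℕ × ℕ) × (ℕ × ℕ) =>
      phiC q v.1 * phiC q v.2.1 * (q ^ 2) ^ (v.1 + min v.2.2.1.1 v.2.2.1.2) *
        (q ^ 2) ^ (min v.2.2.2.1 (v.2.2.2.2 + min (min v.1 v.2.1) (v.2.2.1.2 - v.2.2.1.1))) *
        t ^ (3 * v.1 + v.2.1 + v.2.2.1.1 + v.2.2.1.2 + v.2.2.2.1 + v.2.2.2.2))
      ((1 - q ^ 2 * t ^ 3) / (1 - q ^ 3 * t ^ 3) * ((1 - t) / (1 - q * t) *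
        ((1 - t)⁻¹ * (1 - t)⁻¹ +
          (q ^ 2 - 1) * t ^ 2 * ((1 - q ^ 2 * t ^ 2)⁻¹ * ((1 - t)⁻¹ * (1 - t)⁻¹))) ^ 2) +
        (q - 1) ^ 2 * (q ^ 2 - 1) * q ^ 2 * t ^ 6 * ((1 - q ^ 6 * t ^ 6)⁻¹ *
          ((1 - q ^ 3 * t ^ 3)⁻¹ * ((1 - q * t)⁻¹ * ((1 - q ^ 2 * t ^ 2)⁻¹ * ((1 - t)⁻¹ *
          ((1 - q ^ 2 * t ^ 2)⁻¹ * (1 - t)⁻¹))))))) := by
  have g01 := geo h1 h2 0 1 (by omega) (by omega)
  have g11 := geo h1 h2 1 1 (by omega) (by omega)
  have g22 := geo h1 h2 2 2 (by omega) (by omega)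
  have g33 := geo h1 h2 3 3 (by omega) (by omega)
  have g66 := geo h1 h2 6 6 (by omega) (by omega)
  have k := hasSum_min2 (y := q ^ 2) h1 (norm_aux h1 h2 2 2 (by omega) (by omega))
  have p1 := hasSum_phiC (q := q) (x := q ^ 2 * t ^ 3) (by
    have := norm_aux h1 h2 3 3 (by omega) (by omega)
    rwa [show q * (q ^ 2 * t ^ 3) = q ^ 3 * t ^ 3 by ring])
  have p2 := hasSum_phiC (q := q) (x := t) h2
  have ha := hasSum_mul' p1 (hasSum_mul' p2 (hasSum_mul' k k))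
  have hb := (hasSum_mul' g66 (hasSum_mul' g33 (hasSum_mul' g11 (hasSum_mul' g22
    (hasSum_mul' g01 (hasSum_mul' g22 g01)))))).mul_left
      ((q - 1) ^ 2 * (q ^ 2 - 1) * q ^ 2 * t ^ 6)
  have h3 := hasSum_push (I := ℕ × ℕ × (ℕ × ℕ) × (ℕ × ℕ))
    (fun x : ℕ × ℕ × ℕ × ℕ × ℕ × ℕ × ℕ =>
      ((x.1 + x.2.1 + 1, x.1 + x.2.2.1 + 1, (x.2.2.2.1, x.2.2.2.1 + x.1 + 1 + x.2.2.2.2.1),
        (x.2.2.2.2.2.1 + x.1 + 1 + x.2.2.2.2.2.2, x.2.2.2.2.2.1)), x.1))
    (by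
      rintro ⟨a, b, c, d, e, f, g⟩ ⟨a', b', c', d', e', f', g'⟩ h
      simp only [Prod.mk.injEq] at h ⊢
      omega)
    (fun x => if x.2 < min (min x.1.1 x.1.2.1) (x.1.2.2.1.2 - x.1.2.2.1.1) then
      phiC q x.1.1 * phiC q x.1.2.1 * (q ^ 2) ^ (x.1.1 + min x.1.2.2.1.1 x.1.2.2.1.2) *
        (if x.1.2.2.2.2 + x.2 < x.1.2.2.2.1 then (q ^ 2 - 1) * (q ^ 2) ^ (x.1.2.2.2.2 + x.2)
          else 0) *
        t ^ (3 * x.1.1 + x.1.2.1 + x.1.2.2.1.1 + x.1.2.2.1.2 + x.1.2.2.2.1 + x.1.2.2.2.2) else 0)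
    (by
      rintro ⟨⟨E, X, ⟨A, C⟩, ⟨W, V⟩⟩, j⟩ hy
      simp only
      split_ifs with hlt hlt2
      · refine absurd ⟨(j, E - (j + 1), X - (j + 1), A, C - (A + j + 1), V, W - (V + j + 1)),
          ?_⟩ hy
        simp only [Prod.mk.injEq, and_true, true_and] at hlt ⊢
        omega
      · simp
      · rfl)
    (fun i => min (min i.1 i.2.1) (i.2.2.1.2 - i.2.2.1.1))
    (fun i k hk => if_neg (not_lt.mpr hk))
    (hasSum_of_eq hb (by
      rintro ⟨j, a, b, c, d, e, f⟩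
      simp only [Function.comp]
      rw [if_pos (by omega), if_pos (by omega), show min c (c + j + 1 + d) = c by omega]
      simp only [phiC]
      ring) rfl)
  refine hasSum_of_eq (ha.add h3) ?_ (by ring)
  rintro ⟨E, X, ⟨A, C⟩, ⟨W, V⟩⟩
  simp only
  rw [telescope2 (q ^ 2), mul_add, add_mul, Finset.mul_sum, Finset.sum_mul]
  congr 1
  · ring
  · exact Finset.sum_congr rfl fun j hj => (if_pos (by simpa using hj)).symm

/-- The closed form of the local zeta function. -/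
noncomputable def _root_.Pool.Agent.MP_f8bd42_al.localZeta {K : Type*} [Field K] (q t : K) : K :=
  (q - 1) * t ^ 2 * (1 - q ^ 4 * t ^ 6) /
      ((1 - q * t ^ 2) * (1 - q ^ 6 * t ^ 6) * (1 - q ^ 3 * t ^ 3) * (1 - q * t) * (1 - t) ^ 2) +
    (1 + t) ^ 2 * (1 - q ^ 2 * t ^ 3) /
      ((1 - t) * (1 - q ^ 2 * t ^ 2) ^ 2 * (1 - q ^ 3 * t ^ 3) * (1 - q * t)) +
    (q - 1) ^ 2 * (q ^ 2 - 1) * q ^ 2 * t ^ 6 /
      ((1 - t) ^ 2 * (1 - q ^ 2 * t ^ 2) ^ 2 * (1 - q ^ 3 * t ^ 3) * (1 - q * t) *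
        (1 - q ^ 6 * t ^ 6))

theorem hasSum_countC :
    HasSum (fun v : ℕ × ℕ × ℕ × ℕ =>
      countC q v.1 v.2.1 v.2.2.1 v.2.2.2 * t ^ (v.1 + v.2.1 + v.2.2.1 + v.2.2.2))
      (localZeta q t) := by
  have f1 := hasSum_push (I := ℕ × ℕ × ℕ × ℕ)
    (fun x : ℕ × ℕ × ℕ × ℕ × ℕ =>
      ((x.1, x.2.2.1 + x.1 + x.2.1 + 1, x.2.2.2.1, x.1 + x.2.1 + 1 + x.2.2.2.2), x.2.2.2.2))
    (by
      rintro ⟨a, b, c, d, e⟩ ⟨a', b', c', d', e'⟩ h
      simp only [Prod.mk.injEq] at h ⊢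
      omega)
    (fun x => term1 q x.1.1 x.1.2.1 x.1.2.2.1 x.1.2.2.2 x.2 *
      t ^ (x.1.1 + x.1.2.1 + x.1.2.2.1 + x.1.2.2.2))
    (by
      rintro ⟨⟨A, B, C, D⟩, W⟩ hy
      simp only [term1]
      split_ifs with h
      · refine absurd ⟨(A, D - W - (A + 1), B - (D - W), C, W), ?_⟩ hy
        simp only [Prod.mk.injEq, and_true, true_and]
        omega
      · simp)
    (fun i => i.2.2.2 + 1)
    (fun i k hk => by simp only [term1]; rw [if_neg (by omega), zero_mul])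
    (hasSum_of_eq (hasSum_family1 h1 h2) (by
      rintro ⟨A, E, B, C, W⟩
      simp only [Function.comp, term1]
      rw [if_pos (by omega), show A + E + 1 + W - W = A + E + 1 by omega,
        show B + A + E + 1 - (A + E + 1) = B by omega,
        show mExp A (B + A + E + 1) C (A + E + 1 + W) W A = A + min (min A B) (min C W) by
          unfold mExp; omega]
      simp only [phiC]
      ring) rfl)
  have f2 := hasSum_push (I := (ℕ × ℕ × ℕ × ℕ) × ℕ)
    (fun x : ℕ × ℕ × (ℕ × ℕ) × (ℕ × ℕ) =>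
      (((x.1 + x.2.2.1.1, x.1 + x.2.2.2.2 + x.2.1, x.2.2.1.2, x.1 + x.2.2.2.1), x.2.2.2.1),
        x.1 + x.2.2.2.2))
    (by
      rintro ⟨a, b, ⟨c, d⟩, ⟨e, f⟩⟩ ⟨a', b', ⟨c', d'⟩, ⟨e', f'⟩⟩ h
      simp only [Prod.mk.injEq] at h ⊢
      omega)
    (fun x => term2 q x.1.1.1 x.1.1.2.1 x.1.1.2.2.1 x.1.1.2.2.2 x.1.2 x.2 *
      t ^ (x.1.1.1 + x.1.1.2.1 + x.1.1.2.2.1 + x.1.1.2.2.2))
    (by
      rintro ⟨⟨⟨A, B, C, D⟩, W⟩, V⟩ hy
      simp only [term2]
      split_ifs with h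
      · refine absurd ⟨(D - W, B - V, (A - (D - W), C), (W, V - (D - W))), ?_⟩ hy
        simp only [Prod.mk.injEq, and_true, true_and]
        omega
      · simp)
    (fun i => i.1.2.1 + 1)
    (fun i k hk => by simp only [term2]; rw [if_neg (by omega), zero_mul])
    (hasSum_of_eq (hasSum_family2 h1 h2) (by
      rintro ⟨E, X, ⟨A, C⟩, ⟨W, V⟩⟩
      simp only [Function.comp, term2]
      rw [if_pos (by omega), show E + W - W = E by omega,
        show E + V + X - (E + V) = X by omega,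
        show mExp (E + A) (E + V + X) C (E + W) W (E + V) =
            (E + min A C) + min W (V + min (min E X) (C - A)) by
          unfold mExp; omega, pow_add (q ^ 2)]
      ring) rfl)
  have f3 := hasSum_push (I := ℕ × ℕ × ℕ × ℕ) id Function.injective_id
    (fun x => ∑ V ∈ Finset.range (x.1.2.1 + 1),
      term2 q x.1.1 x.1.2.1 x.1.2.2.1 x.1.2.2.2 x.2 V *
        t ^ (x.1.1 + x.1.2.1 + x.1.2.2.1 + x.1.2.2.2)) (by simp)
    (fun i => i.2.2.2 + 1)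
    (fun i k hk => Finset.sum_eq_zero fun V _ => by
      simp only [term2]; rw [if_neg (by omega), zero_mul]) f2
  have ne : ∀ a b : ℕ, a ≤ b → 0 < b → 1 - q ^ a * t ^ b ≠ 0 := by
    intro a b hab hb h0
    have := norm_aux h1 h2 a b hab hb
    rw [← sub_eq_zero.mp h0] at this
    simp at this
  have n01 : 1 - t ≠ 0 := by simpa using ne 0 1 (by omega) (by omega)
  have n11 : 1 - q * t ≠ 0 := by simpa using ne 1 1 (by omega) (by omega)
  have n12 : 1 - q * t ^ 2 ≠ 0 := by simpa using ne 1 2 (by omega) (by omega)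
  have n22 := ne 2 2 (by omega) (by omega)
  have n33 := ne 3 3 (by omega) (by omega)
  have n66 := ne 6 6 (by omega) (by omega)
  refine hasSum_of_eq (f1.add f3) ?_ ?_
  · rintro ⟨A, B, C, D⟩
    simp only [countC, Finset.sum_add_distrib, add_mul, Finset.sum_mul]
  · unfold localZeta
    field_simp
    ring

end main2

end Pool.Agent.MP_f8bd42_al
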