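import Pool.Agent.MP_f8bd42_al.Sums

/-!
Truncated valuations and counting in quotients of a discrete valuation ring.
-/

namespace Pool.Agent.MP_f8bd42_al

variable {O : Type} [CommRing O] [IsDomain O] [IsDiscreteValuationRing O] {ϖ : O}

open Classical in
/-- The valuation of `x`, truncated at `n`. -/
noncomputable def tv (ϖ : O) (n : ℕ) (x : O) : ℕ := Nat.findGreatest (fun k => ϖ ^ k ∣ x) n

omit [IsDomain O] [IsDiscreteValuationRing O] in
theorem tv_le (n : ℕ) (x : O) : tv ϖ n x ≤ n := by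
  classical
  unfold tv
  exact Nat.findGreatest_le n

omit [IsDomain O] [IsDiscreteValuationRing O] in
theorem pow_tv_dvd (n : ℕ) (x : O) : ϖ ^ tv ϖ n x ∣ x := by
  classical
  unfold tv
  exact Nat.findGreatest_spec (P := fun k => ϖ ^ k ∣ x) (Nat.zero_le n) (by simp)

omit [IsDomain O] [IsDiscreteValuationRing O] in
theorem le_tv_iff {n k : ℕ} (hk : k ≤ n) (x : O) : k ≤ tv ϖ n x ↔ ϖ ^ k ∣ x := by
  classical
  constructor
  · exact fun h => (pow_dvd_pow ϖ h).trans (pow_tv_dvd n x)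
  · intro h
    unfold tv
    exact Nat.le_findGreatest hk h

omit [IsDomain O] [IsDiscreteValuationRing O] in
theorem tv_eq_of_forall {n m : ℕ} {x : O} (hm : m ≤ n) (h : ∀ k ≤ n, k ≤ m ↔ ϖ ^ k ∣ x) :
    tv ϖ n x = m :=
  le_antisymm ((h _ (tv_le n x)).mpr (pow_tv_dvd n x)) ((le_tv_iff hm x).mpr ((h m hm).mp le_rfl))

omit [IsDiscreteValuationRing O] in
theorem pow_dvd_pow_mul_iff (hϖ : Irreducible ϖ) (k j : ℕ) (x : O) :
    ϖ ^ k ∣ ϖ ^ j * x ↔ ϖ ^ (k - j) ∣ x := by
  rcases le_total k j with h | h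
  · simp only [Nat.sub_eq_zero_of_le h, pow_zero, one_dvd, iff_true]
    exact Dvd.dvd.mul_right (pow_dvd_pow ϖ h) x
  · obtain ⟨c, rfl⟩ := Nat.exists_eq_add_of_le h
    rw [pow_add, mul_dvd_mul_iff_left (pow_ne_zero j hϖ.ne_zero), Nat.add_sub_cancel_left]

omit [IsDiscreteValuationRing O] in
theorem tv_pow_mul (hϖ : Irreducible ϖ) {D n j : ℕ} (h : D ≤ j + n) (x : O) :
    tv ϖ D (ϖ ^ j * x) = min D (j + tv ϖ n x) := by
  refine tv_eq_of_forall (min_le_left _ _) fun k hk => ?_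
  rw [pow_dvd_pow_mul_iff hϖ, ← le_tv_iff (n := n) (by omega)]
  omega

omit [IsDomain O] [IsDiscreteValuationRing O] in
theorem tv_neg (n : ℕ) (x : O) : tv ϖ n (-x) = tv ϖ n x :=
  tv_eq_of_forall (tv_le n x) fun k hk => by rw [le_tv_iff hk, dvd_neg]

theorem isUnit_of_not_dvd (hϖ : Irreducible ϖ) {x : O} (h : ¬ ϖ ∣ x) : IsUnit x := by
  by_contra hx
  have : x ∈ IsLocalRing.maximalIdeal O := hx
  rw [hϖ.maximalIdeal_eq, Ideal.mem_span_singleton] at this
  exact h this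

theorem exists_unit_of_tv_lt (hϖ : Irreducible ϖ) {n : ℕ} {x : O} (h : tv ϖ n x < n) :
    ∃ u, IsUnit u ∧ x = ϖ ^ tv ϖ n x * u := by
  obtain ⟨u, hu⟩ := pow_tv_dvd (ϖ := ϖ) n x
  refine ⟨u, isUnit_of_not_dvd hϖ fun hd => ?_, hu⟩
  have : tv ϖ n x + 1 ≤ tv ϖ n x := by
    rw [le_tv_iff h]
    conv_rhs => rw [hu]
    rw [pow_succ]
    exact mul_dvd_mul_left _ hd
  omega

theorem pow_dvd_mul_iff_tv (hϖ : Irreducible ϖ) (D : ℕ) (z w : O) :
    ϖ ^ D ∣ z * w ↔ ϖ ^ (D - tv ϖ D w) ∣ z := by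
  rcases (tv_le (ϖ := ϖ) D w).lt_or_eq with h | h
  · obtain ⟨u, hu, hw⟩ := exists_unit_of_tv_lt hϖ h
    conv_lhs => rw [hw]
    rw [show z * (ϖ ^ tv ϖ D w * u) = ϖ ^ tv ϖ D w * z * u by ring, hu.dvd_mul_right,
      pow_dvd_pow_mul_iff hϖ]
  · have := pow_tv_dvd (ϖ := ϖ) D w
    rw [h] at this
    simp only [h, Nat.sub_self, pow_zero, one_dvd, iff_true]
    exact Dvd.dvd.mul_left this z

variable {q : ℕ}

theorem index_span_pow (hϖ : Irreducible ϖ) (hq : Nat.card (O ⧸ Ideal.span {ϖ}) = q) (n : ℕ) :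
    (Ideal.span {ϖ ^ n}).toAddSubgroup.index = q ^ n := by
  have hp : (Ideal.span {ϖ}).IsPrime := by
    rw [← hϖ.maximalIdeal_eq]
    infer_instance
  have := cardQuot_pow_of_prime (S := O) (P := Ideal.span {ϖ})
    (by simpa using hϖ.ne_zero) (i := n)
  rw [Ideal.span_singleton_pow, Submodule.cardQuot_apply, Submodule.cardQuot_apply, hq] at this
  exact this

theorem card_quot_pow (hϖ : Irreducible ϖ) (hq : Nat.card (O ⧸ Ideal.span {ϖ}) = q) (n : ℕ) :
    Nat.card (O ⧸ Ideal.span {ϖ ^ n}) = q ^ n := index_span_pow hϖ hq n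

/-- The pairs `(r, s)` with `ϖ ^ D ∣ x r + y s`. -/
def kerForm (ϖ : O) (D : ℕ) (x y : O) : Submodule O (O × O) :=
  Submodule.comap (x • LinearMap.fst O O O + y • LinearMap.snd O O O) (Ideal.span {ϖ ^ D})

omit [IsDomain O] [IsDiscreteValuationRing O] in
theorem mem_kerForm {D : ℕ} {x y : O} {p : O × O} :
    p ∈ kerForm ϖ D x y ↔ ϖ ^ D ∣ x * p.1 + y * p.2 := by
  simp [kerForm, Ideal.mem_span_singleton]

theorem index_kerForm (hϖ : Irreducible ϖ) (hq : Nat.card (O ⧸ Ideal.span {ϖ}) = q) (D : ℕ)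
    (x y : O) :
    (kerForm ϖ D x y).toAddSubgroup.index = q ^ (D - min (tv ϖ D x) (tv ϖ D y)) := by
  set m := min (tv ϖ D x) (tv ϖ D y) with hm
  obtain ⟨x', hx⟩ : ϖ ^ m ∣ x := (pow_dvd_pow ϖ (min_le_left _ _)).trans (pow_tv_dvd D x)
  obtain ⟨y', hy⟩ : ϖ ^ m ∣ y := (pow_dvd_pow ϖ (min_le_right _ _)).trans (pow_tv_dvd D y)
  have hker : kerForm ϖ D x y = kerForm ϖ (D - m) x' y' := by
    ext p
    rw [mem_kerForm, mem_kerForm, ← pow_dvd_pow_mul_iff hϖ]
    conv_lhs => rw [hx, hy]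
    rw [mul_assoc, mul_assoc, ← mul_add]
  rw [hker]
  have hmD : m ≤ D := (min_le_left _ _).trans (tv_le D x)
  rcases hmD.lt_or_eq with h | h
  · have hsurj : Function.Surjective
        (x' • LinearMap.fst O O O + y' • LinearMap.snd O O O : O × O →ₗ[O] O) := by
      have hu : IsUnit x' ∨ IsUnit y' := by
        by_contra hn
        rw [not_or] at hn
        have h1 : m + 1 ≤ tv ϖ D x := by
          rw [le_tv_iff h, hx, pow_succ]
          refine mul_dvd_mul_left _ ?_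
          by_contra hd
          exact hn.1 (isUnit_of_not_dvd hϖ hd)
        have h2 : m + 1 ≤ tv ϖ D y := by
          rw [le_tv_iff h, hy, pow_succ]
          refine mul_dvd_mul_left _ ?_
          by_contra hd
          exact hn.2 (isUnit_of_not_dvd hϖ hd)
        omega
      intro z
      rcases hu with hu | hu
      · obtain ⟨v, hv⟩ := hu.exists_right_inv
        exact ⟨(v * z, 0), by simp [← mul_assoc, hv]⟩
      · obtain ⟨v, hv⟩ := hu.exists_right_inv
        exact ⟨(0, v * z), by simp [← mul_assoc, hv]⟩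
    rw [← index_span_pow hϖ hq]
    exact AddSubgroup.index_comap_of_surjective (Ideal.span {ϖ ^ (D - m)}).toAddSubgroup
      (f := (x' • LinearMap.fst O O O + y' • LinearMap.snd O O O : O × O →ₗ[O] O).toAddMonoidHom)
      hsurj
  · have : kerForm ϖ (D - m) x' y' = ⊤ := by
      ext p
      simp [mem_kerForm, h]
    rw [this, h]
    simp

omit [IsDomain O] [IsDiscreteValuationRing O] in
theorem dvd_out_sub (n : ℕ) (a : O) :
    ϖ ^ n ∣ (Ideal.Quotient.mk (Ideal.span {ϖ ^ n}) a).out - a := by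
  rw [← Ideal.mem_span_singleton, ← Ideal.Quotient.eq]
  exact Quotient.out_eq _

theorem card_dvd_out (hϖ : Irreducible ϖ) (hq : Nat.card (O ⧸ Ideal.span {ϖ}) = q) (hq0 : q ≠ 0)
    {n k : ℕ} (hk : k ≤ n) (a : O) :
    Nat.card {x : O ⧸ Ideal.span {ϖ ^ n} // ϖ ^ k ∣ x.out - a} = q ^ (n - k) := by
  let f : O →+ O ⧸ Ideal.span {ϖ ^ n} := (Ideal.Quotient.mk (Ideal.span {ϖ ^ n})).toAddMonoidHom
  let H : AddSubgroup (O ⧸ Ideal.span {ϖ ^ n}) := (Ideal.span {ϖ ^ k}).toAddSubgroup.map f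
  have hker : f.ker ≤ (Ideal.span {ϖ ^ k}).toAddSubgroup := by
    intro x hx
    have : x ∈ Ideal.span {ϖ ^ n} := Ideal.Quotient.eq_zero_iff_mem.mp hx
    rw [Ideal.mem_span_singleton] at this
    exact Ideal.mem_span_singleton.mpr ((pow_dvd_pow ϖ hk).trans this)
  have hidx : H.index = q ^ k := by
    rw [AddSubgroup.index_map_eq _ Ideal.Quotient.mk_surjective hker, index_span_pow hϖ hq]
  have hcard : Nat.card H = q ^ (n - k) := by
    have := H.card_mul_index
    rw [hidx, card_quot_pow hϖ hq] at this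
    apply Nat.eq_of_mul_eq_mul_right (pow_pos (Nat.pos_of_ne_zero hq0) k)
    rw [this, ← pow_add, Nat.sub_add_cancel hk]
  rw [← hcard]
  refine Nat.card_congr (Equiv.subtypeEquiv (Equiv.subRight (f a)) fun x => ?_)
  have hx : x - f a = f (x.out - a) := by
    rw [map_sub]
    congr 1
    exact (Quotient.out_eq x).symm
  rw [Equiv.subRight_apply, hx]
  constructor
  · exact fun h => ⟨_, Ideal.mem_span_singleton.mpr h, rfl⟩
  · intro h
    have : x.out - a ∈ H.comap f := h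
    rw [AddSubgroup.comap_map_eq, sup_eq_left.mpr hker] at this
    exact Ideal.mem_span_singleton.mp this

theorem sum_tv (hϖ : Irreducible ϖ) (hq : Nat.card (O ⧸ Ideal.span {ϖ}) = q) (hq0 : q ≠ 0)
    (n : ℕ) [Fintype (O ⧸ Ideal.span {ϖ ^ n})] (f : ℕ → ℂ) :
    ∑ x : O ⧸ Ideal.span {ϖ ^ n}, f (tv ϖ n x.out) =
      ∑ k ∈ Finset.range (n + 1), phiC q (n - k) * f k := by
  classical
  have hge : ∀ k ≤ n, (Finset.univ.filter fun x : O ⧸ Ideal.span {ϖ ^ n} =>
      k ≤ tv ϖ n x.out).card = q ^ (n - k) := by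
    intro k hk
    rw [← card_dvd_out hϖ hq hq0 hk 0, Nat.card_eq_fintype_card, Fintype.card_subtype]
    congr 1
    ext x
    simp [le_tv_iff hk]
  rw [← Finset.sum_fiberwise_of_maps_to (s := Finset.univ) (t := Finset.range (n + 1))
    (g := fun x : O ⧸ Ideal.span {ϖ ^ n} => tv ϖ n x.out)
    (fun x _ => Finset.mem_range.mpr (Nat.lt_succ_of_le (tv_le n _)))]
  refine Finset.sum_congr rfl fun k hk => ?_
  have hk' : k ≤ n := Nat.lt_succ_iff.mp (Finset.mem_range.mp hk)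
  rw [Finset.sum_congr rfl (g := fun _ => f k) (fun x hx => by rw [(Finset.mem_filter.mp hx).2]),
    Finset.sum_const, nsmul_eq_mul]
  congr 1
  rcases hk'.lt_or_eq with h | rfl
  · obtain ⟨c, rfl⟩ := Nat.exists_eq_add_of_lt h
    have h1 := hge k hk'
    have h2 := hge (k + 1) h
    have h3 : (Finset.univ.filter fun x : O ⧸ Ideal.span {ϖ ^ (k + c + 1)} =>
        k ≤ tv ϖ (k + c + 1) x.out) =
        (Finset.univ.filter fun x : O ⧸ Ideal.span {ϖ ^ (k + c + 1)} =>
          tv ϖ (k + c + 1) x.out = k) ∪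
        (Finset.univ.filter fun x : O ⧸ Ideal.span {ϖ ^ (k + c + 1)} =>
          k + 1 ≤ tv ϖ (k + c + 1) x.out) := by
      ext x
      simp only [Finset.mem_filter, Finset.mem_univ, true_and, Finset.mem_union]
      omega
    rw [h3, Finset.card_union_of_disjoint (by
      rw [Finset.disjoint_filter]
      intro x _ hx
      omega), h2] at h1
    rw [show k + c + 1 - k = c + 1 by omega] at h1 ⊢
    rw [show k + c + 1 - (k + 1) = c by omega] at h1
    have h4 := congrArg (Nat.cast : ℕ → ℂ) h1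
    push_cast at h4
    simp only [phiC]
    linear_combination h4
  · have h1 := hge k le_rfl
    have h3 : (Finset.univ.filter fun x : O ⧸ Ideal.span {ϖ ^ k} => tv ϖ k x.out = k) =
        (Finset.univ.filter fun x : O ⧸ Ideal.span {ϖ ^ k} => k ≤ tv ϖ k x.out) := by
      ext x
      have := tv_le (ϖ := ϖ) k x.out
      simp only [Finset.mem_filter, Finset.mem_univ, true_and]
      omega
    rw [h3, h1]
    simp [phiC]

open Classical in
theorem sum_tv_shift (hϖ : Irreducible ϖ) (hq : Nat.card (O ⧸ Ideal.span {ϖ}) = q) (hq0 : q ≠ 0)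
    {A B E : ℕ} (hE : E ≤ B) [Fintype (O ⧸ Ideal.span {ϖ ^ B})] (g : ℕ → ℂ) :
    ∑ x : O ⧸ Ideal.span {ϖ ^ B}, (if ϖ ^ E ∣ x.out - ϖ ^ A then g (tv ϖ B x.out) else 0) =
      (if A < E then (q : ℂ) ^ (B - E) * g A else 0) +
        ∑ V ∈ Finset.range (B + 1), if E ≤ A ∧ E ≤ V then phiC q (B - V) * g V else 0 := by
  by_cases hA : A < E
  · rw [if_pos hA, Finset.sum_eq_zero (s := Finset.range (B + 1))
      (fun V _ => if_neg (by omega)), add_zero, ← Finset.sum_filter,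
      Finset.sum_congr rfl (g := fun _ => g A), Finset.sum_const, nsmul_eq_mul]
    · congr 1
      rw [← Nat.cast_pow, ← card_dvd_out hϖ hq hq0 hE (ϖ ^ A), Nat.card_eq_fintype_card,
        Fintype.card_subtype]
    · intro x hx
      have hx' := (Finset.mem_filter.mp hx).2
      congr 1
      refine le_antisymm ?_ ?_
      · by_contra hlt
        have h1 : ϖ ^ (A + 1) ∣ x.out := (le_tv_iff (by omega) _).mp (not_le.mp hlt)
        have h2 : ϖ ^ (A + 1) ∣ x.out - ϖ ^ A := (pow_dvd_pow ϖ hA).trans hx'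
        have h3 : ϖ ^ (A + 1) ∣ ϖ ^ A := by simpa using dvd_sub h1 h2
        rw [pow_dvd_pow_iff hϖ.ne_zero hϖ.not_isUnit] at h3
        omega
      · rw [le_tv_iff (by omega)]
        have h2 : ϖ ^ A ∣ x.out - ϖ ^ A := (pow_dvd_pow ϖ hA.le).trans hx'
        simpa using dvd_add h2 (dvd_refl (ϖ ^ A))
  · rw [if_neg hA, zero_add]
    have h1 : ∀ x : O ⧸ Ideal.span {ϖ ^ B},
        (if ϖ ^ E ∣ x.out - ϖ ^ A then g (tv ϖ B x.out) else 0) =
          (fun V => if E ≤ V then g V else 0) (tv ϖ B x.out) := by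
      intro x
      simp only [le_tv_iff hE]
      congr 1
      exact propext (dvd_sub_left (pow_dvd_pow ϖ (not_lt.mp hA)))
    rw [Finset.sum_congr rfl fun x _ => h1 x]
    refine (sum_tv hϖ hq hq0 B (fun V => if E ≤ V then g V else 0)).trans ?_
    refine Finset.sum_congr rfl fun V _ => ?_
    by_cases hV : E ≤ V
    · rw [if_pos hV, if_pos ⟨not_lt.mp hA, hV⟩]
    · rw [if_neg hV, if_neg (fun h => hV h.2), mul_zero]

end Pool.Agent.MP_f8bd42_al
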